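import Pool.Agent.H533R2.VO.Spec

set_option autoImplicit false

/-!
# Continuity of gluing
-/

namespace Pool.Agent.H533R2.VO

open Set
open Pool.Agent.H899R2.VP

theorem t_GLC : S_GLC := by
  intro a ι M J T _ hT
  unfold Glu
  refine Continuous.prodMk ?_ ?_
  · refine continuous_pi fun x => continuous_pi fun y => ?_
    by_cases h : ∃ j, x ∈ J j ∧ y ∈ J j
    · simp only [dif_pos h]
      exact (continuous_apply y).comp ((continuous_apply x).comp
        (continuous_fst.comp (hT h.choose)))
    · simp only [dif_neg h]
      exact continuous_const
  · refine continuous_pi fun i => continuous_pi fun t => ?_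
    by_cases h : Nonempty (Fin (a i)) ∧ ∃ j, ∀ k, t k ∈ J j
    · simp only [dif_pos h]
      exact (continuous_apply t).comp ((continuous_apply i).comp
        (continuous_snd.comp (hT h.2.choose)))
    · simp only [dif_neg h]
      exact continuous_const

end Pool.Agent.H533R2.VO
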