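import Pool.Agent.H533R2.VO.Spec

set_option autoImplicit false

/-!
# Finite pieces: equivalence of rank omega implies isomorphism
-/

namespace Pool.Agent.H533R2.VO

open Set
open Pool.Agent.H899R2.VP

theorem t_FIN : S_FIN := by
  intro a M N X Y hX h
  have hle : (1 : Ordinal.{0}) + ((hX.toFinset.toList.length : ℕ) : Ordinal.{0}) ≤
      Ordinal.omega0 := by
    have : (1 : Ordinal.{0}) + ((hX.toFinset.toList.length : ℕ) : Ordinal.{0}) =
        ((1 + hX.toFinset.toList.length : ℕ) : Ordinal.{0}) := by push_cast; rfl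
    rw [this]
    exact (Ordinal.natCast_lt_omega0 _).le
  obtain ⟨t, ht, htY, hb⟩ := (h.mono hle).forth_list hX.toFinset.toList le_rfl
    (fun x hx => by simpa using hx)
  rw [empty_union] at hb
  refine ⟨zipSet hX.toFinset.toList t, empty_subset _, ?_, hb.piso, ?_, ?_⟩
  · rintro ⟨x, y⟩ hu
    exact ⟨by simpa using mem_zipSet_left hu, htY y (mem_zipSet_right hu)⟩
  · intro x hx
    exact exists_zipSet_left ht.symm (by simpa using hx)
  · intro y hy
    obtain ⟨x, hx, hc⟩ := hb.back (zero_lt_one) hy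
    obtain ⟨y', hy'⟩ := exists_zipSet_left (s := hX.toFinset.toList) (t := t) ht.symm
      (x := x) (by simpa using hx)
    have he : y = y' := hc.piso.snd_eq (Or.inl rfl) (Or.inr hy') rfl
    exact ⟨x, he ▸ hy'⟩

end Pool.Agent.H533R2.VO
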