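import Pool.Agent.H533R2.VO.Spec

set_option autoImplicit false

/-!
# PUT: transport of a relational structure
-/

namespace Pool.Agent.H533R2.VO

open Set
open Pool.Agent.H899R2.VP

private theorem put_adj {a : ℕ → ℕ} (e : ℕ → ℕ) (R : RS a) (x y : ℕ) :
    ¬ Adj (put e R) x y := by
  intro h
  have h1 : false = true := h
  exact Bool.false_ne_true h1

private theorem put_comp {a : ℕ → ℕ} (e : ℕ → ℕ) (he : Function.Injective e) (R : RS a) (i : ℕ)
    (v : Fin (a i) → ℕ) : (put e R).2 i (e ∘ v) = R i v := by
  classical
  have h : ∀ k, ∃ n, e n = (e ∘ v) k := fun k => ⟨v k, rfl⟩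
  change (if h : ∀ k, ∃ n, e n = (e ∘ v) k then R i (fun k => (h k).choose) else false) = R i v
  rw [dif_pos h]
  congr 1
  funext k
  exact he (h k).choose_spec

theorem t_PUT : S_PUT := by
  classical
  intro a e he
  refine ⟨fun R => ?_, fun R => ?_, fun R i v => put_comp e he R i v, ?_⟩
  · constructor
    · intro x
      exact put_adj e R x x
    · intro x y z h
      exact absurd h (put_adj e R x y)
    · intro x y z h
      exact absurd h (put_adj e R x z)
    · intro i t _ j k
      exact put_adj e R (t j) (t k)
  · refine ⟨{w | w.2 = e w.1}, Subset.rfl, ?_, ⟨?_, ?_, ?_⟩, ?_, ?_⟩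
    · rintro ⟨x, y⟩ h
      have h1 : y = e x := h
      exact ⟨mem_univ _, x, h1.symm⟩
    · rintro ⟨x, y⟩ h ⟨x', y'⟩ h'
      have h1 : y = e x := h
      have h2 : y' = e x' := h'
      subst h1 h2
      exact ⟨fun h => congrArg e h, fun h => he h⟩
    · intro u _ v _
      rfl
    · intro i t ht
      have h1 : (fun k => (t k).2) = e ∘ fun k => (t k).1 := by
        funext k
        exact ht k
      rw [h1, put_comp e he]
      rfl
    · intro x _
      exact ⟨e x, rfl⟩
    · rintro y ⟨x, rfl⟩
      exact ⟨x, rfl⟩
  · refine Continuous.prodMk continuous_const ?_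
    refine continuous_pi fun i => continuous_pi fun t => ?_
    by_cases h : ∀ k, ∃ n, e n = t k
    · simp only [dif_pos h]
      exact (continuous_apply (fun k => (h k).choose)).comp (continuous_apply i)
    · simp only [dif_neg h]
      exact continuous_const

end Pool.Agent.H533R2.VO
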