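import Pool.Agent.H533R2.VO.Spec
import Pool.Agent.H899R2.VP.Bnd
import Pool.Agent.H899R2.VP.Dst

set_option autoImplicit false

/-! MEAS1: back-and-forth relations are measurable. -/

namespace Pool.Agent.H533R2.VO

open Set
open Pool.Agent.H899R2.VP

theorem meas1_piso {a : ℕ → ℕ} (N : St a) (p : Set (ℕ × ℕ)) :
    MeasurableSet {M : St a | PIso N M p} := by
  have h1 : IsClosed {M : St a | PIso N M p} :=
    (isClosed_piso p).preimage (f := fun M : St a => (N, M)) (by fun_prop)
  exact h1.measurableSet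

theorem t_MEAS1 : S_MEAS1 := by
  intro a N Y Z hZ β
  induction β using WellFoundedLT.induction with
  | ind β ih =>
    intro hβ p
    have hc : Countable (Iio β) := Dst.countable_Iio hβ
    have h1 : {M : St a | BF N M Y (Z M) β p} = {M : St a | PIso N M p} ∩ ⋂ o : Iio β,
        ((⋂ x : ℕ, ⋂ _ : x ∈ Y, ⋃ y : ℕ, {M : St a | y ∈ Z M} ∩
          {M : St a | BF N M Y (Z M) o.1 (insert (x, y) p)}) ∩
        (⋂ y : ℕ, ({M : St a | y ∈ Z M}ᶜ ∪ ⋃ x : ℕ, ⋃ _ : x ∈ Y,
          {M : St a | BF N M Y (Z M) o.1 (insert (x, y) p)}))) := by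
      ext M
      constructor
      · intro h
        have h' : BF N M Y (Z M) β p := h
        refine ⟨h'.piso, mem_iInter.2 fun o => ⟨?_, ?_⟩⟩
        · refine mem_iInter.2 fun x => mem_iInter.2 fun hx => ?_
          obtain ⟨y, hy, hb⟩ := h'.forth o.2 hx
          exact mem_iUnion.2 ⟨y, hy, hb⟩
        · refine mem_iInter.2 fun y => ?_
          by_cases hy : y ∈ Z M
          · obtain ⟨x, hx, hb⟩ := h'.back o.2 hy
            exact Or.inr (mem_iUnion.2 ⟨x, mem_iUnion.2 ⟨hx, hb⟩⟩)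
          · exact Or.inl hy
      · rintro ⟨h2, h3⟩
        show BF N M Y (Z M) β p
        rw [BF_iff]
        refine ⟨h2, fun o' ho' => ?_⟩
        obtain ⟨h4, h5⟩ := mem_iInter.1 h3 ⟨o', ho'⟩
        refine ⟨fun x hx => ?_, fun y hy => ?_⟩
        · obtain ⟨y, hy, hb⟩ := mem_iUnion.1 (mem_iInter.1 (mem_iInter.1 h4 x) hx)
          exact ⟨y, hy, hb⟩
        · rcases mem_iInter.1 h5 y with h6 | h6
          · exact (h6 hy).elim
          · obtain ⟨x, hx⟩ := mem_iUnion.1 h6
            obtain ⟨hx1, hx2⟩ := mem_iUnion.1 hx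
            exact ⟨x, hx1, hx2⟩
    rw [h1]
    have h2 : ∀ (o : Iio β) (q : Set (ℕ × ℕ)), MeasurableSet {M : St a | BF N M Y (Z M) o.1 q} :=
      fun o q => ih o.1 o.2 (lt_trans o.2 hβ) q
    refine (meas1_piso N p).inter (MeasurableSet.iInter fun o => MeasurableSet.inter ?_ ?_)
    · exact MeasurableSet.iInter fun x => MeasurableSet.iInter fun _ =>
        MeasurableSet.iUnion fun y => (hZ y).inter (h2 o _)
    · exact MeasurableSet.iInter fun y => (hZ y).compl.union
        (MeasurableSet.iUnion fun x => MeasurableSet.iUnion fun _ => h2 o _)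

end Pool.Agent.H533R2.VO
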