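import Pool.Agent.H533R2.VO.Spec

set_option autoImplicit false

/-! Pieces between closed sets. -/

namespace Pool.Agent.H533R2.VO

open Set
open Pool.Agent.H899R2.VP

theorem a1p_claim (h : S_CLS) (a : ℕ → ℕ) (S : Set (St a × Set ℕ)) (m : Ordinal.{0}) (M : St a)
    (u : ℕ) (C D : Set ℕ) (hS : Fam S) (hM : OS M) (hC : Cls S M u m C)
    (hD : ∀ x ∈ D, ∀ y ∈ Lw S M u, ¬ Adj M x y → y ∈ D) (hz : ∃ z ∈ C, z ∉ D) :
    BF M M (Lw S M u \ D) (C \ D) m ∅ := by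
  obtain ⟨x, hxC, hxD⟩ := hz
  have hxL := hC.sub hxC
  have key : ∀ z ∈ Lw S M u, ¬ Adj M z x → z ∉ D := fun z _ h1 h2 => hxD (hD z h2 x hxL h1)
  apply sum2BF hM hM (Lt M x) (Lt M x) (empty_subset _)
  · intro z _ h1 y _ h2
    exact hM.lt_le h1 h2
  · intro z _ h1 y _ h2
    exact hM.lt_le h1 h2
  · intro w hw
    exact absurd hw (notMem_empty w)
  · have e : (Lw S M u \ D) ∩ Lt M x = (C \ D) ∩ Lt M x := by
      ext z
      constructor
      · rintro ⟨⟨h1, h2⟩, h3⟩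
        exact ⟨⟨hC.init x hxC z h1 (hM.asymm h3), h2⟩, h3⟩
      · rintro ⟨⟨h1, h2⟩, h3⟩
        exact ⟨⟨hC.sub h1, h2⟩, h3⟩
    rw [e]
    apply bf_id
    intro w hw
    exact absurd hw.1 (notMem_empty w)
  · have e1 : (Lw S M u \ D) \ Lt M x = Lx S M u x := by
      ext z
      constructor
      · rintro ⟨⟨h1, h2⟩, h3⟩
        exact ⟨h1, h3⟩
      · rintro ⟨h1, h2⟩
        exact ⟨⟨h1, key z h1 h2⟩, h2⟩
    have e2 : (C \ D) \ Lt M x = C ∩ Ge M x := by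
      ext z
      constructor
      · rintro ⟨⟨h1, h2⟩, h3⟩
        exact ⟨h1, h3⟩
      · rintro ⟨h1, h2⟩
        exact ⟨⟨h1, key z (hC.sub h1) h2⟩, h2⟩
    rw [e1, e2]
    refine (h a S m M u C hS hM hC x hxC).subset ?_
    intro w hw
    exact absurd hw.1 (notMem_empty w)

theorem t_A1P (h : S_CLS) : S_A1P := by
  intro a S m M M' u u' C C' D D' hS hM hM' hC hC' _ _ hD hD' hz hz' hb
  exact bf_comp0 (bf_comp0 (bf_symm0 (a1p_claim h a S m M u C D hS hM hC hD hz)) hb)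
    (a1p_claim h a S m M' u' C' D' hS hM' hC' hD' hz')

end Pool.Agent.H533R2.VO
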