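import Pool.Agent.H533R2.VO.Spec
set_option autoImplicit false
namespace Pool.Agent.H533R2.VO
open Set
open Pool.Agent.H899R2.VP

private theorem b2ex_iff {a : ℕ → ℕ} (S : Set (St a × Set ℕ)) (M : St a) (u : ℕ)
    (m o : Ordinal.{0}) (x e : ℕ) : Rk S M u m o x e ↔ ∀ o' < o, ∃ x1 ∈ Lx S M u x, Adj M x1 e ∧
      Cl S M u m x x1 ∧ Rk S M u m o' x1 e := by
  conv_lhs => unfold Rk

private theorem b2ex_anti {a : ℕ → ℕ} (S : Set (St a × Set ℕ)) (M : St a) (u : ℕ)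
    (m : Ordinal.{0}) {o o' : Ordinal.{0}} (h : o' ≤ o) (x e : ℕ) (hr : Rk S M u m o x e) :
    Rk S M u m o' x e := by
  rw [b2ex_iff] at hr ⊢
  intro o'' ho''
  exact hr o'' (ho''.trans_le h)

private theorem b2ex_mono {a : ℕ → ℕ} (S : Set (St a × Set ℕ)) (M : St a) (hM : OS M) (u : ℕ)
    (m : Ordinal.{0}) (e e' : ℕ) (he : Adj M e e') : ∀ (o : Ordinal.{0}) (x : ℕ),
    Rk S M u m o x e → Rk S M u m o x e' := by
  intro o
  induction o using WellFoundedLT.induction with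
  | ind o ih =>
    intro x hr
    rw [b2ex_iff] at hr ⊢
    intro o' ho'
    obtain ⟨x1, h1, h2, h3, h4⟩ := hr o' ho'
    exact ⟨x1, h1, hM.tr _ _ _ h2 he, h3, ih o' ho' x1 h4⟩

theorem t_B2EX (h : S_RKCH) : S_B2EX := by
  intro a S m M u z0 hS hM hm hL hz0 hno hcl
  by_contra hcon
  push Not at hcon
  have hge : ∀ x y z : ℕ, ¬ Adj M z y → ¬ Adj M y x → ¬ Adj M z x := by
    intro x y z h1 h2 h3
    rcases hM.ntr z y x h3 with h4 | h4
    · exact h1 h4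
    · exact h2 h4
  have hbd : ∀ x ∈ Lx S M u z0, ∀ e ∈ Lw S M u, ∃ o : Ordinal.{0}, ¬ Rk S M u m o x e := by
    intro x hx e he
    by_contra hc
    push Not at hc
    obtain ⟨C, hC, hxC⟩ := h a S m M u x e hS hM hm hx.1 he hc
    exact hno ⟨C, hC, hC.init x hxC z0 hz0 hx.2⟩
  choose! E hE hE2 using hcon
  let ρ : ℕ → Ordinal.{0} := fun x => sInf {o | ¬ Rk S M u m o x (E x)}
  have hρ : ∀ x ∈ Lx S M u z0, ¬ Rk S M u m (ρ x) x (E x) := by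
    intro x hx
    exact csInf_mem (s := {o | ¬ Rk S M u m o x (E x)}) (hbd x hx (E x) (hE x hx).1)
  have hρ2 : ∀ x, ∀ o < ρ x, Rk S M u m o x (E x) := by
    intro x o ho
    by_contra hc
    exact absurd (csInf_le' (s := {o | ¬ Rk S M u m o x (E x)}) hc) (not_le.2 ho)
  have hne : (ρ '' Lx S M u z0).Nonempty := ⟨ρ z0, z0, ⟨hz0, hM.irr z0⟩, rfl⟩
  obtain ⟨r, ⟨x, hx, rfl⟩, hmin⟩ := WellFounded.has_min (wellFounded_lt (α := Ordinal.{0})) _ hne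
  obtain ⟨x1, hx1, hclx⟩ := hcl x hx.1
  have hx1' : x1 ∈ Lx S M u z0 := ⟨hx1.1, hge _ _ _ hx1.2 hx.2⟩
  obtain ⟨E', hE', hadj⟩ := hL (E x1) (hE x1 hx1').1
  have hadj1 : Adj M x1 E' := by
    rcases hM.ntr (E x1) x1 E' hadj with h4 | h4
    · exact absurd h4 (hE x1 hx1').2
    · exact h4
  have hE'x : E' ∈ Lx S M u x := by
    refine ⟨hE', ?_⟩
    intro h3
    exact hx1.2 (hM.tr _ _ _ hadj1 h3)
  have hrk : Rk S M u m (ρ x1) x E' := by
    rw [b2ex_iff]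
    intro o' ho'
    exact ⟨x1, hx1, hadj1, hclx, b2ex_mono S M hM u m _ _ hadj o' x1 (hρ2 x1 o' ho')⟩
  have hrk2 : Rk S M u m (ρ x1) x (E x) := hE2 x hx (ρ x1) ⟨E', hE'x, hrk⟩
  have hlt : ρ x1 < ρ x := by
    by_contra hc
    exact hρ x hx (b2ex_anti S M u m (not_lt.1 hc) x _ hrk2)
  exact hmin _ ⟨x1, hx1', rfl⟩ hlt

end Pool.Agent.H533R2.VO
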