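import Pool.Agent.H533R2.VO.Spec

set_option autoImplicit false

namespace Pool.Agent.H533R2.VO

open Set
open Pool.Agent.H899R2.VP (St Adj PIso BF IsoOn idOn inv comp zipSet zipSet_cons)

theorem t_BASE (h1 : S_LAB) (h2 : S_GENF) : S_BASE := by
  intro a α K hK hblk
  obtain ⟨c, hc⟩ := h1 a α K hK α hK.lt
  obtain ⟨b, hb⟩ := hblk
  classical
  -- the choice of the functions
  have hg : ∀ κ : ℕ, ∃ g : ℕ → St a × Set ℕ,
      (∃ M ∈ K, ∃ x y, Adj M x y ∧ c M [x, y] = κ ∧ Small α M (Ic M x y)) →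
      ∃ M ∈ K, ∃ x y, Adj M x y ∧ c M [x, y] = κ ∧
        ∀ (N : St a) (Y : Set ℕ), OS N → BF M N (Ic M x y) Y α ∅ →
          ∀ x ∈ Y, ∀ y ∈ Y, ¬ Adj N y x → ∃ n, IsoOn (g n).1 N (g n).2 (Y ∩ Ic N x y) ∅ := by
    intro κ
    by_cases h : ∃ M ∈ K, ∃ x y, Adj M x y ∧ c M [x, y] = κ ∧ Small α M (Ic M x y)
    · obtain ⟨M, hM, x, y, hxy, hκ, g, hg⟩ := h
      exact ⟨g, fun _ => ⟨M, hM, x, y, hxy, hκ, hg⟩⟩
    · exact ⟨b, fun h' => absurd h' h⟩
  choose g hg using hg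
  obtain ⟨S, hS, hSf⟩ := h2 a (fun n => if n.unpair.1 = 0 then b n.unpair.2
    else g (n.unpair.1 - 1) n.unpair.2)
  have hSb : ∀ n, b n ∈ S := by
    intro n
    have := hSf (Nat.pair 0 n)
    simpa using this
  have hSg : ∀ κ n, g κ n ∈ S := by
    intro κ n
    have := hSf (Nat.pair (κ + 1) n)
    simpa using this
  refine ⟨S, hS, ?_, ?_⟩
  · intro M hM x
    obtain ⟨n, hn⟩ := hb M hM x
    exact hS.iso _ _ _ _ (hSb n) hn
  · intro M hM x y hxy hnot hsm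
    obtain ⟨M0, hM0, x0, y0, hxy0, hκ, hM0g⟩ := hg (c M [x, y]) ⟨M, hM, x, y, hxy, rfl, hsm⟩
    have hbf := hc M0 hM0 M hM [x0, y0] [x, y] rfl hκ
    have e1 : (x0, x) ∈ zipSet [x0, y0] [x, y] := by
      rw [zipSet_cons]; exact mem_insert _ _
    have e2 : (y0, y) ∈ zipSet [x0, y0] [x, y] := by
      rw [zipSet_cons, zipSet_cons]; exact mem_insert_of_mem _ (mem_insert _ _)
    have hb2 := resIc e1 e2 hbf
    rw [univ_inter, univ_inter] at hb2
    have hb3 := hb2.subset (empty_subset _)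
    have hos := hK.os M hM
    have hle : ¬ Adj M y x := hos.asymm hxy
    obtain ⟨n, hn⟩ := hM0g M (Ic M x y) hos hb3 x (left_mem_Ic hos hle) y (right_mem_Ic hos hle)
      hle
    rw [inter_self] at hn
    exact hnot (hS.iso _ _ _ _ (hSg _ n) hn)

end Pool.Agent.H533R2.VO
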