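import Pool.Agent.H533R2.VO.Spec
import Pool.Agent.H899R2.VP.Bnd

set_option autoImplicit false

/-! H533 VO, task BL: a perfect splitting tree from unbounded ranks (helper624). -/

namespace Pool.Agent.H533R2.VO
open Set MeasureTheory
open Pool.Agent.H899R2.VP

theorem bl_polish_of {X : Type*} [TopologicalSpace X] [h1 : SecondCountableTopology X]
    [h2 : TopologicalSpace.IsCompletelyMetrizableSpace X] : PolishSpace X := { h1, h2 with }

theorem bl_Rr_iff (R : ℕ → ℕ → Prop) (o : Ordinal.{0}) (x y : ℕ) :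
    Rr R o x y ↔ R x y ∧ ∀ o' : Ordinal.{0}, o' < o → ∃ z, Rr R o' x z ∧ Rr R o' z y := by
  rw [Rr]

theorem bl_Rr_rel {R : ℕ → ℕ → Prop} {o : Ordinal.{0}} {x y : ℕ} (h : Rr R o x y) : R x y := by
  rw [bl_Rr_iff] at h; exact h.1

theorem bl_Rr_mono {R : ℕ → ℕ → Prop} {o o' : Ordinal.{0}} {x y : ℕ} (hle : o' ≤ o)
    (h : Rr R o x y) : Rr R o' x y := by
  rw [bl_Rr_iff] at h ⊢
  exact ⟨h.1, fun b hb => h.2 b (lt_of_lt_of_le hb hle)⟩

theorem bl_Rr_congr {R R' : ℕ → ℕ → Prop} (hR : ∀ x y, R x y ↔ R' x y) {o : Ordinal.{0}}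
    {x y : ℕ} (h : Rr R o x y) : Rr R' o x y := by
  have : R = R' := by
    funext x y
    exact propext (hR x y)
  rw [← this]; exact h

/-- invariant of the construction -/
def blInv (g : (ℕ → ℕ) → (ℕ → ℕ → Bool)) (m : ℕ) (s p : ℕ → ℕ) (T : Set (ℕ × ℕ)) : Prop :=
  ∀ β : Ordinal.{0}, β < Ordinal.omega 1 → ∃ z : ℕ → ℕ, (∀ i < m, z i = s i) ∧
    (∀ i < 2 ^ m, Rr (fun x y => g z x y = true) β (p i) (p (i + 1))) ∧
    ∀ u ∈ T, g z u.1 u.2 = true

theorem blInv_step {g : (ℕ → ℕ) → (ℕ → ℕ → Bool)} {m : ℕ} {s p : ℕ → ℕ} {T : Set (ℕ × ℕ)}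
    (h : blInv g m s p T) : ∃ (k : ℕ) (p' : ℕ → ℕ), (∀ i, p' (2 * i) = p i) ∧
      blInv g (m + 1) (Function.update s m k) p' (T ∪ {u | ∃ i < 2 ^ m, u = (p i, p (i + 1))}) := by
  classical
  obtain ⟨⟨k, q⟩, hk⟩ := pigeon (κ := ℕ × (Fin (2 ^ m) → ℕ))
    (fun β κ => ∃ z : ℕ → ℕ, (∀ i < m, z i = s i) ∧ z m = κ.1 ∧
      (∀ i : Fin (2 ^ m), Rr (fun x y => g z x y = true) β (p i) (κ.2 i) ∧
        Rr (fun x y => g z x y = true) β (κ.2 i) (p (i + 1))) ∧
      ∀ u ∈ T ∪ {u | ∃ i < 2 ^ m, u = (p i, p (i + 1))}, g z u.1 u.2 = true)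
    (by
      rintro β γ κ hγ ⟨z, h1, h2, h3, h4⟩
      exact ⟨z, h1, h2, fun i => ⟨bl_Rr_mono hγ (h3 i).1, bl_Rr_mono hγ (h3 i).2⟩, h4⟩)
    (by
      intro β hβ
      have hs : β + 1 < Ordinal.omega 1 := (Cardinal.isSuccLimit_omega 1).add_one_lt hβ
      obtain ⟨z, hz1, hz2, hz3⟩ := h _ hs
      have hw : ∀ i : Fin (2 ^ m), ∃ w, Rr (fun x y => g z x y = true) β (p i) w ∧
          Rr (fun x y => g z x y = true) β w (p (i + 1)) := by
        intro i
        have h1 := hz2 i i.2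
        rw [bl_Rr_iff] at h1
        exact h1.2 β (lt_add_one _)
      choose w hw1 using hw
      refine ⟨(z m, w), z, hz1, rfl, hw1, ?_⟩
      rintro u (hu | ⟨i, hi, rfl⟩)
      · exact hz3 u hu
      · exact bl_Rr_rel (hz2 i hi))
  refine ⟨k, fun n => if n % 2 = 0 then p (n / 2) else
    if h : n / 2 < 2 ^ m then q ⟨n / 2, h⟩ else 0, ?_, ?_⟩
  · intro i
    have h1 : 2 * i % 2 = 0 := by omega
    have h2 : 2 * i / 2 = i := by omega
    simp only [h1, h2, if_true]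
  · intro β hβ
    obtain ⟨z, h1, h2, h3, h4⟩ := hk β hβ
    refine ⟨z, fun i hi => ?_, ?_, h4⟩
    · rcases Nat.lt_succ_iff_lt_or_eq.1 hi with hi | rfl
      · rw [Function.update_of_ne hi.ne]; exact h1 i hi
      · rw [Function.update_self]; exact h2
    · intro n hn
      have hn2 : n / 2 < 2 ^ m := by
        rw [pow_succ] at hn; omega
      rcases Nat.mod_two_eq_zero_or_one n with hp | hp
      · have e1 : (n + 1) % 2 ≠ 0 := by omega
        have e2 : (n + 1) / 2 = n / 2 := by omega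
        simp only [hp, if_true]
        rw [if_neg e1]
        simp only [e2]
        rw [dif_pos hn2]
        exact (h3 ⟨n / 2, hn2⟩).1
      · have e0 : n % 2 ≠ 0 := by omega
        have e1 : (n + 1) % 2 = 0 := by omega
        have e2 : (n + 1) / 2 = n / 2 + 1 := by omega
        beta_reduce
        rw [if_neg e0, if_pos e1, dif_pos hn2, e2]
        exact (h3 ⟨n / 2, hn2⟩).2

theorem bl_tree (g : (ℕ → ℕ) → (ℕ → ℕ → Bool)) (hg : Continuous g)
    (h : ∀ ξ : Ordinal.{0}, ξ < Ordinal.omega 1 → ∃ z, ∃ x y,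
      Rr (fun x y => g z x y = true) ξ x y) :
    ∃ z, ∃ P : ℕ → ℕ → ℕ, (∀ m i, P (m + 1) (2 * i) = P m i) ∧
      ∀ m i, i < 2 ^ m → g z (P m i) (P m (i + 1)) = true := by
  classical
  obtain ⟨⟨x0, y0⟩, hxy⟩ := pigeon (κ := ℕ × ℕ)
    (fun β κ => ∃ z : ℕ → ℕ, Rr (fun x y => g z x y = true) β κ.1 κ.2)
    (by
      rintro β γ κ hγ ⟨z, h1⟩
      exact ⟨z, bl_Rr_mono hγ h1⟩)
    (by
      intro β hβ
      obtain ⟨z, x, y, hz⟩ := h β hβ
      exact ⟨(x, y), z, hz⟩)
  have h0 : blInv g 0 (fun _ => 0) (fun n => if n = 0 then x0 else y0) ∅ := by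
    intro β hβ
    obtain ⟨z, hz⟩ := hxy β hβ
    refine ⟨z, fun i hi => absurd hi (Nat.not_lt_zero i), ?_, fun u hu => absurd hu (by simp)⟩
    intro i hi
    have hi0 : i = 0 := by simpa using hi
    subst hi0
    simpa using hz
  -- the sequence of states
  obtain ⟨S, hS⟩ : ∃ S : ℕ → (ℕ → ℕ) × (ℕ → ℕ) × Set (ℕ × ℕ),
      ∀ n, blInv g n (S n).1 (S n).2.1 (S n).2.2 ∧ ∃ (k : ℕ) (p' : ℕ → ℕ),
        (∀ i, p' (2 * i) = (S n).2.1 i) ∧ S (n + 1) =
        (Function.update (S n).1 n k, p', (S n).2.2 ∪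
          {u | ∃ i < 2 ^ n, u = ((S n).2.1 i, (S n).2.1 (i + 1))}) := by
    have hst : ∀ n (σ : {σ : (ℕ → ℕ) × (ℕ → ℕ) × Set (ℕ × ℕ) // blInv g n σ.1 σ.2.1 σ.2.2}),
        ∃ τ : {σ : (ℕ → ℕ) × (ℕ → ℕ) × Set (ℕ × ℕ) // blInv g (n + 1) σ.1 σ.2.1 σ.2.2},
          ∃ (k : ℕ) (p' : ℕ → ℕ), (∀ i, p' (2 * i) = σ.1.2.1 i) ∧ τ.1 =
            (Function.update σ.1.1 n k, p', σ.1.2.2 ∪
              {u | ∃ i < 2 ^ n, u = (σ.1.2.1 i, σ.1.2.1 (i + 1))}) := by
      rintro n ⟨σ, hσ⟩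
      obtain ⟨k, p', hh1, hh2⟩ := blInv_step hσ
      exact ⟨⟨_, hh2⟩, k, p', hh1, rfl⟩
    choose F hF using hst
    let G : ∀ n, {σ : (ℕ → ℕ) × (ℕ → ℕ) × Set (ℕ × ℕ) // blInv g n σ.1 σ.2.1 σ.2.2} :=
      fun n => Nat.rec ⟨(fun _ => 0, fun n => if n = 0 then x0 else y0, ∅), h0⟩
        (fun n σ => F n σ) n
    exact ⟨fun n => (G n).1, fun n => ⟨(G n).2, hF n (G n)⟩⟩
  choose hinv k p' hp' hstep using hS
  set z : ℕ → ℕ := fun i => (S (i + 1)).1 i with hz
  have hmono : ∀ n, (S n).2.2 ⊆ (S (n + 1)).2.2 := by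
    intro n
    rw [hstep n]
    exact subset_union_left
  have hmono' : Monotone fun n => (S n).2.2 := monotone_nat_of_le_succ hmono
  have hpre : ∀ n, ∀ i < n, (S n).1 i = z i := by
    intro n
    induction n with
    | zero => intro i hi; exact absurd hi (Nat.not_lt_zero i)
    | succ n ih =>
      intro i hi
      rcases Nat.lt_succ_iff_lt_or_eq.1 hi with hi | rfl
      · rw [hstep n]
        simp only [Function.update_of_ne hi.ne]
        exact ih i hi
      · rfl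
  have hp : ∀ n, ∀ u ∈ (S n).2.2, g z u.1 u.2 = true := by
    intro n u hu
    have hzm : ∀ m, ∃ w : ℕ → ℕ, (∀ i < m, w i = z i) ∧
        (n ≤ m → g w u.1 u.2 = true) := by
      intro m
      obtain ⟨w, hw1, -, hw2⟩ := hinv m 0 (Ordinal.omega_pos 1)
      exact ⟨w, fun i hi => (hw1 i hi).trans (hpre m i hi),
        fun hnm => hw2 u (hmono' hnm hu)⟩
    choose w hw1 hw2 using hzm
    have hlim : Filter.Tendsto w Filter.atTop (nhds z) := by
      rw [tendsto_pi_nhds]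
      intro i
      apply tendsto_const_nhds.congr'
      filter_upwards [Filter.eventually_gt_atTop i] with m hm
      exact (hw1 m i hm).symm
    have hc : Continuous fun z => g z u.1 u.2 :=
      (continuous_apply u.2).comp ((continuous_apply u.1).comp hg)
    have hlim2 := (hc.tendsto z).comp hlim
    exact (isClosed_singleton (x := true)).mem_of_tendsto hlim2
      (by filter_upwards [Filter.eventually_ge_atTop n] with m hm using hw2 m hm)
  refine ⟨z, fun n => (S n).2.1, fun m i => ?_, fun m i hi => ?_⟩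
  · have : (S (m + 1)).2.1 = p' m := by rw [hstep m]
    change (S (m + 1)).2.1 (2 * i) = (S m).2.1 i
    rw [this, hp']
  · have hmem : ((S m).2.1 i, (S m).2.1 (i + 1)) ∈ (S (m + 1)).2.2 := by
      rw [hstep m]
      exact Or.inr ⟨i, hi, rfl⟩
    exact hp (m + 1) _ hmem

theorem t_BL : S_BL := by
  intro a K R hK hR h
  classical
  have b1 : BorelSpace ((i : ℕ) → (Fin (a i) → ℕ) → Bool) := inferInstance
  have b2 : BorelSpace (ℕ → ℕ → Bool) := inferInstance
  have s1 : SecondCountableTopology (St a) := inferInstance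
  have b3 : BorelSpace (St a) := inferInstance
  have b4 : BorelSpace (St a × (ℕ → ℕ → Bool)) := inferInstance
  have b5 : PolishSpace (St a × (ℕ → ℕ → Bool)) := bl_polish_of
  set W : Set (St a × (ℕ → ℕ → Bool)) :=
    {Q | Q.1 ∈ K ∧ ∀ x y, Q.2 x y = true ↔ Q.1 ∈ K ∧ R Q.1 x y} with hW
  have hWm : MeasurableSet W := by
    have h1 : MeasurableSet {Q : St a × (ℕ → ℕ → Bool) | Q.1 ∈ K} := measurable_fst hK
    have h2 : MeasurableSet {Q : St a × (ℕ → ℕ → Bool) |
        ∀ x y, Q.2 x y = true ↔ Q.1 ∈ K ∧ R Q.1 x y} := by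
      apply measurableSet_setOfPred.2
      refine Measurable.forall fun x => Measurable.forall fun y => ?_
      refine Measurable.iff ?_ ?_
      · apply measurableSet_setOfPred.1
        have h3 : Measurable (fun Q : St a × (ℕ → ℕ → Bool) => Q.2 x y) :=
          (measurable_pi_apply y).comp ((measurable_pi_apply x).comp measurable_snd)
        exact h3 (measurableSet_singleton true)
      · apply measurableSet_setOfPred.1
        exact measurable_fst (hR x y)
    exact h1.inter h2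
  have hmemW : ∀ M ∈ K, (M, fun x y => decide (R M x y)) ∈ W := by
    intro M hM
    refine ⟨hM, fun x y => ?_⟩
    simp [hM]
  have han : AnalyticSet W := hWm.analyticSet
  rw [AnalyticSet] at han
  rcases han with he | ⟨f, hf, hr⟩
  · obtain ⟨M, hM, -⟩ := h 0 (Ordinal.omega_pos 1)
    have := hmemW M hM
    rw [he] at this
    exact absurd this (Set.notMem_empty _)
  · have hfW : ∀ z, f z ∈ W := fun z => by rw [← hr]; exact mem_range_self z
    have hiff : ∀ z x y, ((f z).2 x y = true ↔ R (f z).1 x y) := by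
      intro z x y
      have h1 := (hfW z).2 x y
      rw [h1]
      exact ⟨fun h => h.2, fun h => ⟨(hfW z).1, h⟩⟩
    obtain ⟨z, P, hP1, hP2⟩ := bl_tree (fun z => (f z).2) (continuous_snd.comp hf) (by
      intro ξ hξ
      obtain ⟨M, hM, x, y, hxy⟩ := h ξ hξ
      have h1 := hmemW M hM
      rw [← hr] at h1
      obtain ⟨z, hz⟩ := h1
      refine ⟨z, x, y, ?_⟩
      refine bl_Rr_congr (R := R M) ?_ hxy
      intro x y
      rw [hz]
      simp)
    exact ⟨(f z).1, (hfW z).1, P, hP1, fun m i hi => (hiff z _ _).1 (hP2 m i hi)⟩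

end Pool.Agent.H533R2.VO
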