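import Pool.Agent.H533R2.VO.Spec

set_option autoImplicit false

namespace Pool.Agent.H533R2.VO

open Set
open Pool.Agent.H899R2.VP

variable {a : ℕ → ℕ}

/-- Index of the first set of an increasing family containing a point. -/
noncomputable def canpi (D : ℕ → Set ℕ) (z : ℕ) : ℕ := sInf {n | z ∈ D n}

theorem canpi_mem {D : ℕ → Set ℕ} {z : ℕ} (h : ∃ n, z ∈ D n) : z ∈ D (canpi D z) :=
  Nat.sInf_mem (s := {n | z ∈ D n}) h

theorem canpi_le {D : ℕ → Set ℕ} {z n : ℕ} (h : z ∈ D n) : canpi D z ≤ n :=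
  Nat.sInf_le (s := {n | z ∈ D n}) h

theorem canpi_iff {D : ℕ → Set ℕ} {z c : ℕ} (h : ∃ n, z ∈ D n) :
    canpi D z = c ↔ z ∈ D c ∧ ∀ m < c, z ∉ D m := by
  constructor
  · rintro rfl
    exact ⟨canpi_mem h, fun m hm hz => absurd (canpi_le hz) (not_le.2 hm)⟩
  · rintro ⟨h1, h2⟩
    refine le_antisymm (canpi_le h1) ?_
    by_contra h3
    exact h2 _ (not_le.1 h3) (canpi_mem h)

theorem canpi_adj {M : St a} (hM : OS M) {L : Set ℕ} {D : ℕ → Set ℕ}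
    (hi : ∀ n, ∀ z ∈ D n, ∀ w ∈ L, ¬ Adj M z w → w ∈ D n) (hc : ∀ z ∈ L, ∃ n, z ∈ D n) :
    ∀ z ∈ L, ∀ w ∈ L, canpi D z ≠ canpi D w → (Adj M z w ↔ canpi D z < canpi D w) := by
  intro z hz w hw hne
  constructor
  · intro h
    refine lt_of_le_of_ne ?_ hne
    exact canpi_le (hi _ _ (canpi_mem (hc w hw)) z hz (hM.asymm h))
  · intro h
    by_contra h1
    exact absurd (canpi_le (hi _ _ (canpi_mem (hc z hz)) w hw h1)) (not_le.2 h)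

theorem canpi_tup {M : St a} (hM : OS M) {L : Set ℕ} {D : ℕ → Set ℕ}
    (hi : ∀ n, ∀ z ∈ D n, ∀ w ∈ L, ¬ Adj M z w → w ∈ D n) (hc : ∀ z ∈ L, ∃ n, z ∈ D n) :
    ∀ i t, M.2 i t = true → (∀ k, t k ∈ L) → ∀ j k, canpi D (t j) = canpi D (t k) := by
  intro i t ht hL j k
  have h1 := hM.loc i t ht
  exact le_antisymm (canpi_le (hi _ _ (canpi_mem (hc _ (hL k))) _ (hL j) (h1 k j)))
    (canpi_le (hi _ _ (canpi_mem (hc _ (hL j))) _ (hL k) (h1 j k)))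

theorem t_CAN (h : S_MTX) : S_CAN := by
  classical
  intro a S l n k M M' u u' x x' hS hl hol hln hnk hM hM' hNL hx hbf ι A A' hA hA' he hcov hinv
  obtain ⟨hT1, hT2⟩ := h a S l n k M M' u u' x x' hS hl hol hln hnk hM hM' hNL hx hbf
  obtain ⟨i0, hi0⟩ := hcov x hx
  have : Nonempty ι := ⟨i0⟩
  choose! kap hkap using hcov
  let D : ℕ → Set ℕ := fun n => {z | ∃ m ≤ n, m ∈ Lw S M u ∧ z ∈ A (kap m)}
  let D' : ℕ → Set ℕ := fun n => {z | ∃ m ≤ n, m ∈ Lw S M u ∧ z ∈ A' (kap m)}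
  have hDL : ∀ n, D n ⊆ Lw S M u := by
    rintro n z ⟨m, hm, hmL, hz⟩
    exact (hA _ _ hz).1
  have hDL' : ∀ n, D' n ⊆ Lw S M' u' := by
    rintro n z ⟨m, hm, hmL, hz⟩
    exact (hA' _ _ hz).1
  have hDi : ∀ n, ∀ z ∈ D n, ∀ w ∈ Lw S M u, ¬ Adj M z w → w ∈ D n := by
    rintro n z ⟨m, hm, hmL, hz⟩ w hw hzw
    exact ⟨m, hm, hmL, (hA _ _ hz).2 w hw hzw⟩
  have hDi' : ∀ n, ∀ z ∈ D' n, ∀ w ∈ Lw S M' u', ¬ Adj M' z w → w ∈ D' n := by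
    rintro n z ⟨m, hm, hmL, hz⟩ w hw hzw
    exact ⟨m, hm, hmL, (hA' _ _ hz).2 w hw hzw⟩
  have hDe : ∀ n, ∃ e ∈ Lw S M u, e ∉ D n := by
    intro n
    induction n with
    | zero =>
      obtain ⟨e, he1, he2⟩ := he (kap 0)
      refine ⟨e, he1, ?_⟩
      rintro ⟨m, hm, hmL, hz⟩
      have hm0 : m = 0 := by omega
      subst hm0
      exact he2 hz
    | succ n ih =>
      obtain ⟨e, he1, he2⟩ := ih
      obtain ⟨e', he1', he2'⟩ := he (kap (n + 1))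
      by_cases hee : Adj M e' e
      · refine ⟨e, he1, ?_⟩
        rintro ⟨m, hm, hmL, hz⟩
        rcases Nat.lt_or_ge m (n + 1) with h1 | h1
        · exact he2 ⟨m, by omega, hmL, hz⟩
        · have hm0 : m = n + 1 := by omega
          subst hm0
          exact he2' ((hA _ _ hz).2 e' he1' (hM.asymm hee))
      · refine ⟨e', he1', ?_⟩
        rintro ⟨m, hm, hmL, hz⟩
        rcases Nat.lt_or_ge m (n + 1) with h1 | h1
        · exact he2 (hDi n e' ⟨m, by omega, hmL, hz⟩ e he1 hee)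
        · have hm0 : m = n + 1 := by omega
          subst hm0
          exact he2' hz
  have hphi : ∀ n, ∃ φ : Set (ℕ × ℕ), PIso M M' φ ∧ φ ⊆ Lw S M u ×ˢ Lw S M' u' ∧
      (∀ w ∈ φ, ∀ m, (w.1 ∈ D m ↔ w.2 ∈ D' m)) ∧ (∀ z ∈ D n, ∃ z', (z, z') ∈ φ) ∧
      (∀ z' ∈ D' n, ∃ z, (z, z') ∈ φ) := by
    intro n
    obtain ⟨e, he1, he2⟩ := hDe n
    obtain ⟨y, y', φ, hm, hxp, hxy, hey⟩ := hT1 e he1
    have hiff : ∀ w ∈ φ, ∀ m, (w.1 ∈ D m ↔ w.2 ∈ D' m) := by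
      intro w hw m
      constructor
      · rintro ⟨m', h1, h2, h3⟩
        exact ⟨m', h1, h2, (hinv y y' φ hm hxp hxy _ w hw).1 h3⟩
      · rintro ⟨m', h1, h2, h3⟩
        exact ⟨m', h1, h2, (hinv y y' φ hm hxp hxy _ w hw).2 h3⟩
    have hyD : y ∉ D n := fun hy => he2 (hDi n y hy e he1 (hM.asymm hey))
    have hyD' : y' ∉ D' n := fun hy => hyD ((hiff _ hm.top n).2 hy)
    refine ⟨φ, hm.piso, ?_, hiff, ?_, ?_⟩
    · intro w hw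
      have h1 := hm.subset hw
      exact ⟨Lw_Ic hS hM hm.memL h1.1, Lw_Ic hS hM' hm.memR h1.2⟩
    · intro z hz
      exact hm.total z ⟨(hDL n hz).1, fun h1 => hyD (hDi n z hz y hm.memL (hM.asymm h1))⟩
    · intro z hz
      exact hm.surj z ⟨(hDL' n hz).1, fun h1 => hyD' (hDi' n z hz y' hm.memR (hM'.asymm h1))⟩
  have hDc : ∀ z ∈ Lw S M u, ∃ n, z ∈ D n := fun z hz => ⟨z, z, le_refl _, hz, hkap z hz⟩
  have hDc' : ∀ z ∈ Lw S M' u', ∃ n, z ∈ D' n := by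
    intro z' hz'
    obtain ⟨y, y', φ, hm, hxp, hxy, hzy⟩ := hT2 z' hz'
    obtain ⟨z, hz⟩ := hm.surj z' ⟨hz'.1, hM'.asymm hzy⟩
    have hzL : z ∈ Lw S M u := Lw_Ic hS hM hm.memL (hm.subset hz).1
    exact ⟨z, z, le_refl _, hzL, (hinv y y' φ hm hxp hxy _ _ hz).1 (hkap z hzL)⟩
  refine sumIso (canpi D) (canpi D') (fun i j : ℕ => i < j) (empty_subset _)
    (canpi_adj hM hDi hDc) (canpi_adj hM' hDi' hDc') (canpi_tup hM hDi hDc)
    (canpi_tup hM' hDi' hDc') (fun u hu => absurd hu (notMem_empty _)) ?_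
  intro c
  obtain ⟨φ, hp, hsub, hiff, ht, hs⟩ := hphi c
  have key : ∀ w ∈ φ, (canpi D w.1 = c ↔ canpi D' w.2 = c) := by
    intro w hw
    rw [canpi_iff (hDc _ (hsub hw).1), canpi_iff (hDc' _ (hsub hw).2), hiff w hw c]
    constructor
    · exact fun h1 => ⟨h1.1, fun m hm h2 => h1.2 m hm ((hiff w hw m).2 h2)⟩
    · exact fun h1 => ⟨h1.1, fun m hm h2 => h1.2 m hm ((hiff w hw m).1 h2)⟩
  refine ⟨{w | w ∈ φ ∧ canpi D w.1 = c}, ?_, ?_, ?_, ?_, ?_⟩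
  · rintro w ⟨hw, _⟩
    exact absurd hw (notMem_empty _)
  · rintro w ⟨hw, hc⟩
    exact ⟨⟨(hsub hw).1, hc⟩, ⟨(hsub hw).2, (key w hw).1 hc⟩⟩
  · exact hp.mono fun w hw => hw.1
  · rintro z ⟨hz, hc⟩
    obtain ⟨z', hz'⟩ := ht z ((canpi_iff (hDc z hz)).1 hc).1
    exact ⟨z', hz', hc⟩
  · rintro z' ⟨hz', hc⟩
    obtain ⟨z, hz⟩ := hs z' ((canpi_iff (hDc' z' hz')).1 hc).1
    exact ⟨z, hz, (key _ hz).2 hc⟩

end Pool.Agent.H533R2.VO
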