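import Pool.Agent.H533R2.VO.Spec

set_option autoImplicit false

namespace Pool.Agent.H533R2.VO

open Set
open Pool.Agent.H899R2.VP

/-- A strictly increasing cofinal sequence of closed sets with a fixed tail type. -/
theorem casea1_seq {a : ℕ → ℕ} {S : Set (St a × Set ℕ)} {m : Ordinal.{0}} {M : St a} {u : ℕ}
    {M0 : St a} {X0 : Set ℕ} (hM : OS M) (hu : u ∈ Lw S M u)
    (hC : ∀ z ∈ Lw S M u, ∃ C, Cls S M u m C ∧ z ∈ C ∧ BF M0 M X0 (Lw S M u \ C) m ∅) :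
    ∃ C : ℕ → Set ℕ, (∀ i, Cls S M u m (C i)) ∧ (∀ i, C i ⊆ C (i + 1)) ∧
      (∀ i, ∃ z ∈ C (i + 1), z ∉ C i) ∧ (∀ z ∈ Lw S M u, ∃ i, z ∈ C i) ∧
      (∀ i, BF M0 M X0 (Lw S M u \ C i) m ∅) := by
  classical
  have step : ∀ (T : {C : Set ℕ // Cls S M u m C ∧ BF M0 M X0 (Lw S M u \ C) m ∅}) (i : ℕ),
      ∃ T' : {C : Set ℕ // Cls S M u m C ∧ BF M0 M X0 (Lw S M u \ C) m ∅},
        T.1 ⊆ T'.1 ∧ (∃ z ∈ T'.1, z ∉ T.1) ∧ (i ∈ Lw S M u → i ∈ T'.1) := by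
    rintro ⟨C, hC1, hC2⟩ i
    obtain ⟨e, he, heC⟩ := hC1.bdd
    have hz : ∃ z ∈ Lw S M u, ¬ Adj M z e ∧ (i ∈ Lw S M u → ¬ Adj M z i) := by
      by_cases h : i ∈ Lw S M u ∧ Adj M e i
      · exact ⟨i, h.1, hM.asymm h.2, fun _ => hM.irr i⟩
      · exact ⟨e, he, hM.irr e, fun hi h' => h ⟨hi, h'⟩⟩
    obtain ⟨z, hzL, hze, hzi⟩ := hz
    obtain ⟨C', hC1', hzC', hC2'⟩ := hC z hzL
    have heC' : e ∈ C' := hC1'.init z hzC' e he hze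
    refine ⟨⟨C', hC1', hC2'⟩, ?_, ⟨e, heC', heC⟩, fun hi => hC1'.init z hzC' i hi (hzi hi)⟩
    intro x hx
    refine hC1'.init e heC' x (hC1.sub hx) fun h => ?_
    exact heC (hC1.init x hx e he (hM.asymm h))
  choose f hf1 hf2 hf3 using step
  obtain ⟨C0, hC01, _, hC02⟩ := hC u hu
  let C : ℕ → {C : Set ℕ // Cls S M u m C ∧ BF M0 M X0 (Lw S M u \ C) m ∅} :=
    fun i => Nat.rec ⟨C0, hC01, hC02⟩ (fun i T => f T i) i
  have hCs : ∀ i, C (i + 1) = f (C i) i := fun _ => rfl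
  refine ⟨fun i => (C i).1, fun i => (C i).2.1, fun i => ?_, fun i => ?_, fun z hz => ?_,
    fun i => (C i).2.2⟩
  · simp only [hCs]
    exact hf1 _ _
  · simp only [hCs]
    exact hf2 _ _
  · refine ⟨z + 1, ?_⟩
    simp only [hCs]
    exact hf3 _ _ hz

theorem t_CASEA1 (h1 : S_MTX) (h2 : S_EXT) (h3 : S_TRC) (h4 : S_A1) : S_CASEA1 := by
  intro a S l m n k M M' u u' M0 X0 hS hL hw hlm hmn hnk hM hM' hNL hu hC hBF
  have hln : l ≤ n := (hlm.trans hmn).le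
  have hBF2 : BF M M' (Lw S M u) (Lw S M' u') k {(u, u'), (u, u')} := by
    rw [pair_eq_singleton]
    exact hBF
  obtain ⟨hA, hB⟩ := h1 a S l n k M M' u u' u u' hS hL hw hln hnk hM hM' hNL hu hBF2
  have hu' : u' ∈ Lw S M' u' := by
    obtain ⟨y, y', φ, hMt, -⟩ := hA u hu
    exact Lw_base hS hM' hMt.memR
  have hC' : ∀ z' ∈ Lw S M' u', ∃ C', Cls S M' u' m C' ∧ z' ∈ C' ∧
      BF M0 M' X0 (Lw S M' u' \ C') m ∅ := by
    intro z' hz'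
    obtain ⟨y, y', φ, hMt, -, huy, hzy⟩ := hB z' hz'
    obtain ⟨C, hC1, hyC, hC2⟩ := hC y hMt.memL
    obtain ⟨y2, hy2, hy2C⟩ := hC1.bdd
    have hyy2 : ¬ Adj M y2 y := fun h => hy2C (hC1.init y hyC y2 hy2 (hM.asymm h))
    obtain ⟨y2', φ2, hMt2, hyφ2, -⟩ := h2 a S l m n M M' u u' y y' y2 φ hS hL hlm.le hmn hM hM'
      hMt huy hy2 hyy2
    obtain ⟨C', hC1', hφ, hBF'⟩ := h3 a S m m M M' u u' y2 y2' φ2 C hS hM hM' le_rfl hMt2 hC1 hy2C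
    have hy' : y' ∈ C' := (hφ _ hyφ2).1 hyC
    exact ⟨C', hC1', hC1'.init y' hy' z' hz' (hM'.asymm hzy), bf_comp0 hC2 hBF'⟩
  obtain ⟨C, c1, c2, c3, c4, c5⟩ := casea1_seq hM hu hC
  obtain ⟨C', d1, d2, d3, d4, d5⟩ := casea1_seq hM' hu' hC'
  exact h4 a S l m M M' u u' C C' hS hL hlm hM hM' c1 d1 c2 d2 c3 d3 c4 d4
    ((hBF.mono (hmn.trans hnk).le).subset (empty_subset _))
    (fun i => bf_comp0 (bf_symm0 (c5 i)) (d5 i))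

end Pool.Agent.H533R2.VO
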