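import Pool.Agent.H533R2.VO.Spec

set_option autoImplicit false

namespace Pool.Agent.H533R2.VO

open Set
open Pool.Agent.H899R2.VP

theorem casea2_dir (h2 : S_EXT) (h3 : S_TRC) (a : ℕ → ℕ) (S : Set (St a × Set ℕ))
    (l m n : Ordinal.{0}) (M M' : St a) (u u' : ℕ) (hS : Fam S) (hl : Lev S l) (hlm : l < m)
    (hmn : m < n) (hM : OS M) (hM' : OS M') (y y' : ℕ) (φ : Set (ℕ × ℕ))
    (hφ : Mt S M M' u u' n y y' φ) (huy : Adj M u y) (M0 : St a) (X0 : Set ℕ)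
    (w : ℕ × ℕ) (hw : w ∈ φ)
    (hA : ∃ C, Cls S M u m C ∧ w.1 ∈ C ∧ BF M0 M X0 (Lw S M u \ C) m ∅) :
    ∃ C, Cls S M' u' m C ∧ w.2 ∈ C ∧ BF M0 M' X0 (Lw S M' u' \ C) m ∅ := by
  obtain ⟨C, hC, hwC, hb⟩ := hA
  by_cases hyC : y ∈ C
  · obtain ⟨e, he, heC⟩ := hC.bdd
    have hye : Adj M y e := by
      by_contra h
      exact heC (hC.init y hyC e he h)
    obtain ⟨e', φ2, hφ2, hyφ2, -⟩ := h2 a S l m n M M' u u' y y' e φ hS hl hlm.le hmn hM hM' hφ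
      huy he (hM.asymm hye)
    obtain ⟨C', hC', hiff, hb'⟩ := h3 a S m m M M' u u' e e' φ2 C hS hM hM' le_rfl hφ2 hC heC
    have hy' : y' ∈ C' := (hiff (y, y') hyφ2).1 hyC
    have hw2 : w.2 ∈ Ic M' u' y' := (hφ.subset hw).2
    exact ⟨C', hC', hC'.init y' hy' w.2 (Lw_Ic hS hM' hφ.memR hw2) hw2.2, bf_comp0 hb hb'⟩
  · obtain ⟨C', hC', hiff, hb'⟩ := h3 a S m n M M' u u' y y' φ C hS hM hM' hmn.le hφ hC hyC
    exact ⟨C', hC', (hiff w hw).1 hwC, bf_comp0 hb hb'⟩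

theorem t_CASEA2 (h1 : S_CAN) (h2 : S_EXT) (h3 : S_TRC) : S_CASEA2 := by
  intro a S l m n k M M' u u' hS hl hω hlm hmn hnk hM hM' hno hu hcl hno0 hb
  refine h1 a S l n k M M' u u' u u' hS hl hω (hlm.trans hmn).le hnk hM hM' hno hu
    (by rw [pair_eq_singleton]; exact hb) (ULift.{1, 0} (St a × Set ℕ))
    (fun i => {z | ∃ C, Cls S M u m C ∧ z ∈ C ∧ BF i.down.1 M i.down.2 (Lw S M u \ C) m ∅})
    (fun i => {z | ∃ C, Cls S M' u' m C ∧ z ∈ C ∧ BF i.down.1 M' i.down.2 (Lw S M' u' \ C) m ∅})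
    ?_ ?_ ?_ ?_ ?_
  · rintro i z ⟨C, hC, hz, hb⟩
    exact ⟨hC.sub hz, fun w hw hzw => ⟨C, hC, hC.init z hz w hw hzw, hb⟩⟩
  · rintro i z ⟨C, hC, hz, hb⟩
    exact ⟨hC.sub hz, fun w hw hzw => ⟨C, hC, hC.init z hz w hw hzw, hb⟩⟩
  · intro i
    obtain ⟨z, hz, h⟩ := hno0 i.down.1 i.down.2
    refine ⟨z, hz, ?_⟩
    rintro ⟨C, hC, hzC, hb⟩
    exact h C hC hzC hb
  · intro z hz
    obtain ⟨C, hC, hzC⟩ := hcl z hz
    exact ⟨⟨(M, Lw S M u \ C)⟩, C, hC, hzC, bf_id (empty_subset _)⟩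
  · intro y y' φ hφ huφ huy i w hw
    constructor
    · exact casea2_dir h2 h3 a S l m n M M' u u' hS hl hlm hmn hM hM' y y' φ hφ huy i.down.1
        i.down.2 w hw
    · intro h
      have huy' : Adj M' u' y' := (hφ.piso.adj huφ hφ.top).1 huy
      exact casea2_dir h2 h3 a S l m n M' M u' u hS hl hlm hmn hM' hM y' y (inv φ) hφ.symm huy'
        i.down.1 i.down.2 (w.2, w.1) hw h

end Pool.Agent.H533R2.VO
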