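import Pool.Agent.H533R2.VO.Spec

set_option autoImplicit false

namespace Pool.Agent.H533R2.VO

open Set
open Pool.Agent.H899R2.VP

/-- The point `b` realises the given type. -/
def caseb1Occ {a : ℕ → ℕ} (S : Set (St a × Set ℕ)) (M : St a) (u x : ℕ) (η : Ordinal.{0})
    (M0 : St a) (X0 : Set ℕ) (x0 b0 b : ℕ) : Prop :=
  BF M0 M X0 (Lx S M u x) η {(x0, x), (b0, b)}

/-- The cut given by the first realisation of a type. -/
def caseb1A {a : ℕ → ℕ} (S : Set (St a × Set ℕ)) (M : St a) (u x : ℕ) (η : Ordinal.{0})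
    (M0 : St a) (X0 : Set ℕ) (x0 b0 : ℕ) : Set ℕ :=
  {z | z ∈ Lw S M u ∧ (∃ b ∈ Lx S M u x, caseb1Occ S M u x η M0 X0 x0 b0 b) ∧
    ∀ b ∈ Lx S M u x, caseb1Occ S M u x η M0 X0 x0 b0 b → Adj M z b}

theorem caseb1_mem {a : ℕ → ℕ} {S : Set (St a × Set ℕ)} {M : St a} {u x : ℕ} {η : Ordinal.{0}}
    {M0 : St a} {X0 : Set ℕ} {x0 b0 z : ℕ} : z ∈ caseb1A S M u x η M0 X0 x0 b0 ↔
    z ∈ Lw S M u ∧ (∃ b ∈ Lx S M u x, caseb1Occ S M u x η M0 X0 x0 b0 b) ∧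
    ∀ b ∈ Lx S M u x, caseb1Occ S M u x η M0 X0 x0 b0 b → Adj M z b := Iff.rfl

theorem caseb1_init {a : ℕ → ℕ} {S : Set (St a × Set ℕ)} {M : St a} {u x : ℕ} {η : Ordinal.{0}}
    {M0 : St a} {X0 : Set ℕ} {x0 b0 : ℕ} (hM : OS M) :
    ∀ z ∈ caseb1A S M u x η M0 X0 x0 b0, z ∈ Lw S M u ∧ ∀ w ∈ Lw S M u, ¬ Adj M z w →
      w ∈ caseb1A S M u x η M0 X0 x0 b0 := by
  intro z hz
  rw [caseb1_mem] at hz
  refine ⟨hz.1, fun w hw hzw => ?_⟩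
  rw [caseb1_mem]
  exact ⟨hw, hz.2.1, fun b hb ho => hM.le_lt hzw (hz.2.2 b hb ho)⟩

theorem caseb1_dir (h2 : S_CORE) {a : ℕ → ℕ} {S : Set (St a × Set ℕ)} {M M' : St a}
    {u u' x x' y y' : ℕ} {m η : Ordinal.{0}} {φ : Set (ℕ × ℕ)}
    {M0 : St a} {X0 : Set ℕ} {x0 b0 z z' : ℕ} (hS : Fam S) (hM : OS M) (hM' : OS M')
    (hmt : Mt S M M' u u' m y y' φ) (hx : (x, x') ∈ φ) (hxy : Adj M x y) (hη : η < m)
    (hz : (z, z') ∈ φ) (hzA : z ∈ caseb1A S M u x η M0 X0 x0 b0) :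
    z' ∈ caseb1A S M' u' x' η M0 X0 x0 b0 := by
  have hcore := h2 a S m M M' u u' x x' y y' φ hS hM hM' hmt hx hxy
  set P : Set (ℕ × ℕ) := insert (y, y') {w | w ∈ φ ∧ ¬ Adj M w.1 x ∧ Adj M w.1 y} with hP
  have hxP : (x, x') ∈ P := Or.inr ⟨hx, hM.irr x, hxy⟩
  rw [caseb1_mem] at hzA ⊢
  obtain ⟨hz1, ⟨b, hb, hbo⟩, hz3⟩ := hzA
  have hzI : z' ∈ Ic M' u' y' := (hmt.subset hz).2
  refine ⟨Lw_Ic hS hM' hmt.memR hzI, ?_, ?_⟩
  · obtain ⟨b', hb', hbf⟩ := hcore.forth hη hb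
    refine ⟨b', hb', ?_⟩
    have hsub : ({(x, x'), (b, b')} : Set (ℕ × ℕ)) ⊆ insert (b, b') P := by
      rintro w (rfl | hw)
      · exact Or.inr hxP
      · exact Or.inl hw
    exact bf_comp2 hbo (hbf.subset hsub)
  · intro b' hb' hbo'
    by_contra hn
    obtain ⟨b, hb, hbf⟩ := hcore.back hη hb'
    have hsub : ({(x, x'), (b, b')} : Set (ℕ × ℕ)) ⊆ insert (b, b') P := by
      rintro w (rfl | hw)
      · exact Or.inr hxP
      · exact Or.inl hw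
    have hbo2 : caseb1Occ S M u x η M0 X0 x0 b0 b := bf_comp2 hbo' (bf_symm2 (hbf.subset hsub))
    have hzb := hz3 b hb hbo2
    have hpi := hbf.piso
    have hyP : (y, y') ∈ insert (b, b') P := Or.inr (Or.inl rfl)
    have hbP : (b, b') ∈ insert (b, b') P := Or.inl rfl
    have h1 : ¬ Adj M' y' b' := hM'.le_trans hn hzI.2
    have h3 : ¬ Adj M y b := fun h => h1 ((hpi.adj hyP hbP).1 h)
    have h4 : Adj M z y := hM.lt_le hzb h3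
    by_cases hzx : Adj M z x
    · have h5 : Adj M' z' x' := (hmt.piso.adj hz hx).1 hzx
      exact hn (hM'.lt_le h5 hb'.2)
    · have hzP : (z, z') ∈ insert (b, b') P := Or.inr (Or.inr ⟨hz, hzx, h4⟩)
      exact hn ((hpi.adj hzP hbP).1 hzb)

theorem t_CASEB1 (h1 : S_CAN) (h2 : S_CORE) : S_CASEB1 := by
  intro a S l m k M M' u u' x x' hS hl hol hlm hmk hM hM' hNL hx hCl hBF
  have key := h1 a S l m k M M' u u' x x' hS hl hol hlm.le hmk hM hM' hNL hx hBF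
    ({η : Ordinal.{0} // η < m} × St a × Set ℕ × ℕ × ℕ)
    (fun κ => caseb1A S M u x κ.1.1 κ.2.1 κ.2.2.1 κ.2.2.2.1 κ.2.2.2.2)
    (fun κ => caseb1A S M' u' x' κ.1.1 κ.2.1 κ.2.2.1 κ.2.2.2.1 κ.2.2.2.2)
    (fun κ => caseb1_init hM) (fun κ => caseb1_init hM')
  refine key ?_ ?_ ?_
  · rintro ⟨⟨η, hη⟩, M0, X0, x0, b0⟩
    by_cases hex : ∃ b ∈ Lx S M u x, caseb1Occ S M u x η M0 X0 x0 b0 b
    · obtain ⟨b, hb, hbo⟩ := hex
      refine ⟨b, hb.1, fun hbA => ?_⟩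
      have := (caseb1_mem.1 hbA).2.2 b hb hbo
      exact hM.irr b this
    · exact ⟨x, hx, fun hxA => hex (caseb1_mem.1 hxA).2.1⟩
  · intro z hz
    obtain ⟨e, he, hze, hxe⟩ : ∃ e ∈ Lw S M u, Adj M z e ∧ Adj M x e := by
      by_cases hzx : Adj M z x
      · obtain ⟨e, he, hxe⟩ := hNL x hx
        exact ⟨e, he, hM.lt_trans hzx hxe, hxe⟩
      · obtain ⟨e, he, hze⟩ := hNL z hz
        exact ⟨e, he, hze, hM.le_lt hzx hze⟩
    have heL : e ∈ Lx S M u x := ⟨he, hM.asymm hxe⟩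
    have hn := hCl e heL
    unfold Cl at hn
    push Not at hn
    obtain ⟨k', hk', b, hb, hbn⟩ := hn
    refine ⟨⟨⟨k', hk'⟩, M, Lx S M u x, x, b⟩, ?_⟩
    rw [caseb1_mem]
    refine ⟨hz, ⟨b, hb, ?_⟩, ?_⟩
    · apply bf_id
      rintro w (rfl | hw)
      · exact ⟨rfl, Lx_self hM hx⟩
      · rw [mem_singleton_iff] at hw
        subst hw
        exact ⟨rfl, hb⟩
    · intro b' hb' hbo
      have : ¬ Adj M b' e := fun h => hbn b' hb' h hbo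
      exact hM.lt_le hze this
  · rintro y y' φ hmt hxφ hxy ⟨⟨η, hη⟩, M0, X0, x0, b0⟩ ⟨z, z'⟩ hw
    constructor
    · intro hzA
      exact caseb1_dir h2 hS hM hM' hmt hxφ hxy hη hw hzA
    · intro hzA
      have hxy' : Adj M' x' y' := (hmt.piso.adj hxφ hmt.top).1 hxy
      exact caseb1_dir h2 hS hM' hM hmt.symm (mem_inv'.2 hxφ) hxy' hη (mem_inv'.2 hw) hzA

end Pool.Agent.H533R2.VO
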