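import Pool.Agent.H533R2.VO.Spec

set_option autoImplicit false

namespace Pool.Agent.H533R2.VO

open Set
open Pool.Agent.H899R2.VP

private theorem caseb2_mono {a : ℕ → ℕ} {S : Set (St a × Set ℕ)} {M : St a} {u : ℕ}
    {m : Ordinal.{0}} (hM : OS M) {e e2 : ℕ} (he : ¬ Adj M e2 e) (o : Ordinal.{0}) :
    ∀ x, Rk S M u m o x e → Rk S M u m o x e2 := by
  induction o using WellFoundedLT.induction with
  | ind o ih =>
    intro x h
    rw [Rk] at h ⊢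
    intro o' ho'
    obtain ⟨x1, h1, h2, h3, h4⟩ := h o' ho'
    exact ⟨x1, h1, hM.lt_le h2 he, h3, ih o' ho' x1 h4⟩

/-- The level set. -/
private def caseb2A {a : ℕ → ℕ} (S : Set (St a × Set ℕ)) (M : St a) (u : ℕ)
    (m : Ordinal.{0}) (x : ℕ) (o : Ordinal.{0}) : Set ℕ :=
  {e | e ∈ Lw S M u ∧ (∃ e1 ∈ Lx S M u x, Rk S M u m o x e1) ∧
    (Adj M e x ∨ ¬ Rk S M u m o x e)}

private theorem caseb2_init {a : ℕ → ℕ} {S : Set (St a × Set ℕ)} {M : St a} {u : ℕ}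
    {m : Ordinal.{0}} {x : ℕ} (hM : OS M) (o : Ordinal.{0}) :
    ∀ z ∈ caseb2A S M u m x o, z ∈ Lw S M u ∧
      ∀ w ∈ Lw S M u, ¬ Adj M z w → w ∈ caseb2A S M u m x o := by
  rintro z ⟨h1, h2, h3⟩
  refine ⟨h1, fun w hw hzw => ⟨hw, h2, ?_⟩⟩
  rcases h3 with h3 | h3
  · exact Or.inl (hM.le_lt hzw h3)
  · exact Or.inr fun h => h3 (caseb2_mono hM hzw o x h)

private theorem caseb2_loc (h2 : S_EXT) (h3 : S_LOCRK) {a : ℕ → ℕ} {S : Set (St a × Set ℕ)}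
    {l m n : Ordinal.{0}} {M M' : St a} {u u' x x' y y' e e' : ℕ} {φ : Set (ℕ × ℕ)}
    (hS : Fam S) (hl : Lev S l) (hlm : l < m) (hmn : m < n) (hM : OS M) (hM' : OS M')
    (hφ : Mt S M M' u u' n y y' φ) (hx : (x, x') ∈ φ) (hxy : Adj M x y) (he : (e, e') ∈ φ)
    (o : Ordinal.{0}) (hA : e ∈ caseb2A S M u m x o) : e' ∈ caseb2A S M' u' m x' o := by
  obtain ⟨heL, ⟨e1, he1, hr1⟩, hor⟩ := hA
  have hxI := (hφ.subset hx).1
  have hxu : ¬ Adj M x u := hxI.1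
  have hx' : x' ∈ Lw S M' u' := Lw_Ic hS hM' hφ.memR (hφ.subset hx).2
  have huy : Adj M u y := hM.le_lt hxu hxy
  have hxy' : Adj M' x' y' := (hφ.piso.adj hx hφ.top).1 hxy
  refine ⟨Lw_Ic hS hM' hφ.memR (hφ.subset he).2, ?_, ?_⟩
  · obtain ⟨e2, he2, he2y, he12⟩ : ∃ e2 ∈ Lw S M u, ¬ Adj M e2 y ∧ ¬ Adj M e2 e1 := by
      by_cases h : Adj M e1 y
      · exact ⟨y, hφ.memL, hM.irr y, hM.asymm h⟩
      · exact ⟨e1, he1.1, h, hM.irr e1⟩
    obtain ⟨y2', φ2, hφ2, hyy, hsub⟩ := h2 a S l m n M M' u u' y y' e2 φ hS hl hlm.le hmn hM hM'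
      hφ huy he2 he2y
    have hx2 : (x, x') ∈ φ2 := hsub _ hx hxy
    have hxe2 : Adj M x e2 := hM.lt_le hxy he2y
    obtain ⟨e1', he1'⟩ := hφ2.total e1 ⟨he1.1.1, he12⟩
    refine ⟨e1', ⟨Lw_Ic hS hM' hφ2.memR (hφ2.subset he1').2, ?_⟩, ?_⟩
    · intro h
      exact he1.2 ((hφ2.piso.adj he1' hx2).2 h)
    · exact h3 a S m m o M M' u u' x x' e1 e1' e2 y2' φ2 hS hM hM' le_rfl hφ2 hx2 he1' hxe2 hr1
  · rcases hor with hor | hor
    · exact Or.inl ((hφ.piso.adj he hx).1 hor)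
    · right
      intro h
      exact hor (h3 a S m n o M' M u' u x' x e' e y' y (inv φ) hS hM' hM hmn.le hφ.symm hx he
        hxy' h)

theorem t_CASEB2 (h1 : S_CAN) (h2 : S_EXT) (h3 : S_LOCRK) : S_CASEB2 := by
  intro a S l m n k M M' u u' x x' hS hl hom hlm hmn hnk hM hM' hL hx hrk hb
  refine h1 a S l n k M M' u u' x x' hS hl hom (hlm.le.trans hmn.le) hnk hM hM' hL hx hb
    Ordinal.{0} (fun o => caseb2A S M u m x o) (fun o => caseb2A S M' u' m x' o)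
    (fun o => caseb2_init hM o) (fun o => caseb2_init hM' o) ?_ ?_ ?_
  · intro o
    by_cases h : ∃ e1 ∈ Lx S M u x, Rk S M u m o x e1
    · obtain ⟨e1, he1, hr⟩ := h
      refine ⟨e1, he1.1, fun hA => ?_⟩
      rcases hA.2.2 with h | h
      · exact he1.2 h
      · exact h hr
    · exact ⟨x, hx, fun hA => h hA.2.1⟩
  · intro z hz
    by_cases h : Adj M z x
    · obtain ⟨o, ho1, ho2⟩ := hrk x (Lx_self hM hx)
      exact ⟨o, hz, ho1, Or.inl h⟩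
    · obtain ⟨o, ho1, ho2⟩ := hrk z ⟨hz, h⟩
      exact ⟨o, hz, ho1, Or.inr ho2⟩
  · rintro y y' φ hφ hxφ hxy o ⟨e, e'⟩ hw
    constructor
    · exact fun h => caseb2_loc h2 h3 hS hl hlm hmn hM hM' hφ hxφ hxy hw o h
    · intro h
      have hxy' : Adj M' x' y' := (hφ.piso.adj hxφ hφ.top).1 hxy
      exact caseb2_loc h2 h3 hS hl hlm hmn hM' hM hφ.symm (x := x') (x' := x) hxφ hxy'
        (e := e') (e' := e) hw o h

end Pool.Agent.H533R2.VO
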