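import Pool.Agent.H533R2.VO.Spec

set_option autoImplicit false

/-! Monotonicity of `Cl`. -/

namespace Pool.Agent.H533R2.VO

open Set
open Pool.Agent.H899R2.VP

theorem t_CLMON : S_CLMON := by
  intro a S m M u x w e hS hM hm hx hw he hxw hcl k hk b hb
  have hwe : Adj M w e := by
    obtain ⟨b', hb', h1, _⟩ := hcl 0 hm w (Lx_self hM hw)
    exact hM.le_lt hb'.2 h1
  by_cases hwb : Adj M w b
  · obtain ⟨b', hb', h1, h2⟩ := hcl k hk b ⟨hb.1, hM.asymm hwb⟩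
    have hb'x : b' ∈ Lx S M u x := Lx_anti hM hxw hb'
    have h3 := bf_upgrade (o := k) hM (L := Lx S M u x) hwb hb hb'x
      (by rw [Lx_inter_Ge hM hxw]; exact h2)
    refine ⟨b', hb'x, h1, h3.subset ?_⟩
    rintro v (rfl | rfl)
    · exact Or.inr ⟨rfl, Lx_self hM hx, hxw⟩
    · exact Or.inl rfl
  · refine ⟨b, hb, hM.le_lt hwb hwe, bf_id ?_⟩
    rintro v (rfl | rfl)
    · exact ⟨rfl, Lx_self hM hx⟩
    · exact ⟨rfl, hb⟩

end Pool.Agent.H533R2.VO
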