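import Pool.Agent.H533R2.VO.Spec

set_option autoImplicit false

namespace Pool.Agent.H533R2.VO

open Set
open Pool.Agent.H899R2.VP

private theorem cls_main {a : ℕ → ℕ} {S : Set (St a × Set ℕ)} {m : Ordinal.{0}} {M : St a} {u : ℕ}
    {C : Set ℕ} (hS : Fam S) (hM : OS M) (hC : Cls S M u m C) (r : Ordinal.{0}) :
    r ≤ m → ∀ x ∈ C, BF M M (Lx S M u x) (C ∩ Ge M x) r (idOn (Ic M x x)) := by
  induction r using WellFoundedLT.induction with
  | ind r ih =>
    intro hr x hx
    have hblkL : ∀ y ∈ C, ∀ z ∈ Ic M y y, z ∈ Lw S M u := fun y hy z hz =>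
      Lw_init hS hM (hC.sub hy) (hM.le_trans (hC.sub hy).1 hz.1) hz.2
    have hblk : ∀ y ∈ C, ∀ z ∈ Ic M y y, z ∈ C := fun y hy z hz =>
      hC.init y hy z (hblkL y hy z hz) hz.2
    -- claim 2
    have claim2 : ∀ o' : Ordinal.{0}, o' < r → ∀ b' ∈ C, ¬ Adj M b' x →
        BF M M (Lx S M u x) (C ∩ Ge M x) o' (insert (b', b') (idOn (Ic M x x))) := by
      intro o' ho' b' hb' hbx
      apply sum2BF hM hM (Lt M b') (Lt M b')
      · rintro ⟨z, z'⟩ hz
        rcases hz with h | h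
        · obtain ⟨rfl, rfl⟩ := Prod.mk.inj h
          exact ⟨⟨hC.sub hb', hbx⟩, hb', hbx⟩
        · obtain ⟨h1, h2⟩ := h
          simp only at h1 h2
          subst h1
          exact ⟨⟨hblkL x hx z h2, h2.1⟩, hblk x hx z h2, h2.1⟩
      · intro z _ hz y _ hy
        exact hM.lt_le hz hy
      · intro z _ hz y _ hy
        exact hM.lt_le hz hy
      · rintro ⟨z, z'⟩ hz
        rcases hz with h | h
        · obtain ⟨rfl, rfl⟩ := Prod.mk.inj h
          exact Iff.rfl
        · obtain ⟨h1, h2⟩ := h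
          simp only at h1 h2
          subst h1
          exact Iff.rfl
      · have e : C ∩ Ge M x ∩ Lt M b' = Lx S M u x ∩ Lt M b' := by
          ext z
          constructor
          · rintro ⟨⟨h1, h2⟩, h3⟩
            exact ⟨⟨hC.sub h1, h2⟩, h3⟩
          · rintro ⟨⟨h1, h2⟩, h3⟩
            exact ⟨⟨hC.init b' hb' z h1 (hM.asymm h3), h2⟩, h3⟩
        rw [e]
        apply bf_id
        rintro ⟨z, z'⟩ ⟨hz, hz'⟩
        rcases hz with h | h
        · obtain ⟨rfl, rfl⟩ := Prod.mk.inj h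
          exact absurd hz' (hM.irr _)
        · obtain ⟨h1, h2⟩ := h
          simp only at h1 h2 hz'
          subst h1
          exact ⟨rfl, ⟨hblkL x hx z h2, h2.1⟩, hz'⟩
      · have e1 : Lx S M u x \ Lt M b' = Lx S M u b' := by
          ext z
          constructor
          · rintro ⟨⟨h1, h2⟩, h3⟩
            exact ⟨h1, h3⟩
          · rintro ⟨h1, h2⟩
            exact ⟨⟨h1, hM.le_trans hbx h2⟩, h2⟩
        have e2 : (C ∩ Ge M x) \ Lt M b' = C ∩ Ge M b' := by
          ext z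
          constructor
          · rintro ⟨⟨h1, h2⟩, h3⟩
            exact ⟨h1, h3⟩
          · rintro ⟨h1, h2⟩
            exact ⟨⟨h1, hM.le_trans hbx h2⟩, h2⟩
        rw [e1, e2]
        apply (ih o' ho' (ho'.le.trans hr) b' hb').subset
        rintro ⟨z, z'⟩ ⟨hz, hz'⟩
        rcases hz with h | h
        · obtain ⟨rfl, rfl⟩ := Prod.mk.inj h
          exact ⟨rfl, hM.irr _, hM.irr _⟩
        · obtain ⟨h1, h2⟩ := h
          simp only at h1 h2 hz'
          subst h1
          exact ⟨rfl, hz', hM.le_trans h2.2 hbx⟩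
    rw [BF_iff]
    refine ⟨PIso.idOn M _, fun o' ho' => ⟨fun b hb => ?_, fun b' hb' => ?_⟩⟩
    · by_cases hxb : Adj M x b
      · obtain ⟨b', hb', hbx', hbf⟩ := hC.cl x hx o' (ho'.trans_le hr) b hb
        have hb'L : b' ∈ Lx S M u x := ⟨hC.sub hb', hbx'⟩
        have e1 : Lx S M u x ∩ Ge M x = Lx S M u x := Lx_inter_Ge hM (hM.irr x)
        have e2 : Lx S M u x ∩ Le M x = Ic M x x := by
          ext z
          constructor
          · rintro ⟨⟨h1, h2⟩, h3⟩
            exact ⟨h2, h3⟩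
          · rintro ⟨h1, h2⟩
            exact ⟨⟨hblkL x hx z ⟨h1, h2⟩, h1⟩, h2⟩
        have h3 := bf_upgrade hM (L := Lx S M u x) (w := x) (b := b) (b' := b') (o := o') hxb hb
          hb'L (by rw [e1]; exact hbf)
        rw [e2] at h3
        have h4 := h3.comp (claim2 o' ho' b' hb' hbx')
        refine ⟨b', ⟨hb', hbx'⟩, h4.subset ?_⟩
        have h5 := comp_insert_subset (p := idOn (Ic M x x)) (q := idOn (Ic M x x)) b b' b'
        rw [comp_idOn_left (fun w hw => hw.1 ▸ hw.2)] at h5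
        exact h5
      · have hbB : b ∈ Ic M x x := ⟨hb.2, hxb⟩
        refine ⟨b, ⟨hblk x hx b hbB, hb.2⟩, ?_⟩
        rw [Set.insert_eq_of_mem (idOn_self hbB)]
        exact ih o' ho' (ho'.le.trans hr) x hx
    · exact ⟨b', ⟨hC.sub hb'.1, hb'.2⟩, claim2 o' ho' b' hb'.1 hb'.2⟩

theorem t_CLS : S_CLS := by
  intro a S m M u C hS hM hC x hx
  apply (cls_main hS hM hC m le_rfl x hx).subset
  rintro w rfl
  exact ⟨rfl, hM.irr _, hM.irr _⟩

end Pool.Agent.H533R2.VO

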