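import Pool.Agent.H533R2.VO.Spec

set_option autoImplicit false

namespace Pool.Agent.H533R2.VO

open Set
open Pool.Agent.H899R2.VP

theorem t_CLT (h : S_CORE) : S_CLT := by
  intro a S m n M M' u u' x x' x1 x1' y y' φ hS hM hM' hmn hMt hx hx1 hxy hCl k hk b' hb'
  have hcore := h a S n M M' u u' x x' y y' φ hS hM hM' hMt hx hxy
  have hkn : k < n := lt_of_lt_of_le hk hmn
  obtain ⟨b, hb, hbb⟩ := hcore.back hkn hb'
  obtain ⟨b1, hb1, hb1x1, hbf⟩ := hCl k hk b hb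
  have hx1m : x1 ∈ Ic M u y := (hMt.subset hx1).1
  have hb1y : Adj M b1 y := hM.lt_le hb1x1 hx1m.2
  have hb1m : b1 ∈ Ic M u y := ⟨hb1.1.1, hM.asymm hb1y⟩
  obtain ⟨b1', hb1'⟩ := hMt.total b1 hb1m
  have hadj : Adj M' b1' x1' := (hMt.piso.adj hb1' hx1).1 hb1x1
  have hb1'm : b1' ∈ Ic M' u' y' := (hMt.subset hb1').2
  have hb1'L : b1' ∈ Lw S M' u' := Lw_Ic hS hM' hMt.memR hb1'm
  have hb1'x : ¬ Adj M' b1' x' := fun hc => hb1.2 ((hMt.piso.adj hb1' hx).2 hc)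
  refine ⟨b1', ⟨hb1'L, hb1'x⟩, hadj, ?_⟩
  have e1 : BF M M' (Lx S M u x) (Lx S M' u' x') k {(x, x'), (b, b')} := by
    refine hbb.subset ?_
    rintro w (rfl | rfl)
    · exact Or.inr (Or.inr ⟨hx, hM.irr x, hxy⟩)
    · exact Or.inl rfl
  have e2 : BF M M' (Lx S M u x) (Lx S M' u' x') k {(x, x'), (b1, b1')} := by
    refine (hcore.mono hkn.le).subset ?_
    rintro w (rfl | rfl)
    · exact Or.inr ⟨hx, hM.irr x, hxy⟩
    · exact Or.inr ⟨hb1', hb1.2, hb1y⟩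
  exact bf_comp2 (bf_comp2 (bf_symm2 e1) hbf) e2

end Pool.Agent.H533R2.VO
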