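import Pool.Agent.H533R2.VO.Spec

set_option autoImplicit false

namespace Pool.Agent.H533R2.VO

open Set
open Pool.Agent.H899R2.VP

theorem cnt_countable {β : Ordinal.{0}} (hβ : β < Ordinal.omega 1) : Countable (Set.Iio β) := by
  rw [Set.countable_coe_iff, ← Cardinal.le_aleph0_iff_set_countable, Cardinal.mk_Iio_ordinal,
    Cardinal.lift_le_aleph0]
  rw [← Cardinal.ord_aleph, Cardinal.lt_ord, ← Cardinal.succ_aleph0, Order.lt_succ_iff] at hβ
  exact hβ

theorem t_CNT (h1 : S_SIM) (h2 : S_GENU) : S_CNT := by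
  intro a α K S hG hS hblk ξ
  induction ξ using WellFoundedLT.induction with
  | ind ξ ih =>
    intro hξ
    have hc := cnt_countable hξ
    have ih' : ∀ i : Set.Iio ξ, ∃ S' : Set (St a × Set ℕ), Fam S' ∧ S ⊆ S' ∧
        ∀ M ∈ K, ∀ x y, Adj M x y → ¬ Rr (Bg S M) i.1 x y → (M, Ic M x y) ∈ S' :=
      fun i => ih i.1 i.2 (lt_trans i.2 hξ)
    choose T hTf hTS hT using ih'
    have hsim : ∀ i : Set.Iio ξ, ∃ S' : Set (St a × Set ℕ), Fam S' ∧ T i ⊆ S' ∧
        ∀ M ∈ K, ∀ x y, Adj M x y → (M, Ic M x y) ∉ S' →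
          ∃ z, Adj M x z ∧ Adj M z y ∧ (M, Ic M x z) ∉ T i ∧ (M, Ic M z y) ∉ T i :=
      fun i => h1 a α K (T i) hG (hTf i) (fun M hM x => hTS i (hblk M hM x))
    choose T' hT'f hT'T hT' using hsim
    obtain ⟨S', hS'f, hS'⟩ := h2 a (Option (Set.Iio ξ))
      (fun o => match o with
        | none => S
        | some i => T' i) (by
          intro o
          cases o with
          | none => exact hS
          | some i => exact hT'f i)
    refine ⟨S', hS'f, hS' none, ?_⟩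
    intro M hM x y hxy hr
    by_cases hmem : (M, Ic M x y) ∈ S
    · exact hS' none hmem
    · rw [Rr] at hr
      have h3 : ¬ ∀ o' : Ordinal.{0}, ∀ _h : o' < ξ, ∃ z, Rr (Bg S M) o' x z ∧
          Rr (Bg S M) o' z y := fun h => hr ⟨⟨hxy, hmem⟩, h⟩
      push Not at h3
      obtain ⟨o', ho', h4⟩ := h3
      apply hS' (some ⟨o', ho'⟩)
      show (M, Ic M x y) ∈ T' ⟨o', ho'⟩
      by_contra hcon
      obtain ⟨z, hxz, hzy, hz1, hz2⟩ := hT' ⟨o', ho'⟩ M hM x y hxy hcon
      have e1 : Rr (Bg S M) o' x z := by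
        by_contra h
        exact hz1 (hT ⟨o', ho'⟩ M hM x z hxz h)
      have e2 : Rr (Bg S M) o' z y := by
        by_contra h
        exact hz2 (hT ⟨o', ho'⟩ M hM z y hzy h)
      exact h4 z e1 e2

end Pool.Agent.H533R2.VO
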