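import Pool.Agent.H533R2.VO.Spec

set_option autoImplicit false

/-! A matching gives an equivalence above `x`. -/

namespace Pool.Agent.H533R2.VO

open Set
open Pool.Agent.H899R2.VP

theorem t_CORE : S_CORE := by
  intro a S n M M' u u' x x' y y' φ hS hM hM' h hx hxy
  have hxy' : Adj M' x' y' := (h.piso.adj hx h.top).1 hxy
  have hxI := h.subset hx
  have hxL : x ∈ Lw S M u := Lw_Ic hS hM h.memL hxI.1
  have hxL' : x' ∈ Lw S M' u' := Lw_Ic hS hM' h.memR hxI.2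
  refine sum2BF hM hM' (Lt M y) (Lt M' y') ?_ ?_ ?_ ?_ ?_ ?_
  · rintro w (rfl | ⟨h1, h2, h3⟩)
    · exact ⟨⟨h.memL, hM.asymm hxy⟩, ⟨h.memR, hM'.asymm hxy'⟩⟩
    · have hw := h.subset h1
      refine ⟨⟨Lw_Ic hS hM h.memL hw.1, h2⟩, ⟨Lw_Ic hS hM' h.memR hw.2, ?_⟩⟩
      exact fun h4 => h2 ((h.piso.adj h1 hx).2 h4)
  · intro b _ hb c _ hc
    exact hM.lt_le hb hc
  · intro b _ hb c _ hc
    exact hM'.lt_le hb hc
  · rintro w (rfl | ⟨h1, h2, h3⟩)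
    · exact ⟨fun h4 => absurd h4 (hM.irr y), fun h4 => absurd h4 (hM'.irr y')⟩
    · exact h.piso.adj h1 h.top
  · have hq : BF M M' (Lx S M u x ∩ Lt M y) (Lx S M' u' x' ∩ Lt M' y') n
        {w | w ∈ φ ∧ ¬ Adj M w.1 x ∧ Adj M w.1 y} := by
      refine BF_of_total ?_ (h.piso.mono fun w hw => hw.1) ?_ ?_
      · rintro w ⟨h1, h2, h3⟩
        have hw := h.subset h1
        refine ⟨⟨⟨Lw_Ic hS hM h.memL hw.1, h2⟩, h3⟩, ⟨⟨Lw_Ic hS hM' h.memR hw.2, ?_⟩, ?_⟩⟩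
        · exact fun h4 => h2 ((h.piso.adj h1 hx).2 h4)
        · exact (h.piso.adj h1 h.top).1 h3
      · rintro z ⟨⟨hz1, hz2⟩, hz3⟩
        obtain ⟨z', hz'⟩ := h.total z ⟨hz1.1, hM.asymm hz3⟩
        exact ⟨z', hz', hz2, hz3⟩
      · rintro z' ⟨⟨hz1, hz2⟩, hz3⟩
        obtain ⟨z, hz⟩ := h.surj z' ⟨hz1.1, hM'.asymm hz3⟩
        exact ⟨z, hz, fun h4 => hz2 ((h.piso.adj hz hx).1 h4), (h.piso.adj hz h.top).2 hz3⟩
    refine hq.subset ?_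
    rintro w ⟨rfl | h1, h2⟩
    · exact absurd h2 (hM.irr y)
    · exact h1
  · have e1 : Lx S M u x \ Lt M y = Lx S M u y := by
      ext z
      constructor
      · rintro ⟨⟨h1, h2⟩, h3⟩
        exact ⟨h1, h3⟩
      · rintro ⟨h1, h3⟩
        exact ⟨⟨h1, fun h4 => h3 (hM.tr z x y h4 hxy)⟩, h3⟩
    have e2 : Lx S M' u' x' \ Lt M' y' = Lx S M' u' y' := by
      ext z
      constructor
      · rintro ⟨⟨h1, h2⟩, h3⟩
        exact ⟨h1, h3⟩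
      · rintro ⟨h1, h3⟩
        exact ⟨⟨h1, fun h4 => h3 (hM'.tr z x' y' h4 hxy')⟩, h3⟩
    rw [e1, e2]
    refine h.tail.subset ?_
    rintro w ⟨rfl | h1, h2⟩
    · rfl
    · exact absurd h1.2.2 h2

end Pool.Agent.H533R2.VO
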