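import Pool.Agent.H533R2.VO.Spec

set_option autoImplicit false

/-! CSI: invariance of coded cuts. -/

namespace Pool.Agent.H533R2.VO

open Set
open Pool.Agent.H899R2.VP

theorem csi_mem {a : ℕ → ℕ} (F : Set (St a × Set ℕ)) {D D' : St a} {q : Set (ℕ × ℕ)}
    (h3 : PIso D D' q) (h4 : ∀ x, ∃ y, (x, y) ∈ q) (h5 : ∀ y, ∃ x, (x, y) ∈ q) {z z' : ℕ}
    (hz : (z, z') ∈ q) (h : z ∈ CS F D) : z' ∈ CS F D' := by
  intro x' y' h6 h7
  obtain ⟨x, hx⟩ := h5 x'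
  obtain ⟨y, hy⟩ := h5 y'
  obtain ⟨P, hP, hP2⟩ := h x y (fun hc => h6 ((h3.adj hy hx).1 hc))
    (fun hc => h7 ((h3.adj hz hy).1 hc))
  refine ⟨P, hP, iso_trans0 hP2 ?_⟩
  have h8 : IsoOn D D' univ univ {(x, x'), (y, y')} := by
    refine ⟨q, ?_, fun _ _ => ⟨mem_univ _, mem_univ _⟩, h3, fun x _ => h4 x, fun y _ => h5 y⟩
    rintro w (rfl | rfl)
    · exact hx
    · exact hy
  have h9 := resIsoIc (c := x) (c' := x') (d := y) (d' := y') (Or.inl rfl) (Or.inr rfl) h8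
  rw [univ_inter, univ_inter] at h9
  exact h9.mono (empty_subset _)

theorem t_CSI : S_CSI := by
  rintro a F F' D D' ⟨q, -, -, h3, h4, h5⟩ h
  have h4' : ∀ x, ∃ y, (x, y) ∈ q := fun x => h4 x (mem_univ _)
  have h5' : ∀ y, ∃ x, (x, y) ∈ q := fun y => h5 y (mem_univ _)
  have key : ∀ (G : Set (St a × Set ℕ)) (z z' : ℕ), (z, z') ∈ q →
      (z ∈ CS G D ↔ z' ∈ CS G D') := by
    intro G z z' hz
    exact ⟨fun h => csi_mem G h3 h4' h5' hz h,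
      fun h => csi_mem G h3.symm h5' h4' (show (z', z) ∈ inv q from hz) h⟩
  ext z'
  obtain ⟨z, hz⟩ := h5' z'
  rw [← key F z z' hz, ← key F' z z' hz, h]

end Pool.Agent.H533R2.VO
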