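import Pool.Agent.H533R2.VO.Spec

set_option autoImplicit false

namespace Pool.Agent.H533R2.VO

open Set
open Pool.Agent.H899R2.VP

private theorem dec1_bits (σ : ℕ → Bool) (e : ℕ) : ∃ c : ℕ, ∀ m < e, c.testBit m = σ m := by
  refine ⟨Nat.ofBits (fun i : Fin e => σ i), fun m hm => ?_⟩
  rw [Nat.testBit_ofBits_lt _ _ hm]

private theorem dec1_aux {a : ℕ → ℕ} (hL : S_LHF) {M : St a} {lo hi : ℕ → ℕ → ℕ}
    (t : ℕ → ℕ → St a) (σ : ℕ → Bool) (hLH : LH M lo hi) (e r s : ℕ) (hrs : r ≤ s)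
    (hr : ∀ m < e, 2 * m + (σ m).toNat < r) :
    En M lo e ⊆ CS (FF M lo hi t s) (DS M lo hi t σ) := by
  obtain ⟨c, hc⟩ := dec1_bits σ e
  obtain ⟨hdj, hin, hout, -, -, -⟩ := hL a M lo hi hLH
  have hM := hLH.os
  obtain ⟨J, hJ⟩ : ∃ J : ℕ × ℕ → Set ℕ, J = fun j => Ic M (lo j.1 j.2) (hi j.1 j.2) := ⟨_, rfl⟩
  have hdJ : ∀ i j, i ≠ j → Disjoint (J i) (J j) := by
    intro i j hij
    rw [hJ]
    exact hdj i j hij
  have hJin : ∀ j : ℕ × ℕ, j.1 < e → J j ⊆ En M lo e := by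
    intro j hj
    rw [hJ]
    exact hin j.1 e j.2 hj
  have hJlt : ∀ j : ℕ × ℕ, ∀ z ∈ J j, z ∈ En M lo e → j.1 < e := by
    intro j z hz hzE
    by_contra hge
    rw [hJ] at hz
    exact hout j.1 j.2 z hz e (not_lt.1 hge) hzE
  have hlt : ∀ z ∈ En M lo e, ∀ w, w ∉ En M lo e → Adj M z w := by
    intro z hz w hw
    have : ∃ k, ¬ Adj M w (lo e k) := by
      by_contra hcon
      push Not at hcon
      exact hw hcon
    obtain ⟨k, hk⟩ := this
    exact hM.lt_le (hz k) hk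
  have hsep : ∀ z ∈ En M lo e, ∀ w, w ∉ En M lo e → ∀ j, z ∈ J j → w ∉ J j := by
    intro z hz w hw j hzj hwj
    exact hw (hJin j (hJlt j z hzj hz) hwj)
  -- initial segments in glued structures
  have hG1 : ∀ T : ℕ × ℕ → St a, ∀ z ∈ En M lo e, ∀ w, w ∉ En M lo e →
      Adj (Glu M J T) z w := by
    intro T z hz w hw
    rw [Glu_adj' (hsep z hz w hw)]
    exact hlt z hz w hw
  obtain ⟨T, hT⟩ : ∃ T : ℕ × ℕ → St a, T = fun j => t (2 * j.1 + (σ j.1).toNat) j.2 := ⟨_, rfl⟩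
  obtain ⟨T1, hT1⟩ : ∃ T1 : ℕ × ℕ → St a,
    T1 = fun j => trunc M t r (2 * j.1 + (c.testBit j.1).toNat) j.2 := ⟨_, rfl⟩
  have hTT : ∀ j : ℕ × ℕ, j.1 < e → T1 j = T j := by
    intro j hj
    rw [hT, hT1]
    simp only
    rw [hc j.1 hj]
    unfold trunc
    rw [if_pos (hr j.1 hj)]
  have hD : DS M lo hi t σ = Glu M J T := by
    rw [hJ, hT]
    rfl
  have hD1 : DS M lo hi (trunc M t r) (fun j => c.testBit j) = Glu M J T1 := by
    rw [hJ, hT1]
    rfl
  have hagr : ∀ x ∈ En M lo e, ∀ y ∈ En M lo e, (Glu M J T1).1 x y = (Glu M J T).1 x y := by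
    intro x hx y hy
    rw [Bool.eq_iff_iff]
    change Adj (Glu M J T1) x y ↔ Adj (Glu M J T) x y
    by_cases hj : ∃ j, x ∈ J j ∧ y ∈ J j
    · obtain ⟨j, hxj, hyj⟩ := hj
      rw [Glu_adj hdJ hxj hyj, Glu_adj hdJ hxj hyj, hTT j (hJlt j x hxj hx)]
    · push Not at hj
      rw [Glu_adj' hj, Glu_adj' hj]
  have hagr2 : ∀ i u, (∀ k, u k ∈ En M lo e) → (Glu M J T1).2 i u = (Glu M J T).2 i u := by
    intro i u hu
    by_cases hj : Nonempty (Fin (a i)) ∧ ∃ j, ∀ k, u k ∈ J j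
    · obtain ⟨hne, j, hju⟩ := hj
      obtain ⟨k⟩ := hne
      rw [Glu_rel hdJ ⟨k⟩ hju, Glu_rel hdJ ⟨k⟩ hju, hTT j (hJlt j _ (hju k) (hu k))]
    · rw [Glu_rel' hj, Glu_rel' hj]
  intro z hz x y hyx hzy
  rw [hD] at hyx hzy
  have hyE : y ∈ En M lo e := by
    by_contra hcon
    exact hzy (hG1 T z hz y hcon)
  have hxE : x ∈ En M lo e := by
    by_contra hcon
    exact hyx (hG1 T y hyE x hcon)
  have hsub : ∀ T' : ℕ × ℕ → St a, Ic (Glu M J T') x y ⊆ En M lo e := by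
    intro T' w hw
    by_contra hcon
    exact hw.2 (hG1 T' y hyE w hcon)
  have hIc : Ic (Glu M J T1) x y = Ic (Glu M J T) x y := by
    ext w
    constructor
    · intro hw
      have hwE := hsub T1 hw
      refine ⟨?_, ?_⟩
      · have := hw.1
        unfold Adj at this ⊢
        rwa [← hagr w hwE x hxE]
      · have := hw.2
        unfold Adj at this ⊢
        rwa [← hagr y hyE w hwE]
    · intro hw
      have hwE := hsub T hw
      refine ⟨?_, ?_⟩
      · have := hw.1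
        unfold Adj at this ⊢
        rwa [hagr w hwE x hxE]
      · have := hw.2
        unfold Adj at this ⊢
        rwa [hagr y hyE w hwE]
  refine ⟨(DS M lo hi (trunc M t r) (fun j => c.testBit j),
    Ic (DS M lo hi (trunc M t r) (fun j => c.testBit j)) x y), ⟨r, hrs, c, x, y, rfl⟩, ?_⟩
  simp only
  rw [hD, hD1, hIc]
  refine (iso_congr (fun u hu v hv => ?_) (fun i u hu => ?_)).mono (empty_subset _)
  · exact hagr u (hsub T hu) v (hsub T hv)
  · exact hagr2 i u (fun k => hsub T (hu k))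

theorem t_DEC1 (h : S_LHF) : S_DEC1 := by
  intro a α M lo hi t σ hLH _
  refine ⟨fun n => ?_, fun n => ?_, fun n hn => ?_⟩
  · apply dec1_aux h t σ hLH n (2 * n) (2 * n) le_rfl
    intro m hm
    have := Bool.toNat_le (σ m)
    omega
  · apply dec1_aux h t σ hLH n (2 * n) (2 * n + 1) (by omega)
    intro m hm
    have := Bool.toNat_le (σ m)
    omega
  · apply dec1_aux h t σ hLH (n + 1) (2 * n + 1) (2 * n + 1) le_rfl
    intro m hm
    have := Bool.toNat_le (σ m)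
    rcases Nat.lt_succ_iff_lt_or_eq.1 hm with h1 | h1
    · omega
    · subst h1
      rw [hn]
      simp

end Pool.Agent.H533R2.VO
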