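import Pool.Agent.H533R2.VO.Spec

set_option autoImplicit false

/-! DEC2: the coded cut is contained in `E_n`. -/

namespace Pool.Agent.H533R2.VO

open Set
open Pool.Agent.H899R2.VP

theorem dec2_key (h1 : S_LHF) (h2 : S_GLO) (h3 : S_GLF) (a : ℕ → ℕ) (α : Ordinal.{0}) (M : St a)
    (lo hi : ℕ → ℕ → ℕ) (t : ℕ → ℕ → St a) (σ : ℕ → Bool) (hLH : LH M lo hi)
    (hT : GoodT α M lo hi t) (n r : ℕ) (hr : r ≤ 2 * n + (σ n).toNat) :
    CS (FF M lo hi t r) (DS M lo hi t σ) ⊆ En M lo n := by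
  obtain ⟨g1, g2, g3, g4, g5, g6⟩ := h1 a M lo hi hLH
  intro z hz
  by_contra hzn
  obtain ⟨k, hk⟩ := g6 n z hzn
  let T : ℕ × ℕ → St a := fun j => t (2 * j.1 + (σ j.1).toNat) j.2
  let J : ℕ × ℕ → Set ℕ := fun j => Ic M (lo j.1 j.2) (hi j.1 j.2)
  have hdiv : ∀ m, (2 * m + (σ m).toNat) / 2 = m := by
    intro m
    cases σ m <;> simp <;> omega
  have hGA : GA α M (fun j : ℕ × ℕ => lo j.1 j.2) (fun j => hi j.1 j.2) T := by
    refine ⟨hLH.os, fun j => hLH.os.asymm (hLH.lt _ _), g1, fun j => (hT _ _).1, fun j => ?_⟩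
    have := (hT (2 * j.1 + (σ j.1).toNat) j.2).2.1
    rw [hdiv] at this
    exact this
  have hOS : OS (DS M lo hi t σ) := h2 a (ℕ × ℕ) α M _ _ T hGA
  obtain ⟨f1, f2, f3⟩ := h3 a (ℕ × ℕ) α M _ _ T hGA
  obtain ⟨x, hx, y, hy, hxy, hP⟩ := (hT (2 * n + (σ n).toNat) k).2.2
  rw [hdiv] at hx hy hP
  have hzJ : z ∉ J (n, k) := fun hzJ => hLH.os.irr z (hk z hzJ)
  have hyx : ¬ Adj (DS M lo hi t σ) y x := by
    intro h
    exact hxy ((Glu_adj (M := M) (J := J) (T := T) g1 (j := (n, k)) hy hx).1 h)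
  have hyz : Adj (DS M lo hi t σ) y z := ((f1 (n, k) y hy z hzJ).1).2 (hk y hy)
  obtain ⟨P, hPF, hPiso⟩ := hz x y hyx (hOS.asymm hyz)
  have hIc : Ic (DS M lo hi t σ) x y =
      Ic M (lo n k) (hi n k) ∩ Ic (t (2 * n + (σ n).toNat) k) x y := f2 (n, k) x hx y hy
  rw [hIc] at hPiso
  refine hP P ?_ (iso_trans0 hPiso (iso_symm0 ?_))
  · obtain ⟨r', hr', c, x', y', hPe⟩ := hPF
    exact ⟨r', hr'.trans hr, c, x', y', hPe⟩
  · obtain ⟨q, hq1, hq2, hq3, -, -⟩ := f3 (n, k)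
    set Y : Set ℕ := Ic M (lo n k) (hi n k) ∩ Ic (t (2 * n + (σ n).toNat) k) x y with hY
    have hsub : Y ⊆ J (n, k) := inter_subset_left
    refine ⟨idOn Y, empty_subset _, ?_, hq3.mono ((idOn_mono hsub).trans hq1),
      fun w hw => ⟨w, idOn_self hw⟩, fun w hw => ⟨w, idOn_self hw⟩⟩
    rintro ⟨u, v⟩ ⟨h, h'⟩
    simp only at h h'
    subst h
    exact ⟨h', h'⟩

theorem t_DEC2 (h1 : S_LHF) (h2 : S_GLO) (h3 : S_GLF) : S_DEC2 := by
  intro a α M lo hi t σ hLH hT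
  refine ⟨fun n => ?_, fun n hn => ?_⟩
  · exact dec2_key h1 h2 h3 a α M lo hi t σ hLH hT n (2 * n) (Nat.le_add_right _ _)
  · refine dec2_key h1 h2 h3 a α M lo hi t σ hLH hT n (2 * n + 1) ?_
    rw [hn]
    exact le_refl _

end Pool.Agent.H533R2.VO
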