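import Pool.Agent.H533R2.VO.Spec
set_option autoImplicit false
namespace Pool.Agent.H533R2.VO
open Set
open Pool.Agent.H899R2.VP

theorem dya_scale {P : ℕ → ℕ → ℕ} (h : ∀ m i, P (m + 1) (2 * i) = P m i) (m i d : ℕ) :
    P (m + d) (i * 2 ^ d) = P m i := by
  induction d with
  | zero => simp
  | succ d ih =>
    rw [← ih, ← h (m + d) (i * 2 ^ d), pow_succ, ← add_assoc]
    congr 1
    ring

theorem dya_chain {R : ℕ → ℕ → Prop} {P : ℕ → ℕ → ℕ} (htr : ∀ x y z, R x y → R y z → R x z)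
    (hR : ∀ m i, i < 2 ^ m → R (P m i) (P m (i + 1))) (m i : ℕ) (d : ℕ)
    (hd : i + d + 1 ≤ 2 ^ m) : R (P m i) (P m (i + d + 1)) := by
  induction d with
  | zero => exact hR m i (by omega)
  | succ d ih =>
    exact htr _ _ _ (ih (by omega)) (hR m (i + d + 1) (by omega))

theorem dya_lt {R : ℕ → ℕ → Prop} {P : ℕ → ℕ → ℕ} (htr : ∀ x y z, R x y → R y z → R x z)
    (h : ∀ m i, P (m + 1) (2 * i) = P m i)
    (hR : ∀ m i, i < 2 ^ m → R (P m i) (P m (i + 1))) (m i m' j : ℕ)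
    (hij : i * 2 ^ m' < j * 2 ^ m) (hj : j ≤ 2 ^ m') : R (P m i) (P m' j) := by
  rw [← dya_scale h m i m', ← dya_scale h m' j m, Nat.add_comm m' m]
  obtain ⟨d, hd⟩ := Nat.exists_eq_add_of_lt hij
  rw [hd]
  refine dya_chain htr hR _ _ _ ?_
  rw [← hd, pow_add, Nat.mul_comm (2 ^ m)]
  exact Nat.mul_le_mul_right _ hj

/-- numerator of the point -/
def dyaNum (n j : ℕ) : ℕ := 2 ^ (n + 2 + j) - 2 ^ (2 + j) + 1

theorem dyaNum_eq (n j : ℕ) : dyaNum n j + 2 ^ (2 + j) = 2 ^ (n + 2 + j) + 1 := by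
  have h : 2 ^ (2 + j) ≤ 2 ^ (n + 2 + j) := Nat.pow_le_pow_right (by norm_num) (by omega)
  unfold dyaNum
  omega

theorem dyaNum_le (n j : ℕ) : dyaNum n j ≤ 2 ^ (n + 2 + j) := by
  have h := dyaNum_eq n j
  have h1 : 1 ≤ 2 ^ (2 + j) := Nat.one_le_two_pow
  omega

theorem t_DYA : S_DYA := by
  intro R P htr h hR
  let q : ℕ → ℕ → ℕ := fun n j => P (n + 2 + j) (dyaNum n j)
  have hq1 : ∀ n j, R (q n (j + 1)) (q n j) := by
    intro n j
    refine dya_lt htr h hR _ _ _ _ ?_ (dyaNum_le n j)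
    have h1 := dyaNum_eq n j
    have h2 := dyaNum_eq n (j + 1)
    have e1 : 2 ^ (n + 2 + (j + 1)) = 2 * 2 ^ (n + 2 + j) := by rw [← add_assoc, pow_succ]; ring
    have e2 : 2 ^ (2 + (j + 1)) = 2 * 2 ^ (2 + j) := by rw [← add_assoc, pow_succ]; ring
    rw [e1, e2] at h2
    rw [e1]
    have hA : 0 < 2 ^ (n + 2 + j) := by positivity
    generalize 2 ^ (n + 2 + j) = A at *
    generalize 2 ^ (2 + j) = B at *
    have h3 : dyaNum n (j + 1) * A + 2 * B * A = (2 * A + 1) * A := by rw [← h2]; ring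
    have h4 : dyaNum n j * (2 * A) + B * (2 * A) = (A + 1) * (2 * A) := by rw [← h1]; ring
    nlinarith
  have hq2 : ∀ n j j', R (q n j) (q (n + 1) j') := by
    intro n j j'
    refine dya_lt htr h hR _ _ _ _ ?_ (dyaNum_le (n + 1) j')
    have h1 := dyaNum_eq n j
    have h2 := dyaNum_eq (n + 1) j'
    have e1 : 2 ^ (n + 2 + j) = 4 * 2 ^ n * 2 ^ j := by rw [pow_add, pow_add]; ring
    have e2 : 2 ^ (2 + j) = 4 * 2 ^ j := by rw [pow_add]; ring
    have e3 : 2 ^ (n + 1 + 2 + j') = 8 * 2 ^ n * 2 ^ j' := by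
      rw [pow_add, pow_add, pow_add]; ring
    have e4 : 2 ^ (2 + j') = 4 * 2 ^ j' := by rw [pow_add]; ring
    rw [e1, e2] at h1
    rw [e3, e4] at h2
    rw [e1, e3]
    have hN : 1 ≤ 2 ^ n := Nat.one_le_two_pow
    have hu : 1 ≤ 2 ^ j := Nat.one_le_two_pow
    have hv : 1 ≤ 2 ^ j' := Nat.one_le_two_pow
    generalize 2 ^ n = N at *
    generalize 2 ^ j = u at *
    generalize 2 ^ j' = v at *
    have h3 : dyaNum n j * (8 * N * v) + 4 * u * (8 * N * v) =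
        (4 * N * u + 1) * (8 * N * v) := by rw [← h1]; ring
    have h4 : dyaNum (n + 1) j' * (4 * N * u) + 4 * v * (4 * N * u) =
        (8 * N * v + 1) * (4 * N * u) := by rw [← h2]; ring
    have h5 : N * v ≤ N * v * u := Nat.le_mul_of_pos_right _ hu
    have h6 : 1 ≤ N * u := Nat.mul_pos hN hu
    nlinarith
  refine ⟨fun n k => q n (2 * k + 1), fun n k => q n (2 * k), ?_, ?_, ?_⟩
  · intro n k
    exact hq1 n (2 * k)
  · intro n k
    exact hq1 n (2 * k + 1)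
  · intro n k j
    exact hq2 n (2 * k) (2 * j + 1)

end Pool.Agent.H533R2.VO
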