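import Pool.Agent.H533R2.VO.Spec

set_option autoImplicit false

/-! Task END. -/

namespace Pool.Agent.H533R2.VO

open Set
open Pool.Agent.H899R2.VP

private theorem end_ge {a : ℕ → ℕ} {M : St a} {S : Set (St a × Set ℕ)} (hM : OS M)
    (h0 : (M, Ic M 0 0) ∈ S) (h : ∀ x, Adj M 0 x → (M, Ic M 0 x) ∈ S) :
    Lw S M 0 = Ge M 0 := by
  ext x
  constructor
  · exact fun hx => hx.1
  · intro hx
    refine ⟨hx, ?_⟩
    by_cases hx' : Adj M 0 x
    · exact h x hx'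
    · have : Ic M 0 x = Ic M 0 0 := by
        ext z
        constructor
        · rintro ⟨h1, h2⟩
          exact ⟨h1, fun h3 => h2 (hM.le_lt hx' h3)⟩
        · rintro ⟨h1, h2⟩
          exact ⟨h1, fun h3 => h2 (hM.le_lt hx h3)⟩
      rw [this]; exact h0

private theorem end_le {a : ℕ → ℕ} {M : St a} {S : Set (St a × Set ℕ)} (hM : OS M)
    (h0 : (M, Ic M 0 0) ∈ S) (h : ∀ x, Adj M x 0 → (M, Ic M x 0) ∈ S) :
    Uw S M 0 = Le M 0 := by
  ext x
  constructor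
  · exact fun hx => hx.1
  · intro hx
    refine ⟨hx, ?_⟩
    by_cases hx' : Adj M x 0
    · exact h x hx'
    · have : Ic M x 0 = Ic M 0 0 := by
        ext z
        constructor
        · rintro ⟨h1, h2⟩
          exact ⟨fun h3 => h1 (hM.lt_le h3 hx'), h2⟩
        · rintro ⟨h1, h2⟩
          exact ⟨fun h3 => h1 (hM.lt_le h3 hx), h2⟩
      rw [this]; exact h0

private theorem end_glue {a : ℕ → ℕ} {M N : St a} (hM : OS M) (hN : OS N)
    (h1 : IsoOn M N (Ge M 0) (Ge N 0) ∅) (h2 : IsoOn M N (Le M 0) (Le N 0) ∅) :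
    IsoOn M N univ univ ∅ := by
  refine sum2Iso hM hN (Lt M 0) (Lt N 0) (empty_subset _) ?_ ?_ ?_ ?_ ?_
  · intro x _ hx y _ hy
    exact hM.lt_le hx hy
  · intro x _ hx y _ hy
    exact hN.lt_le hx hy
  · intro u hu
    exact absurd hu (notMem_empty u)
  · obtain ⟨q, -, hq2, hq3, hq4, hq5⟩ := h2
    have key : ∀ x y, (x, y) ∈ q → (Adj M x 0 ↔ Adj N y 0) := by
      intro x y hxy
      constructor
      · intro hx
        obtain ⟨w, hw⟩ := hq4 0 (hM.irr 0)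
        have h3 : Adj N y w := (hq3.adj hxy hw).1 hx
        exact hN.lt_le h3 (hq2 hw).2
      · intro hy
        obtain ⟨w, hw⟩ := hq5 0 (hN.irr 0)
        have h3 : Adj M x w := (hq3.adj hxy hw).2 hy
        exact hM.lt_le h3 (hq2 hw).1
    refine ⟨{u | u ∈ q ∧ Adj M u.1 0}, ?_, ?_, ?_, ?_, ?_⟩
    · rintro u ⟨hu, -⟩
      exact absurd hu (notMem_empty u)
    · rintro ⟨x, y⟩ ⟨hu, hx⟩
      exact ⟨⟨mem_univ _, hx⟩, ⟨mem_univ _, (key x y hu).1 hx⟩⟩
    · exact hq3.mono fun u hu => hu.1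
    · rintro x ⟨-, hx⟩
      obtain ⟨y, hy⟩ := hq4 x (hM.asymm hx)
      exact ⟨y, hy, hx⟩
    · rintro y ⟨-, hy⟩
      obtain ⟨x, hx⟩ := hq5 y (hN.asymm hy)
      exact ⟨x, hx, (key x y hx).2 hy⟩
  · have e1 : ∀ K : St a, (univ \ Lt K 0 : Set ℕ) = Ge K 0 := by
      intro K
      ext x
      simp only [mem_sdiff, mem_univ, true_and]
      exact Iff.rfl
    rw [e1 M, e1 N]
    have e2 : {u : ℕ × ℕ | u ∈ (∅ : Set (ℕ × ℕ)) ∧ u.1 ∉ Lt M 0} = ∅ := by
      ext u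
      constructor
      · rintro ⟨hu, -⟩
        exact hu
      · intro hu
        exact absurd hu (notMem_empty u)
    rw [e2]
    exact h1

theorem t_END (h1 : S_TOWC) (h2 : S_TOWR) : S_END := by
  intro a α K S hG hS hb hall
  obtain ⟨f, hf⟩ := h1 a α K S hG hS hb
  obtain ⟨g, hg⟩ := h2 a α K S hG hS hb
  classical
  let P : ℕ → St a → Prop := fun n M => M ∈ K ∧
    IsoOn (f n.unpair.1).1 M (f n.unpair.1).2 (Ge M 0) ∅ ∧
    IsoOn (g n.unpair.2).1 M (g n.unpair.2).2 (Le M 0) ∅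
  refine ⟨fun n => if h : ∃ M, P n M then h.choose else (fun _ _ => false, fun _ _ => false), ?_⟩
  intro M hM
  have hos := hG.os M hM
  obtain ⟨i, hi⟩ := hf M hM 0
  obtain ⟨j, hj⟩ := hg M hM 0
  rw [end_ge hos (hb M hM 0) (fun x hx => hall M hM 0 x hx)] at hi
  rw [end_le hos (hb M hM 0) (fun x hx => hall M hM x 0 hx)] at hj
  refine ⟨Nat.pair i j, ?_⟩
  have hP : P (Nat.pair i j) M := by
    refine ⟨hM, ?_, ?_⟩
    · simpa using hi
    · simpa using hj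
  have hex : ∃ N, P (Nat.pair i j) N := ⟨M, hP⟩
  simp only [hex, dif_pos]
  obtain ⟨k1, k2, k3⟩ := hex.choose_spec
  exact end_glue (hG.os _ k1) hos (iso_trans0 (iso_symm0 k2) hP.2.1)
    (iso_trans0 (iso_symm0 k3) hP.2.2)

end Pool.Agent.H533R2.VO
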