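import Pool.Agent.H533R2.VO.Spec

set_option autoImplicit false

namespace Pool.Agent.H533R2.VO

open Set
open Pool.Agent.H899R2.VP

theorem t_EXT : S_EXT := by
  intro a S l n k M M' u u' y y' y2 φ hS hL hln hnk hM hM' h huy hy2 hyy2
  have hy : y ∈ Lw S M u := h.memL
  have hy' : y' ∈ Lw S M' u' := h.memR
  obtain ⟨y2', hy2'x, hb⟩ := h.tail.forth hnk (mem_Lx.2 ⟨hy2, hyy2⟩)
  obtain ⟨hy2', hyy2'⟩ := mem_Lx.1 hy2'x
  have hm1 : (y, y') ∈ (insert (y2, y2') {(y, y')} : Set (ℕ × ℕ)) := Or.inr rfl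
  have hm2 : (y2, y2') ∈ (insert (y2, y2') {(y, y')} : Set (ℕ × ℕ)) := Or.inl rfl
  -- the piece `[y, y2]`
  have hi : IsoOn M M' (Ic M y y2) (Ic M' y' y2') (insert (y2, y2') {(y, y')}) := by
    have h1 := resIc hm1 hm2 hb
    rw [Lx_inter_Ic hS hM hy hy2, Lx_inter_Ic hS hM' hy' hy2'] at h1
    refine hL M (Ic M y y2) M' (Ic M' y' y2') _ (Lw_piece hS hM hy hy2 hyy2) ?_ ?_ (h1.mono hln)
    · exact (Set.finite_singleton _).insert _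
    · rintro w (rfl | rfl)
      · exact ⟨right_mem_Ic hM hyy2, right_mem_Ic hM' hyy2'⟩
      · exact ⟨left_mem_Ic hM hyy2, left_mem_Ic hM' hyy2'⟩
  let p' : Set (ℕ × ℕ) := {w | w ∈ φ ∧ Adj M w.1 y} ∪ insert (y2, y2') {(y, y')}
  have hsub : ∀ w ∈ φ, w.1 ∈ Ic M u y2 ∧ w.2 ∈ Ic M' u' y2' := by
    intro w hw
    obtain ⟨h1, h2⟩ := h.subset hw
    exact ⟨⟨h1.1, hM.le_trans h1.2 hyy2⟩, ⟨h2.1, hM'.le_trans h2.2 hyy2'⟩⟩
  have hadj : ∀ w ∈ φ, (Adj M w.1 y ↔ Adj M' w.2 y') := fun w hw => h.piso.adj hw h.top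
  have hp' : p' ⊆ Ic M u y2 ×ˢ Ic M' u' y2' := by
    rintro w (⟨hw, _⟩ | rfl | rfl)
    · exact hsub w hw
    · exact ⟨⟨hy2.1, hM.irr _⟩, ⟨hy2'.1, hM'.irr _⟩⟩
    · exact ⟨⟨hy.1, hyy2⟩, ⟨hy'.1, hyy2'⟩⟩
  have key : IsoOn M M' (Ic M u y2) (Ic M' u' y2') p' := by
    refine sum2Iso hM hM' (Lt M y) (Lt M' y') hp' ?_ ?_ ?_ ?_ ?_
    · intro x _ hx z _ hz
      exact hM.lt_le hx hz
    · intro x _ hx z _ hz
      exact hM'.lt_le hx hz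
    · rintro w (⟨hw, _⟩ | rfl | rfl)
      · exact hadj w hw
      · exact ⟨fun h1 => absurd h1 hyy2, fun h1 => absurd h1 hyy2'⟩
      · exact ⟨fun h1 => absurd h1 (hM.irr _), fun h1 => absurd h1 (hM'.irr _)⟩
    · refine ⟨{w | w ∈ φ ∧ Adj M w.1 y}, ?_, ?_, h.piso.mono (fun w hw => hw.1), ?_, ?_⟩
      · rintro w ⟨hw | rfl | rfl, h1⟩
        · exact hw
        · exact absurd h1 hyy2
        · exact absurd h1 (hM.irr _)
      · rintro w ⟨hw, h1⟩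
        exact ⟨⟨(hsub w hw).1, h1⟩, ⟨(hsub w hw).2, (hadj w hw).1 h1⟩⟩
      · rintro x ⟨hx, hxy⟩
        obtain ⟨x', hx'⟩ := h.total x ⟨hx.1, hM.asymm hxy⟩
        exact ⟨x', hx', hxy⟩
      · rintro x' ⟨hx, hxy⟩
        obtain ⟨x, hx'⟩ := h.surj x' ⟨hx.1, hM'.asymm hxy⟩
        exact ⟨x, hx', (hadj _ hx').2 hxy⟩
    · have e1 : Ic M u y2 \ Lt M y = Ic M y y2 := by
        ext z
        constructor
        · rintro ⟨h1, h2⟩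
          exact ⟨h2, h1.2⟩
        · rintro ⟨h1, h2⟩
          exact ⟨⟨hM.le_trans hy.1 h1, h2⟩, h1⟩
      have e2 : Ic M' u' y2' \ Lt M' y' = Ic M' y' y2' := by
        ext z
        constructor
        · rintro ⟨h1, h2⟩
          exact ⟨h2, h1.2⟩
        · rintro ⟨h1, h2⟩
          exact ⟨⟨hM'.le_trans hy'.1 h1, h2⟩, h1⟩
      rw [e1, e2]
      refine hi.mono ?_
      rintro w ⟨⟨_, h1⟩ | h1, h2⟩
      · exact absurd h1 h2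
      · exact h1
  obtain ⟨q2, hq1, hq2, hq3, hq4, hq5⟩ := key
  refine ⟨y2', q2, ⟨hy2, hy2', hq2, hq3, hq4, hq5, hq1 (Or.inl ⟨h.base, huy⟩),
    hq1 (Or.inr hm2), ?_⟩, hq1 (Or.inr hm1), fun w hw h1 => hq1 (Or.inl ⟨hw, h1⟩)⟩
  have h1 := resGe hm2 hb
  rw [Lx_inter_Ge hM hyy2, Lx_inter_Ge hM' hyy2'] at h1
  refine h1.subset ?_
  rintro w rfl
  exact hm2

end Pool.Agent.H533R2.VO
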