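import Pool.Agent.H533R2.VO.Spec

set_option autoImplicit false

/-!
# FILL: fillings avoiding countably many pieces
-/

namespace Pool.Agent.H533R2.VO

open Set
open Pool.Agent.H899R2.VP

theorem t_FILL (h : S_TRP) : S_FILL := by
  intro a α M X hα hns F hF
  obtain ⟨f, hf⟩ := (hF.insert (M, (∅ : Set ℕ))).exists_eq_range (insert_nonempty _ _)
  -- a piece which is not isomorphic to any `f n`
  have hex : ∃ (N : St a) (Y : Set ℕ), OS N ∧ BF M N X Y α ∅ ∧ ∃ x ∈ Y, ∃ y ∈ Y, ¬ Adj N y x ∧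
      ∀ n, ¬ IsoOn (f n).1 N (f n).2 (Y ∩ Ic N x y) ∅ := by
    by_contra hcon
    apply hns
    refine ⟨f, fun N Y hN hb x hx y hy hxy => ?_⟩
    by_contra hno
    exact hcon ⟨N, Y, hN, hb, x, hx, y, hy, hxy, fun n hn => hno ⟨n, hn⟩⟩
  obtain ⟨N, Y, hN, hb, x, hx, y, hy, hxy, hno⟩ := hex
  obtain ⟨T, hT, hiso⟩ := h a M N X Y α hα hN hb
  obtain ⟨q, h1, h2, h3, h4, h5⟩ := hiso
  obtain ⟨x1, hx1⟩ := h4 x hx
  obtain ⟨y1, hy1⟩ := h4 y hy
  have hp : ({(x, x1), (y, y1)} : Set (ℕ × ℕ)) ⊆ q := by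
    rintro u (rfl | hu)
    · exact hx1
    · rw [mem_singleton_iff] at hu
      subst hu
      exact hy1
  have hI : IsoOn N T Y X {(x, x1), (y, y1)} := ⟨q, hp, h2, h3, h4, h5⟩
  have hIc : IsoOn N T (Y ∩ Ic N x y) (X ∩ Ic T x1 y1) ∅ :=
    (resIsoIc (p := {(x, x1), (y, y1)}) (Or.inl rfl) (Or.inr rfl) hI).mono (empty_subset _)
  refine ⟨T, hT, bf_comp0 hb ((hI.mono (empty_subset _)).bf α), x1, (h2 hx1).2, y1, (h2 hy1).2,
    ?_, ?_⟩
  · intro hadj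
    apply hxy
    have h6 : N.1 y x = T.1 y1 x1 := h3.2.1 (y, y1) hy1 (x, x1) hx1
    unfold Adj at hadj ⊢
    rw [h6]
    exact hadj
  · intro P hP hPI
    have hPr : P ∈ range f := by
      rw [← hf]
      exact Or.inr hP
    obtain ⟨n, rfl⟩ := hPr
    exact hno n (iso_trans0 hPI (iso_symm0 hIc))

end Pool.Agent.H533R2.VO
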