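import Pool.Agent.H533R2.VO.Spec

set_option autoImplicit false

/-! Task GENF: the family generated by countably many pieces. -/

namespace Pool.Agent.H533R2.VO

open Set
open Pool.Agent.H899R2.VP

/-- Countably many types. -/
def genfCnt {a : ℕ → ℕ} (S : Set (St a × Set ℕ)) : Prop :=
  ∃ f : ℕ → St a × Set ℕ, ∀ M X, (M, X) ∈ S → ∃ n, IsoOn (f n).1 M (f n).2 X ∅

/-- Sub-intervals. -/
def genfSub {a : ℕ → ℕ} (S : Set (St a × Set ℕ)) : Set (St a × Set ℕ) :=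
  {P | ∃ (M : St a) (x y x' y' : ℕ), P = (M, Ic M x' y') ∧ OS M ∧ (M, Ic M x y) ∈ S ∧
    ¬ Adj M x' x ∧ ¬ Adj M y' x' ∧ ¬ Adj M y y'}

/-- Glued intervals. -/
def genfGlue {a : ℕ → ℕ} (S : Set (St a × Set ℕ)) : Set (St a × Set ℕ) :=
  {P | ∃ (M : St a) (x y z : ℕ), P = (M, Ic M x z) ∧ OS M ∧ ¬ Adj M y x ∧ ¬ Adj M z y ∧
    (M, Ic M x y) ∈ S ∧ (M, Ic M y z) ∈ S}

/-- Closure under isomorphism. -/
def genfIso {a : ℕ → ℕ} (S : Set (St a × Set ℕ)) : Set (St a × Set ℕ) :=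
  {P | ∃ Q ∈ S, IsoOn Q.1 P.1 Q.2 P.2 ∅}

/-- The stages. -/
def genfS {a : ℕ → ℕ} (f : ℕ → St a × Set ℕ) : ℕ → Set (St a × Set ℕ)
  | 0 => genfIso (range f)
  | k + 1 => genfIso (genfS f k ∪ (genfSub (genfS f k) ∪ genfGlue (genfS f k)))

section

variable {a : ℕ → ℕ}

theorem genf_code {C : Type} [Countable C] (S : Set (St a × Set ℕ))
    (R : C → St a × Set ℕ → Prop) (h1 : ∀ P ∈ S, ∃ c, R c P)
    (h2 : ∀ c, ∀ P ∈ S, ∀ Q ∈ S, R c P → R c Q → IsoOn P.1 Q.1 P.2 Q.2 ∅) : genfCnt S := by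
  classical
  by_cases hC : Nonempty C
  · obtain ⟨e, he⟩ := exists_surjective_nat C
    let g : C → St a × Set ℕ := fun c =>
      if h : ∃ P, P ∈ S ∧ R c P then h.choose else ((fun _ _ => false, fun _ _ => false), ∅)
    refine ⟨fun n => g (e n), fun M X hM => ?_⟩
    obtain ⟨c, hc⟩ := h1 _ hM
    obtain ⟨n, hn⟩ := he c
    refine ⟨n, ?_⟩
    have hex : ∃ P, P ∈ S ∧ R c P := ⟨_, hM, hc⟩
    have hg : g (e n) = hex.choose := by
      rw [hn]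
      exact dif_pos hex
    show IsoOn (g (e n)).1 M (g (e n)).2 X ∅
    rw [hg]
    exact h2 c _ hex.choose_spec.1 _ hM hex.choose_spec.2 hc
  · refine ⟨fun _ => ((fun _ _ => false, fun _ _ => false), ∅), fun M X hM => ?_⟩
    obtain ⟨c, _⟩ := h1 _ hM
    exact absurd ⟨c⟩ hC

theorem genf_cnt_iso {S : Set (St a × Set ℕ)} (h : genfCnt S) : genfCnt (genfIso S) := by
  obtain ⟨g, hg⟩ := h
  refine ⟨g, ?_⟩
  rintro M X ⟨Q, hQ, hi⟩
  obtain ⟨n, hn⟩ := hg Q.1 Q.2 hQ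
  exact ⟨n, iso_trans0 hn hi⟩

theorem genf_cnt_union {S T : Set (St a × Set ℕ)} (h : genfCnt S) (h' : genfCnt T) :
    genfCnt (S ∪ T) := by
  obtain ⟨g, hg⟩ := h
  obtain ⟨g', hg'⟩ := h'
  refine genf_code (C := ℕ ⊕ ℕ) (S ∪ T) (fun c P => match c with
    | Sum.inl n => IsoOn (g n).1 P.1 (g n).2 P.2 ∅
    | Sum.inr n => IsoOn (g' n).1 P.1 (g' n).2 P.2 ∅) ?_ ?_
  · rintro P (hP | hP)
    · obtain ⟨n, hn⟩ := hg P.1 P.2 hP
      exact ⟨Sum.inl n, hn⟩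
    · obtain ⟨n, hn⟩ := hg' P.1 P.2 hP
      exact ⟨Sum.inr n, hn⟩
  · rintro (n | n) P - Q - h1 h2
    · exact iso_trans0 (iso_symm0 h1) h2
    · exact iso_trans0 (iso_symm0 h1) h2

theorem genf_Ic_inter {M : St a} (hM : OS M) {x y x' y' : ℕ} (h1 : ¬ Adj M x' x)
    (h3 : ¬ Adj M y y') : Ic M x y ∩ Ic M x' y' = Ic M x' y' := by
  ext z
  constructor
  · exact fun h => h.2
  · exact fun h => ⟨⟨hM.le_trans h1 h.1, hM.le_trans h.2 h3⟩, h⟩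

theorem genf_cnt_sub {S : Set (St a × Set ℕ)} (h : genfCnt S) : genfCnt (genfSub S) := by
  obtain ⟨g, hg⟩ := h
  refine genf_code (C := ℕ × ℕ × ℕ) (genfSub S) (fun c P =>
    IsoOn (g c.1).1 P.1 ((g c.1).2 ∩ Ic (g c.1).1 c.2.1 c.2.2) P.2 ∅) ?_ ?_
  · rintro P ⟨M, x, y, x', y', rfl, hM, hS, h1, h2, h3⟩
    obtain ⟨n, q, hq0, hq1, hq2, hq3, hq4⟩ := hg M _ hS
    have hx' : x' ∈ Ic M x y := ⟨h1, hM.le_trans h2 h3⟩
    have hy' : y' ∈ Ic M x y := ⟨hM.le_trans h1 h2, h3⟩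
    obtain ⟨x1, hx1⟩ := hq4 x' hx'
    obtain ⟨y1, hy1⟩ := hq4 y' hy'
    refine ⟨(n, x1, y1), ?_⟩
    have hb : IsoOn (g n).1 M (g n).2 (Ic M x y) q := ⟨q, Subset.rfl, hq1, hq2, hq3, hq4⟩
    have := resIsoIc hx1 hy1 hb
    rw [genf_Ic_inter hM h1 h3] at this
    exact this.mono (empty_subset _)
  · rintro c P - Q - h1 h2
    exact iso_trans0 (iso_symm0 h1) h2

theorem genf_Lt {M : St a} (hM : OS M) {x y z : ℕ} (h2 : ¬ Adj M z y) :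
    Ic M x z ∩ Lt M y = Ic M x y ∩ Lt M y := by
  ext w
  constructor
  · exact fun h => ⟨⟨h.1.1, hM.asymm h.2⟩, h.2⟩
  · exact fun h => ⟨⟨h.1.1, hM.asymm (hM.lt_le h.2 h2)⟩, h.2⟩

theorem genf_Ge {M : St a} (hM : OS M) {x y z : ℕ} (h1 : ¬ Adj M y x) :
    Ic M x z \ Lt M y = Ic M y z := by
  ext w
  constructor
  · exact fun h => ⟨h.2, h.1.2⟩
  · exact fun h => ⟨⟨hM.le_trans h1 h.1, h.2⟩, h.1⟩

theorem genf_cnt_glue {S : Set (St a × Set ℕ)} (h : genfCnt S) : genfCnt (genfGlue S) := by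
  obtain ⟨g, hg⟩ := h
  refine genf_code (C := (ℕ × ℕ) × ℕ × ℕ) (genfGlue S) (fun c P =>
    ∃ (M : St a) (x y z : ℕ), P = (M, Ic M x z) ∧ OS M ∧ ¬ Adj M y x ∧ ¬ Adj M z y ∧
      IsoOn (g c.1.1).1 M (g c.1.1).2 (Ic M x y) {(c.1.2, y)} ∧
      IsoOn (g c.2.1).1 M (g c.2.1).2 (Ic M y z) {(c.2.2, y)}) ?_ ?_
  · rintro P ⟨M, x, y, z, rfl, hM, h1, h2, hS, hS'⟩
    obtain ⟨n, q, hq0, hq1, hq2, hq3, hq4⟩ := hg M _ hS
    obtain ⟨m, r, hr0, hr1, hr2, hr3, hr4⟩ := hg M _ hS'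
    obtain ⟨y1, hy1⟩ := hq4 y ⟨h1, hM.irr y⟩
    obtain ⟨y2, hy2⟩ := hr4 y ⟨hM.irr y, h2⟩
    exact ⟨((n, y1), m, y2), M, x, y, z, rfl, hM, h1, h2,
      ⟨q, singleton_subset_iff.2 hy1, hq1, hq2, hq3, hq4⟩,
      ⟨r, singleton_subset_iff.2 hy2, hr1, hr2, hr3, hr4⟩⟩
  · rintro ⟨⟨n, y1⟩, m, y2⟩ P - Q - ⟨M, x, y, z, rfl, hM, h1, h2, i1, i2⟩
      ⟨M', x', y', z', rfl, hM', h1', h2', i1', i2'⟩
    simp only at i1 i2 i1' i2' ⊢
    have j1 : IsoOn M M' (Ic M x y) (Ic M' x' y') {(y, y')} := by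
      refine (i1.symm.trans i1').mono ?_
      rintro u rfl
      exact ⟨y1, rfl, rfl⟩
    have j2 : IsoOn M M' (Ic M y z) (Ic M' y' z') {(y, y')} := by
      refine (i2.symm.trans i2').mono ?_
      rintro u rfl
      exact ⟨y2, rfl, rfl⟩
    refine sum2Iso hM hM' (Lt M y) (Lt M' y') (empty_subset _) ?_ ?_ ?_ ?_ ?_
    · intro u _ hu v _ hv
      exact hM.lt_le hu hv
    · intro u _ hu v _ hv
      exact hM'.lt_le hu hv
    · intro u hu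
      exact absurd hu (notMem_empty u)
    · rw [genf_Lt hM h2, genf_Lt hM' h2']
      refine (resIsoLt (mem_singleton (y, y')) j1).mono ?_
      rintro u ⟨hu, _⟩
      exact absurd hu (notMem_empty u)
    · rw [genf_Ge hM h1, genf_Ge hM' h1']
      refine j2.mono ?_
      rintro u ⟨hu, _⟩
      exact absurd hu (notMem_empty u)

theorem genf_cnt (f : ℕ → St a × Set ℕ) (k : ℕ) : genfCnt (genfS f k) := by
  induction k with
  | zero =>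
    refine genf_cnt_iso ⟨f, ?_⟩
    rintro M X ⟨n, hn⟩
    refine ⟨n, ?_⟩
    rw [hn]
    exact iso_refl0
  | succ k ih =>
    exact genf_cnt_iso (genf_cnt_union ih (genf_cnt_union (genf_cnt_sub ih) (genf_cnt_glue ih)))

theorem genf_subset_iso (S : Set (St a × Set ℕ)) : S ⊆ genfIso S :=
  fun P hP => ⟨P, hP, iso_refl0⟩

theorem genf_iso_iso (S : Set (St a × Set ℕ)) {P Q : St a × Set ℕ} (h : P ∈ genfIso S)
    (hi : IsoOn P.1 Q.1 P.2 Q.2 ∅) : Q ∈ genfIso S := by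
  obtain ⟨R, hR, hj⟩ := h
  exact ⟨R, hR, iso_trans0 hj hi⟩

theorem genf_mono (f : ℕ → St a × Set ℕ) {k l : ℕ} (h : k ≤ l) : genfS f k ⊆ genfS f l := by
  induction l, h using Nat.le_induction with
  | base => exact Subset.rfl
  | succ l _ ih =>
    exact ih.trans (subset_union_left.trans (genf_subset_iso _))

end

theorem t_GENF : S_GENF := by
  intro a f
  refine ⟨⋃ k, genfS f k, ⟨?_, ?_, ?_, ?_⟩, fun n => ?_⟩
  · intro M X N Y hM hi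
    obtain ⟨k, hk⟩ := mem_iUnion.1 hM
    refine mem_iUnion.2 ⟨k, ?_⟩
    cases k with
    | zero => exact genf_iso_iso _ hk hi
    | succ k => exact genf_iso_iso _ hk hi
  · refine genf_code (C := ℕ × ℕ) _ (fun c P =>
      IsoOn ((genf_cnt f c.1).choose c.2).1 P.1 ((genf_cnt f c.1).choose c.2).2 P.2 ∅) ?_ ?_
    · intro P hP
      obtain ⟨k, hk⟩ := mem_iUnion.1 hP
      obtain ⟨n, hn⟩ := (genf_cnt f k).choose_spec P.1 P.2 hk
      exact ⟨(k, n), hn⟩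
    · rintro c P - Q - h1 h2
      exact iso_trans0 (iso_symm0 h1) h2
  · intro M hM x y x' y' hS h1 h2 h3
    obtain ⟨k, hk⟩ := mem_iUnion.1 hS
    refine mem_iUnion.2 ⟨k + 1, genf_subset_iso _ (Or.inr (Or.inl ?_))⟩
    exact ⟨M, x, y, x', y', rfl, hM, hk, h1, h2, h3⟩
  · intro M hM x y z h1 h2 hS hS'
    obtain ⟨k, hk⟩ := mem_iUnion.1 hS
    obtain ⟨l, hl⟩ := mem_iUnion.1 hS'
    refine mem_iUnion.2 ⟨max k l + 1, genf_subset_iso _ (Or.inr (Or.inr ?_))⟩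
    exact ⟨M, x, y, z, rfl, hM, h1, h2, genf_mono f (le_max_left k l) hk,
      genf_mono f (le_max_right k l) hl⟩
  · exact mem_iUnion.2 ⟨0, genf_subset_iso _ (mem_range_self n)⟩

end Pool.Agent.H533R2.VO
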