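import Pool.Agent.H533R2.VO.Spec

set_option autoImplicit false

namespace Pool.Agent.H533R2.VO

open Set
open Pool.Agent.H899R2.VP

theorem t_GENU (h : S_GENF) : S_GENU := by
  intro a ι _ F hF
  choose g hg using fun i => (hF i).cnt
  rcases isEmpty_or_nonempty ι with he | hne
  · obtain ⟨S, hS, -⟩ := h a (fun _ => ((fun _ _ => false, fun _ _ => false), ∅))
    exact ⟨S, hS, fun i => (he.false i).elim⟩
  · obtain ⟨e, he⟩ := exists_surjective_nat (ι × ℕ)
    obtain ⟨S, hS, hf⟩ := h a (fun n => g (e n).1 (e n).2)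
    refine ⟨S, hS, fun i => ?_⟩
    rintro ⟨M, X⟩ hMX
    obtain ⟨n, hn⟩ := hg i M X hMX
    obtain ⟨k, hk⟩ := he (i, n)
    have h1 : g i n ∈ S := by
      have := hf k
      rw [hk] at this
      exact this
    exact hS.iso _ _ M X h1 hn

end Pool.Agent.H533R2.VO
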