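import Pool.Agent.H533R2.VO.GLO

set_option autoImplicit false

/-! The glued structure is equivalent to `M`. -/

namespace Pool.Agent.H533R2.VO

open Set
open Pool.Agent.H899R2.VP

variable {a : ℕ → ℕ}

open Classical in
/-- The part of `z`. -/
noncomputable def glbpi {ι : Type} (M : St a) (lo hi : ι → ℕ) (z : ℕ) : Set ℕ :=
  if h : ∃ j, z ∈ Ic M (lo j) (hi j) then Ic M (lo h.choose) (hi h.choose) else Ic M z z

section

variable {ι : Type} {α : Ordinal.{0}} {M : St a} {lo hi : ι → ℕ} {T : ι → St a}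

theorem glbpi_in (hG : GA α M lo hi T) {j : ι} {z : ℕ} (hz : z ∈ Ic M (lo j) (hi j)) :
    glbpi M lo hi z = Ic M (lo j) (hi j) := by
  have h : ∃ j, z ∈ Ic M (lo j) (hi j) := ⟨j, hz⟩
  have h1 : glbpi M lo hi z = Ic M (lo h.choose) (hi h.choose) := by
    unfold glbpi
    rw [dif_pos h]
  rw [h1]
  by_cases he : h.choose = j
  · rw [he]
  · exact absurd hz (Set.disjoint_left.1 (hG.dj _ _ he) h.choose_spec)

theorem glbpi_out {z : ℕ} (hz : ¬ ∃ j, z ∈ Ic M (lo j) (hi j)) :
    glbpi M lo hi z = Ic M z z := by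
  unfold glbpi
  rw [dif_neg hz]

theorem glbpi_self (hG : GA α M lo hi T) (z : ℕ) : z ∈ glbpi M lo hi z := by
  by_cases h : ∃ j, z ∈ Ic M (lo j) (hi j)
  · obtain ⟨j, hj⟩ := h
    rw [glbpi_in hG hj]
    exact hj
  · rw [glbpi_out h]
    exact ⟨hG.os.irr z, hG.os.irr z⟩

theorem glbpi_form (hG : GA α M lo hi T) (z : ℕ) : ∃ l h, glbpi M lo hi z = Ic M l h := by
  by_cases h : ∃ j, z ∈ Ic M (lo j) (hi j)
  · obtain ⟨j, hj⟩ := h
    exact ⟨_, _, glbpi_in hG hj⟩
  · exact ⟨_, _, glbpi_out h⟩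

/-- Members of an `Ic M z z`. -/
theorem glbeq (hM : OS M) {z w : ℕ} (hw : w ∈ Ic M z z) : Ic M w w = Ic M z z := by
  ext v
  constructor
  · rintro ⟨h1, h2⟩
    exact ⟨hM.le_trans hw.1 h1, hM.le_trans h2 hw.2⟩
  · rintro ⟨h1, h2⟩
    exact ⟨hM.le_trans hw.2 h1, hM.le_trans h2 hw.1⟩

theorem glbpi_eq (hG : GA α M lo hi T) {z w : ℕ} (hw : w ∈ glbpi M lo hi z) :
    glbpi M lo hi w = glbpi M lo hi z := by
  have hM := hG.os
  by_cases h : ∃ j, z ∈ Ic M (lo j) (hi j)
  · obtain ⟨j, hj⟩ := h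
    rw [glbpi_in hG hj] at hw ⊢
    exact glbpi_in hG hw
  · rw [glbpi_out h] at hw ⊢
    have h' : ¬ ∃ j, w ∈ Ic M (lo j) (hi j) := by
      rintro ⟨j, hj⟩
      refine h ⟨j, ?_⟩
      by_contra hz
      rcases gloconv hM hj hz with h1 | h1
      · exact hw.2 h1.1
      · exact hw.1 h1.1
    rw [glbpi_out h']
    exact glbeq hM hw

theorem glbpi_fib (hG : GA α M lo hi T) (z : ℕ) :
    {x | x ∈ (univ : Set ℕ) ∧ glbpi M lo hi x = glbpi M lo hi z} = glbpi M lo hi z := by
  ext w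
  constructor
  · rintro ⟨-, h⟩
    rw [← h]
    exact glbpi_self hG w
  · intro h
    exact ⟨mem_univ _, glbpi_eq hG h⟩

theorem glbpi_adj (hG : GA α M lo hi T) {x y : ℕ} (hne : glbpi M lo hi x ≠ glbpi M lo hi y) :
    Adj M x y ↔ ∃ x0 ∈ glbpi M lo hi x, ∃ y0 ∈ glbpi M lo hi y, Adj M x0 y0 := by
  have hM := hG.os
  constructor
  · intro h
    exact ⟨x, glbpi_self hG x, y, glbpi_self hG y, h⟩
  · rintro ⟨x0, hx0, y0, hy0, h⟩
    obtain ⟨l, h', e⟩ := glbpi_form hG x
    obtain ⟨l2, h2, e2⟩ := glbpi_form hG y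
    have n1 : y0 ∉ glbpi M lo hi x := fun hc => hne ((glbpi_eq hG hc).symm.trans (glbpi_eq hG hy0))
    have n2 : x ∉ glbpi M lo hi y := fun hc => hne (glbpi_eq hG hc)
    have hx := glbpi_self hG x
    have hy := glbpi_self hG y
    rw [e] at n1 hx hx0
    rw [e2] at n2 hy hy0
    have h3 : Adj M x y0 := gloup hM hx0 hx n1 h
    exact glodn hM hy0 hy n2 h3

theorem glbpi_tup (hG : GA α M lo hi T) {i : ℕ} {t : Fin (a i) → ℕ} (ht : M.2 i t = true)
    (j k : Fin (a i)) : glbpi M lo hi (t j) = glbpi M lo hi (t k) := by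
  have hM := hG.os
  refine glbpi_eq hG ?_
  obtain ⟨l, h', e⟩ := glbpi_form hG (t k)
  have hk := glbpi_self hG (t k)
  rw [e] at hk ⊢
  by_contra hc
  rcases gloconv hM hk hc with h1 | h1
  · exact hM.loc i t ht j k h1.1
  · exact hM.loc i t ht k j h1.1

end

theorem t_GLB (h2 : S_GLF) : S_GLB := by
  intro a ι α M lo hi T hG
  have hM := hG.os
  refine sumBF (glbpi M lo hi) (glbpi M lo hi)
    (fun A B => ∃ x0 ∈ A, ∃ y0 ∈ B, Adj M x0 y0) (empty_subset _) ?_ ?_ ?_ ?_ ?_ ?_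
  · intro x _ y _ hne
    exact glbpi_adj hG hne
  · intro x _ y _ hne
    rw [gloN]
    · exact glbpi_adj hG hne
    · rintro ⟨j, hx, hy⟩
      exact hne ((glbpi_in hG hx).trans (glbpi_in hG hy).symm)
  · intro i t ht _ j k
    exact glbpi_tup hG ht j k
  · intro i t ht _ j k
    by_cases h : Nonempty (Fin (a i)) ∧ ∃ j, ∀ k, t k ∈ Ic M (lo j) (hi j)
    · obtain ⟨-, j', hj'⟩ := h
      rw [glbpi_in hG (hj' j), glbpi_in hG (hj' k)]
    · rw [Glu_rel' (J := fun j => Ic M (lo j) (hi j)) h] at ht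
      exact glbpi_tup hG ht j k
  · intro u hu
    exact absurd hu (by simp)
  · intro c
    have he : {u : ℕ × ℕ | u ∈ (∅ : Set (ℕ × ℕ)) ∧ glbpi M lo hi u.1 = c} = ∅ := by
      ext u
      simp
    rw [he]
    by_cases hc : ∃ z, glbpi M lo hi z = c
    · obtain ⟨z, rfl⟩ := hc
      rw [glbpi_fib hG z]
      by_cases h : ∃ j, z ∈ Ic M (lo j) (hi j)
      · obtain ⟨j, hj⟩ := h
        rw [glbpi_in hG hj]
        exact bf_comp0 (hG.bf j)
          ((((h2 a ι α M lo hi T hG).2.2 j).mono (empty_subset _)).bf α)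
      · have hpi := glbpi_out (M := M) (lo := lo) (hi := hi) h
        have hout : ∀ w ∈ glbpi M lo hi z, ∀ j, w ∉ Ic M (lo j) (hi j) := by
          intro w hw j hj
          have h3 := glbpi_eq hG hw
          rw [glbpi_in hG hj] at h3
          refine h ⟨j, ?_⟩
          rw [h3]
          exact glbpi_self hG z
        refine ((iso_congr ?_ ?_).mono (empty_subset _)).bf α
        · intro x hx y hy
          have h3 : Adj (GD M lo hi T) x y ↔ Adj M x y :=
            gloN fun ⟨j, hj, _⟩ => hout x hx j hj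
          unfold Adj at h3
          exact (Bool.eq_iff_iff.2 h3).symm
        · intro i t ht
          refine (Glu_rel' (J := fun j => Ic M (lo j) (hi j)) ?_).symm
          rintro ⟨⟨k⟩, j, hj⟩
          exact hout (t k) (ht k) j (hj k)
    · have he2 : {x | x ∈ (univ : Set ℕ) ∧ glbpi M lo hi x = c} = ∅ := by
        ext x
        constructor
        · rintro ⟨-, h⟩
          exact absurd ⟨x, h⟩ hc
        · intro h
          exact absurd h (by simp)
      rw [he2]
      refine BF_of_total (q := ∅) (empty_subset _) ⟨?_, ?_, ?_⟩ ?_ ?_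
      · intro u hu
        exact absurd hu (by simp)
      · intro u hu
        exact absurd hu (by simp)
      · intro i t ht
        have hne : ¬ Nonempty (Fin (a i)) := fun ⟨k⟩ => absurd (ht k) (by simp)
        have h3 : (fun k => (t k).1) = fun k => (t k).2 := funext fun k => absurd ⟨k⟩ hne
        rw [h3]
        exact (Glu_rel' (J := fun j => Ic M (lo j) (hi j)) fun h => hne h.1).symm
      · intro x hx
        exact absurd hx (by simp)
      · intro x hx
        exact absurd hx (by simp)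

end Pool.Agent.H533R2.VO
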