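import Pool.Agent.H533R2.VO.Spec
set_option autoImplicit false
namespace Pool.Agent.H533R2.VO
open Set
open Pool.Agent.H899R2.VP

theorem glf1 {a : ℕ → ℕ} {ι : Type} {α : Ordinal.{0}} {M : St a} {lo hi : ι → ℕ}
    {T : ι → St a} (h : GA α M lo hi T) (j : ι) {x y : ℕ} (hx : x ∈ Ic M (lo j) (hi j))
    (hy : y ∉ Ic M (lo j) (hi j)) :
    (Adj (GD M lo hi T) x y ↔ Adj M x y) ∧ (Adj (GD M lo hi T) y x ↔ Adj M y x) := by
  constructor
  · apply Glu_adj'
    intro i hi' hy'
    by_cases hij : i = j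
    · subst hij
      exact hy hy'
    · exact Set.disjoint_left.1 (h.dj i j hij) hi' hx
  · apply Glu_adj'
    intro i hi' hx'
    by_cases hij : i = j
    · subst hij
      exact hy hi'
    · exact Set.disjoint_left.1 (h.dj i j hij) hx' hx

theorem t_GLF : S_GLF := by
  intro a ι α M lo hi T h
  refine ⟨fun j x hx y hy => glf1 h j hx hy, ?_, ?_⟩
  · intro j x hx y hy
    have hadj : ∀ {u v : ℕ}, u ∈ Ic M (lo j) (hi j) → v ∈ Ic M (lo j) (hi j) →
        (Adj (GD M lo hi T) u v ↔ Adj (T j) u v) := by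
      intro u v hu hv
      exact Glu_adj (J := fun j => Ic M (lo j) (hi j)) h.dj (j := j) hu hv
    ext z
    constructor
    · intro hz
      by_cases hzJ : z ∈ Ic M (lo j) (hi j)
      · refine ⟨hzJ, ?_, ?_⟩
        · exact fun h1 => hz.1 ((hadj hzJ hx).2 h1)
        · exact fun h1 => hz.2 ((hadj hy hzJ).2 h1)
      · exfalso
        have h1 : ¬ Adj M z x := fun h1 => hz.1 ((glf1 h j hx hzJ).2.2 h1)
        have h2 : ¬ Adj M y z := fun h1 => hz.2 ((glf1 h j hy hzJ).1.2 h1)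
        exact hzJ ⟨h.os.le_trans hx.1 h1, h.os.le_trans h2 hy.2⟩
    · rintro ⟨hzJ, hz1, hz2⟩
      exact ⟨fun h1 => hz1 ((hadj hzJ hx).1 h1), fun h1 => hz2 ((hadj hy hzJ).1 h1)⟩
  · intro j
    refine ⟨idOn (Ic M (lo j) (hi j)), subset_rfl, ?_, ?_, ?_, ?_⟩
    · rintro ⟨u, v⟩ ⟨h1, h2⟩
      simp only at h1 h2
      subst h1
      exact ⟨h2, h2⟩
    · refine ⟨?_, ?_, ?_⟩
      · rintro ⟨u, u'⟩ ⟨h1, _⟩ ⟨v, v'⟩ ⟨h2, _⟩
        simp only at h1 h2
        subst h1 h2
        exact Iff.rfl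
      · rintro ⟨u, u'⟩ ⟨h1, hu⟩ ⟨v, v'⟩ ⟨h2, hv⟩
        simp only at h1 h2 hu hv
        subst h1 h2
        have h3 : Adj (GD M lo hi T) u v ↔ Adj (T j) u v :=
          Glu_adj (J := fun j => Ic M (lo j) (hi j)) h.dj (j := j) hu hv
        exact (Bool.eq_iff_iff.2 h3).symm
      · intro i t ht
        have h1 : (fun k => (t k).1) = fun k => (t k).2 := funext fun k => (ht k).1
        by_cases hne : Nonempty (Fin (a i))
        · have h2 : (GD M lo hi T).2 i (fun k => (t k).2) = (T j).2 i (fun k => (t k).2) :=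
            Glu_rel (J := fun j => Ic M (lo j) (hi j)) h.dj (j := j) hne
              (fun k => (ht k).1 ▸ (ht k).2)
          rw [h1]
          exact h2.symm
        · have h2 : (GD M lo hi T).2 i (fun k => (t k).2) = M.2 i (fun k => (t k).2) :=
            Glu_rel' (J := fun j => Ic M (lo j) (hi j)) (fun h3 => hne h3.1)
          have h3 := (h.bf j).piso.2.2 i t (fun k => absurd ⟨k⟩ hne)
          rw [h1] at h3 ⊢
          rw [h2, h3]
    · exact fun x hx => ⟨x, rfl, hx⟩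
    · exact fun x hx => ⟨x, rfl, hx⟩

end Pool.Agent.H533R2.VO
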