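import Pool.Agent.H533R2.VO.Spec

set_option autoImplicit false

/-! The glued structure is ordered. -/

namespace Pool.Agent.H533R2.VO

open Set
open Pool.Agent.H899R2.VP

variable {a : ℕ → ℕ}

/-- A point outside a closed interval is below or above all of it. -/
theorem gloconv {M : St a} (hM : OS M) {l h x y : ℕ} (hx : x ∈ Ic M l h) (hy : y ∉ Ic M l h) :
    (Adj M y x ∧ ∀ w ∈ Ic M l h, Adj M y w) ∨ (Adj M x y ∧ ∀ w ∈ Ic M l h, Adj M w y) := by
  have hy' : Adj M y l ∨ Adj M h y := by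
    by_contra hc
    rw [not_or] at hc
    exact hy ⟨hc.1, hc.2⟩
  rcases hy' with h1 | h1
  · left
    have h2 : ∀ w ∈ Ic M l h, Adj M y w := fun w hw => hM.lt_le h1 hw.1
    exact ⟨h2 x hx, h2⟩
  · right
    have h2 : ∀ w ∈ Ic M l h, Adj M w y := fun w hw => hM.le_lt hw.2 h1
    exact ⟨h2 x hx, h2⟩

theorem gloup {M : St a} (hM : OS M) {l h x w y : ℕ} (hx : x ∈ Ic M l h) (hw : w ∈ Ic M l h)
    (hy : y ∉ Ic M l h) (h1 : Adj M x y) : Adj M w y := by
  rcases gloconv hM hx hy with h2 | h2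
  · exact absurd h2.1 (hM.asymm h1)
  · exact h2.2 w hw

theorem glodn {M : St a} (hM : OS M) {l h x w y : ℕ} (hx : x ∈ Ic M l h) (hw : w ∈ Ic M l h)
    (hy : y ∉ Ic M l h) (h1 : Adj M y x) : Adj M y w := by
  rcases gloconv hM hx hy with h2 | h2
  · exact h2.2 w hw
  · exact absurd h2.1 (hM.asymm h1)

section

variable {ι : Type} {α : Ordinal.{0}} {M : St a} {lo hi : ι → ℕ} {T : ι → St a}

theorem gloM (hG : GA α M lo hi T) {j : ι} {x y : ℕ} (hx : x ∈ Ic M (lo j) (hi j))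
    (hy : y ∉ Ic M (lo j) (hi j)) :
    (Adj (GD M lo hi T) x y ↔ Adj M x y) ∧ (Adj (GD M lo hi T) y x ↔ Adj M y x) := by
  constructor
  · refine Glu_adj' fun j' hj' => ?_
    by_cases h : j' = j
    · rw [h]; exact hy
    · exact absurd hx (Set.disjoint_left.1 (hG.dj j' j h) hj')
  · refine Glu_adj' fun j' hj' hj'' => ?_
    by_cases h : j' = j
    · rw [h] at hj'; exact hy hj'
    · exact Set.disjoint_left.1 (hG.dj j' j h) hj'' hx

theorem gloT (hG : GA α M lo hi T) {j : ι} {x y : ℕ} (hx : x ∈ Ic M (lo j) (hi j))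
    (hy : y ∈ Ic M (lo j) (hi j)) :
    Adj (GD M lo hi T) x y ↔ Adj (T j) x y :=
  Glu_adj (J := fun j => Ic M (lo j) (hi j)) hG.dj hx hy

theorem gloN {x y : ℕ} (h : ¬ ∃ j, x ∈ Ic M (lo j) (hi j) ∧ y ∈ Ic M (lo j) (hi j)) :
    Adj (GD M lo hi T) x y ↔ Adj M x y :=
  Glu_adj' fun j hj hj' => h ⟨j, hj, hj'⟩

end

theorem t_GLO : S_GLO := by
  intro a ι α M lo hi T hG
  have hM := hG.os
  refine ⟨?_, ?_, ?_, ?_⟩
  · intro x hx
    by_cases h : ∃ j, x ∈ Ic M (lo j) (hi j) ∧ x ∈ Ic M (lo j) (hi j)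
    · obtain ⟨j, hj, -⟩ := h
      exact (hG.osT j).irr x ((gloT hG hj hj).1 hx)
    · exact hM.irr x ((gloN h).1 hx)
  · intro x y z h1 h2
    by_cases h : ∃ j, x ∈ Ic M (lo j) (hi j) ∧ y ∈ Ic M (lo j) (hi j)
    · obtain ⟨j, hx, hy⟩ := h
      by_cases hz : z ∈ Ic M (lo j) (hi j)
      · rw [gloT hG hx hy] at h1
        rw [gloT hG hy hz] at h2
        rw [gloT hG hx hz]
        exact (hG.osT j).tr x y z h1 h2
      · rw [(gloM hG hy hz).1] at h2
        rw [(gloM hG hx hz).1]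
        exact gloup hM hy hx hz h2
    · have h1' := (gloN h).1 h1
      by_cases h' : ∃ j, y ∈ Ic M (lo j) (hi j) ∧ z ∈ Ic M (lo j) (hi j)
      · obtain ⟨j, hy, hz⟩ := h'
        have hx : x ∉ Ic M (lo j) (hi j) := fun hx => h ⟨j, hx, hy⟩
        rw [(gloM hG hz hx).2]
        exact glodn hM hy hz hx h1'
      · have h2' := (gloN h').1 h2
        have h3 := hM.tr x y z h1' h2'
        by_cases h'' : ∃ j, x ∈ Ic M (lo j) (hi j) ∧ z ∈ Ic M (lo j) (hi j)
        · obtain ⟨j, hx, hz⟩ := h''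
          have hy : y ∉ Ic M (lo j) (hi j) := fun hy => h ⟨j, hx, hy⟩
          exact absurd (gloup hM hx hz hy h1') (hM.asymm h2')
        · exact (gloN h'').2 h3
  · intro x y z h1
    by_cases h : ∃ j, x ∈ Ic M (lo j) (hi j) ∧ z ∈ Ic M (lo j) (hi j)
    · obtain ⟨j, hx, hz⟩ := h
      by_cases hy : y ∈ Ic M (lo j) (hi j)
      · rw [gloT hG hx hz] at h1
        rw [gloT hG hx hy, gloT hG hy hz]
        exact (hG.osT j).ntr x y z h1
      · rw [(gloM hG hx hy).1, (gloM hG hz hy).2]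
        rcases gloconv hM hx hy with h2 | h2
        · exact Or.inr (h2.2 z hz)
        · exact Or.inl h2.1
    · have h1' := (gloN h).1 h1
      rcases hM.ntr x y z h1' with h2 | h2
      · by_cases h' : ∃ j, x ∈ Ic M (lo j) (hi j) ∧ y ∈ Ic M (lo j) (hi j)
        · obtain ⟨j, hx, hy⟩ := h'
          have hz : z ∉ Ic M (lo j) (hi j) := fun hz => h ⟨j, hx, hz⟩
          right
          rw [(gloM hG hy hz).1]
          exact gloup hM hx hy hz h1'
        · exact Or.inl ((gloN h').2 h2)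
      · by_cases h' : ∃ j, y ∈ Ic M (lo j) (hi j) ∧ z ∈ Ic M (lo j) (hi j)
        · obtain ⟨j, hy, hz⟩ := h'
          have hx : x ∉ Ic M (lo j) (hi j) := fun hx => h ⟨j, hx, hz⟩
          left
          rw [(gloM hG hy hx).2]
          exact glodn hM hz hy hx h1'
        · exact Or.inr ((gloN h').2 h2)
  · intro i t ht p q
    by_cases h : Nonempty (Fin (a i)) ∧ ∃ j, ∀ k, t k ∈ Ic M (lo j) (hi j)
    · obtain ⟨hi', j, hj⟩ := h
      rw [Glu_rel (J := fun j => Ic M (lo j) (hi j)) hG.dj hi' hj] at ht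
      rw [gloT hG (hj p) (hj q)]
      exact (hG.osT j).loc i t ht p q
    · rw [Glu_rel' (J := fun j => Ic M (lo j) (hi j)) h] at ht
      have h1 := hM.loc i t ht
      rw [gloN]
      · exact h1 p q
      · rintro ⟨j, hp, -⟩
        refine h ⟨⟨p⟩, j, fun k => ?_⟩
        by_contra hk
        rcases gloconv hM hp hk with h2 | h2
        · exact h1 k p h2.1
        · exact h1 p k h2.1

end Pool.Agent.H533R2.VO
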