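import Pool.Agent.H533R2.VO.Spec

set_option autoImplicit false

/-! H5: matchings exist. -/

namespace Pool.Agent.H533R2.VO

open Set
open Pool.Agent.H899R2.VP

theorem t_H5 : S_H5 := by
  intro a S l n k M M' u u' x x' y hS hl hln hnk hM hM' hx hy hyx hb
  have hk : 0 < k := lt_of_le_of_lt bot_le hnk
  have hu : u ∈ Lw S M u := Lw_base hS hM hy
  have hu' : u' ∈ Lw S M' u' := bf_mem_right hk hb (Or.inl rfl) hu
  obtain ⟨y', hy', hb'⟩ := hb.forth hnk hy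
  have m1 : (y, y') ∈ (insert (y, y') {(u, u'), (x, x')} : Set (ℕ × ℕ)) := Or.inl rfl
  have m2 : (u, u') ∈ (insert (y, y') {(u, u'), (x, x')} : Set (ℕ × ℕ)) := Or.inr (Or.inl rfl)
  have m3 : (x, x') ∈ (insert (y, y') {(u, u'), (x, x')} : Set (ℕ × ℕ)) := Or.inr (Or.inr rfl)
  have h1 := resIc m2 m1 hb'
  rw [Lw_inter_Ic hS hM hu hy, Lw_inter_Ic hS hM' hu' hy'] at h1
  have hp := hb'.piso
  have h2 : ¬ Adj M' x' u' := fun h => hx.1 ((hp.adj m3 m2).2 h)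
  have h3 : ¬ Adj M' y' x' := fun h => hyx ((hp.adj m1 m3).2 h)
  have hsub : (insert (y, y') {(u, u'), (x, x')} : Set (ℕ × ℕ)) ⊆ Ic M u y ×ˢ Ic M' u' y' := by
    rintro w (rfl | rfl | rfl)
    · exact ⟨right_mem_Ic hM hy.1, right_mem_Ic hM' hy'.1⟩
    · exact ⟨left_mem_Ic hM hy.1, left_mem_Ic hM' hy'.1⟩
    · exact ⟨⟨hx.1, hyx⟩, ⟨h2, h3⟩⟩
  have hfin : (insert (y, y') {(u, u'), (x, x')} : Set (ℕ × ℕ)).Finite :=
    (((Set.finite_singleton _).insert _).insert _)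
  obtain ⟨q, q1, q2, q3, q4, q5⟩ := hl M (Ic M u y) M' (Ic M' u' y') _ hy.2 hfin hsub
    (h1.mono hln)
  refine ⟨y', q, ⟨hy, hy', q2, q3, q4, q5, q1 m2, q1 m1, ?_⟩, q1 m3⟩
  exact (resGe m1 hb').subset (Set.singleton_subset_iff.2 m1)

end Pool.Agent.H533R2.VO
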