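import Pool.Agent.H533R2.VO.Spec

set_option autoImplicit false

/-! INL: the equivalence of `M` and `M'` restricts to `Lw`. -/

namespace Pool.Agent.H533R2.VO

open Set
open Pool.Agent.H899R2.VP

theorem inlkey {a : ℕ → ℕ} {S : Set (St a × Set ℕ)} {l : Ordinal.{0}} {M M' : St a}
    {u u' x x' : ℕ} {p : Set (ℕ × ℕ)} (hS : Fam S) (hL : Lev S l)
    (hb : BF M M' univ univ l (insert (x, x') p)) (hu : (u, u') ∈ p) (hx : x ∈ Lw S M u) :
    x' ∈ Lw S M' u' := by
  have h1 : (x, x') ∈ insert (x, x') p := mem_insert _ _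
  have h2 : (u, u') ∈ insert (x, x') p := mem_insert_of_mem _ hu
  refine ⟨fun h => hx.1 ((hb.piso.adj h1 h2).2 h), ?_⟩
  have h3 := (resIc h2 h1 hb).subset (empty_subset _)
  rw [univ_inter, univ_inter] at h3
  exact hS.iso _ _ _ _ hx.2 (hL _ _ _ _ ∅ hx.2 finite_empty (empty_subset _) h3)

theorem t_INL : S_INL := by
  intro a S l o M M' u u' p hS hL hM hM' hb hu
  induction o using WellFoundedLT.induction generalizing p with
  | ind o ih =>
    rw [BF_iff]
    refine ⟨hb.piso, fun o' ho' => ⟨fun x hx => ?_, fun y hy => ?_⟩⟩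
    · have hlt : l + o' < l + o := by gcongr
      obtain ⟨x', _, hb'⟩ := hb.forth hlt (mem_univ x)
      have hb2 : BF M M' univ univ l (insert (x, x') p) := hb'.mono le_self_add
      exact ⟨x', inlkey hS hL hb2 hu hx, ih o' ho' _ hb' (mem_insert_of_mem _ hu)⟩
    · have hlt : l + o' < l + o := by gcongr
      obtain ⟨x, _, hb'⟩ := hb.back hlt (mem_univ y)
      have hb2 : BF M M' univ univ l (insert (x, y) p) := hb'.mono le_self_add
      have hb3 := hb2.symm
      rw [inv_insert] at hb3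
      exact ⟨x, inlkey hS hL hb3 (mem_inv'.2 hu) hy, ih o' ho' _ hb' (mem_insert_of_mem _ hu)⟩

end Pool.Agent.H533R2.VO
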