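import Pool.Agent.H533R2.VO.Spec
import Pool.Agent.H899R2.VP.Dst
set_option autoImplicit false
namespace Pool.Agent.H533R2.VO
open Set
open Pool.Agent.H899R2.VP

theorem t_LAB : S_LAB := by
  intro a α K hK β hβ
  exact labels hK.meas hK.few β hβ

end Pool.Agent.H533R2.VO
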