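import Pool.Agent.H533R2.VO.Spec

set_option autoImplicit false

namespace Pool.Agent.H533R2.VO

open Set
open Pool.Agent.H899R2.VP

theorem lhf_dn {a : ℕ → ℕ} {M : St a} {lo hi : ℕ → ℕ → ℕ} (h : LH M lo hi) (n k : ℕ) :
    ∀ k', k < k' → Adj M (hi n k') (lo n k) := by
  intro k' hk
  induction k', hk using Nat.le_induction with
  | base => exact h.dn n k
  | succ k' _ ih =>
    exact h.os.tr _ _ _ (h.dn n k') (h.os.tr _ _ _ (h.lt n k') ih)

theorem lhf_up {a : ℕ → ℕ} {M : St a} {lo hi : ℕ → ℕ → ℕ} (h : LH M lo hi) (m k : ℕ) :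
    ∀ n, m < n → ∀ j, Adj M (hi m k) (lo n j) := by
  intro n hn
  induction n, hn using Nat.le_induction with
  | base => exact fun j => h.up m k j
  | succ n _ ih =>
    intro j
    exact h.os.tr _ _ _ (ih 0) (h.os.tr _ _ _ (h.lt n 0) (h.up n 0 j))

theorem lhf_dj {a : ℕ → ℕ} {M : St a} {lo hi : ℕ → ℕ → ℕ} (h : LH M lo hi) (m k n l : ℕ)
    (hlt : Adj M (hi m k) (lo n l)) :
    Disjoint (Ic M (lo m k) (hi m k)) (Ic M (lo n l) (hi n l)) := by
  rw [Set.disjoint_left]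
  intro z hz hz'
  exact hz'.1 (h.os.le_lt hz.2 hlt)

theorem t_LHF : S_LHF := by
  intro a M lo hi h
  have hO := h.os
  refine ⟨?_, ?_, ?_, ?_, ?_, ?_⟩
  · rintro ⟨m, k⟩ ⟨n, l⟩ hne
    show Disjoint (Ic M (lo m k) (hi m k)) (Ic M (lo n l) (hi n l))
    rcases lt_trichotomy m n with h1 | h1 | h1
    · exact lhf_dj h m k n l (lhf_up h m k n h1 l)
    · subst h1
      rcases lt_trichotomy k l with h2 | h2 | h2
      · exact (lhf_dj h m l m k (lhf_dn h m k l h2)).symm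
      · exact absurd (by rw [h2]) hne
      · exact lhf_dj h m k m l (lhf_dn h m l k h2)
    · exact (lhf_dj h n l m k (lhf_up h n l m h1 k)).symm
  · intro m n k hmn z hz j
    exact hO.le_lt hz.2 (lhf_up h m k n hmn j)
  · intro n k z hz m hmn hE
    rcases Nat.lt_or_eq_of_le hmn with h1 | h1
    · have h2 : Adj M (lo m 0) (lo n k) := hO.tr _ _ _ (h.lt m 0) (lhf_up h m 0 n h1 k)
      exact hz.1 (hO.tr _ _ _ (hE 0) h2)
    · subst h1
      exact hz.1 (hE k)
  · intro m n hmn z hz j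
    rcases Nat.lt_or_eq_of_le hmn with h1 | h1
    · exact hO.tr _ _ _ (hz 0) (hO.tr _ _ _ (h.lt m 0) (lhf_up h m 0 n h1 j))
    · subst h1
      exact hz j
  · intro m n hmn
    refine ⟨lo m 0, fun k => hO.tr _ _ _ (h.lt m 0) (lhf_up h m 0 n hmn k), fun hE => ?_⟩
    exact hO.irr _ (hE 0)
  · intro n z hz
    have h1 : ∃ k, ¬ Adj M z (lo n k) := by
      by_contra hcon
      push Not at hcon
      exact hz hcon
    obtain ⟨k, hk⟩ := h1
    exact ⟨k + 1, fun w hw => hO.lt_le (hO.le_lt hw.2 (h.dn n k)) hk⟩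

end Pool.Agent.H533R2.VO
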