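import Pool.Agent.H533R2.VO.Spec

set_option autoImplicit false

/-! Locality of the rank. -/

namespace Pool.Agent.H533R2.VO

open Set
open Pool.Agent.H899R2.VP

theorem t_LOCRK (h : S_CLT) : S_LOCRK := by
  intro a S m n o M M' u u' x x' e e' y y' φ hS hM hM' hmn hφ hx he hxy hr
  induction o using WellFoundedLT.induction generalizing x x' with
  | ind o ih =>
    rw [Rk] at hr ⊢
    intro o' ho'
    obtain ⟨x1, hx1, hx1e, hcl, hrk⟩ := hr o' ho'
    have heI := (hφ.subset he).1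
    have hxI := (hφ.subset hx).1
    have hx1y : Adj M x1 y := hM.lt_le hx1e heI.2
    have hx1I : x1 ∈ Ic M u y := ⟨hM.le_trans hxI.1 hx1.2, hM.asymm hx1y⟩
    obtain ⟨x1', hx1'⟩ := hφ.total x1 hx1I
    refine ⟨x1', ⟨Lw_Ic hS hM' hφ.memR (hφ.subset hx1').2, ?_⟩, ?_, ?_, ?_⟩
    · exact fun h4 => hx1.2 ((hφ.piso.adj hx1' hx).2 h4)
    · exact (hφ.piso.adj hx1' he).1 hx1e
    · exact h a S m n M M' u u' x x' x1 x1' y y' φ hS hM hM' hmn hφ hx hx1' hxy hcl
    · exact ih o' ho' x1 x1' hx1' hx1y hrk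

end Pool.Agent.H533R2.VO
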