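import Pool.Agent.H533R2.VO.Spec

set_option autoImplicit false

/-! MAIN: countably many types.  helper329. -/

namespace Pool.Agent.H533R2.VO

open Set
open Pool.Agent.H899R2.VP

theorem main_trans {a : ℕ → ℕ} {S : Set (St a × Set ℕ)} (hS : Fam S) {M : St a} (hM : OS M)
    (x y z : ℕ) (h1 : Bg S M x y) (h2 : Bg S M y z) : Bg S M x z := by
  refine ⟨hM.tr x y z h1.1 h2.1, fun h => h1.2 ?_⟩
  exact hS.sub M hM x z x y h (hM.irr x) (hM.asymm h1.1) (hM.asymm h2.1)

theorem main_meas_adj {a : ℕ → ℕ} (x y : ℕ) : MeasurableSet {M : St a | Adj M x y} := by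
  have h : Measurable (fun M : St a => M.1 x y) :=
    (measurable_pi_apply y).comp ((measurable_pi_apply x).comp measurable_fst)
  exact h (measurableSet_singleton true)

theorem t_MAIN (h1 : S_BASE) (h2 : S_LEV) (h3 : S_MEAS2) (h4 : S_BL) (h5 : S_DYA) (h6 : S_CODE)
    (h7 : S_CNT) (h8 : S_END) : S_MAIN := by
  intro a α K hG hB
  obtain ⟨S, hS, hSb, hSsmall⟩ := h1 a α K hG hB
  by_cases hall : ∀ ξ : Ordinal.{0}, ξ < Ordinal.omega 1 → ∃ M ∈ K, ∃ x y, Rr (Bg S M) ξ x y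
  · exfalso
    obtain ⟨l, hl, -, hlev⟩ := h2 a S hS
    have hmeas : ∀ x y, MeasurableSet {M : St a | M ∈ K ∧ Bg S M x y} := by
      intro x y
      have e : {M : St a | M ∈ K ∧ Bg S M x y} =
          K ∩ ({M : St a | Adj M x y} ∩ {M : St a | (M, Ic M x y) ∈ S}ᶜ) := by
        ext M
        exact Iff.rfl
      rw [e]
      exact hG.meas.inter ((main_meas_adj x y).inter (h3 a S l hS hlev hl x y).compl)
    obtain ⟨M, hM, P, hP1, hP2⟩ := h4 a K (fun M => Bg S M) hG.meas hmeas hall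
    obtain ⟨lo, hi, hlt, hdn, hup⟩ := h5 (Bg S M) P (main_trans hS (hG.os M hM)) hP1 hP2
    have hLH : LH M lo hi := ⟨hG.os M hM, fun n k => (hlt n k).1, fun n k => (hdn n k).1,
      fun n k j => (hup n k j).1⟩
    exact h6 a α K hG M hM lo hi hLH (fun n k => hSsmall M hM _ _ (hlt n k).1 (hlt n k).2)
  · push Not at hall
    obtain ⟨ξ, hξ, hno⟩ := hall
    obtain ⟨S', hS', hsub, hS'b⟩ := h7 a α K S hG hS hSb ξ hξ
    exact h8 a α K S' hG hS' (fun M hM x => hsub (hSb M hM x))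
      (fun M hM x y hxy => hS'b M hM x y hxy (hno M hM x y))

end Pool.Agent.H533R2.VO
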