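import Pool.Agent.H533R2.VO.Spec

set_option autoImplicit false

namespace Pool.Agent.H533R2.VO

open Set
open Pool.Agent.H899R2.VP

theorem t_MEAS2 (h : S_MEAS1) : S_MEAS2 := by
  intro a S l hS hl hl1 x y
  obtain ⟨f, hf⟩ := hS.cnt
  have hZ : ∀ z, MeasurableSet {M : St a | z ∈ Ic M x y} := by
    intro z
    have h1 : ∀ v w : ℕ, Measurable fun M : St a => M.1 v w := by
      intro v w
      fun_prop
    have h2 : ∀ v w : ℕ, MeasurableSet {M : St a | ¬ Adj M v w} := by
      intro v w
      have h3 : {M : St a | ¬ Adj M v w} = (fun M : St a => M.1 v w) ⁻¹' {true}ᶜ := by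
        ext M
        simp [Adj]
      rw [h3]
      exact h1 v w (measurableSet_singleton _).compl
    exact (h2 z x).inter (h2 y z)
  have he : {M : St a | (M, Ic M x y) ∈ S} =
      ⋃ n ∈ {n : ℕ | f n ∈ S}, {M : St a | BF (f n).1 M (f n).2 (Ic M x y) l ∅} := by
    ext M
    simp only [Set.mem_iUnion]
    constructor
    · intro hM
      obtain ⟨n, hn⟩ := hf M _ hM
      exact ⟨n, hS.iso _ _ _ _ hM (iso_symm0 hn), hn.bf l⟩
    · rintro ⟨n, hn, hb⟩
      have hn' : ((f n).1, (f n).2) ∈ S := hn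
      have := hl _ _ _ _ ∅ hn' Set.finite_empty (empty_subset _) hb
      exact hS.iso _ _ _ _ hn' this
  rw [he]
  exact MeasurableSet.biUnion (Set.to_countable _)
    (fun n _ => h a _ _ (fun M => Ic M x y) hZ l hl1 ∅)

end Pool.Agent.H533R2.VO
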