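import Pool.Agent.H533R2.VO.Spec

set_option autoImplicit false

namespace Pool.Agent.H533R2.VO

open Set
open Pool.Agent.H899R2.VP

private theorem mtx_max {a : ℕ → ℕ} {M : St a} (hM : OS M) {L : Set ℕ} (hL : NoLast M L)
    {x z : ℕ} (hx : x ∈ L) (hz : z ∈ L) : ∃ y ∈ L, Adj M x y ∧ Adj M z y := by
  by_cases h : Adj M x z
  · obtain ⟨y, hy, hzy⟩ := hL z hz
    exact ⟨y, hy, hM.tr x z y h hzy, hzy⟩
  · obtain ⟨y, hy, hxy⟩ := hL x hx
    exact ⟨y, hy, hxy, hM.le_lt h hxy⟩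

theorem t_MTX (h : S_H5) : S_MTX := by
  intro a S l n k M M' u u' x x' hS hl hom hln hnk hM hM' hL hx hb
  have hn0 : 0 < n := lt_of_lt_of_le Ordinal.omega0_pos (hom.trans hln)
  have hk0 : 0 < k := hn0.trans hnk
  refine ⟨fun z hz => ?_, fun z hz => ?_⟩
  · obtain ⟨y, hy, hxy, hzy⟩ := mtx_max hM hL hx hz
    obtain ⟨y', φ, h1, h2⟩ := h a S l n k M M' u u' x x' y hS hl hln hnk hM hM' hx hy
      (hM.asymm hxy) hb
    exact ⟨y, y', φ, h1, h2, hxy, hzy⟩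
  · have hx' : x' ∈ Lw S M' u' := bf_mem_right hk0 hb (by simp) hx
    have hL' : NoLast M' (Lw S M' u') := by
      intro w hw
      obtain ⟨v, hv, hb1⟩ := hb.back hnk hw
      obtain ⟨v2, hv2, hvv⟩ := hL v hv
      obtain ⟨w2, hw2, hb2⟩ := hb1.forth hn0 hv2
      refine ⟨w2, hw2, ?_⟩
      exact (hb2.piso.adj (by simp) (by simp)).1 hvv
    obtain ⟨y', hy', hxy, hzy⟩ := mtx_max hM' hL' hx' hz
    obtain ⟨y, φ, h1, h2⟩ := h a S l n k M' M u' u x' x y' hS hl hln hnk hM' hM hx' hy'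
      (hM'.asymm hxy) (bf_symm2 hb)
    refine ⟨y, y', inv φ, h1.symm, h2, ?_, hzy⟩
    exact (h1.piso.adj h2 h1.top).1 hxy

end Pool.Agent.H533R2.VO
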