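import Pool.Agent.H533R2.VO.Spec
set_option autoImplicit false
namespace Pool.Agent.H533R2.VO
open Set
open Pool.Agent.H899R2.VP

variable {a : ℕ → ℕ}

theorem rev_adj (M : St a) (x y : ℕ) : Adj (rev M) x y ↔ Adj M y x := Iff.rfl

theorem rev_rev (M : St a) : rev (rev M) = M := rfl

theorem rev_piso {M N : St a} {p : Set (ℕ × ℕ)} (h : PIso M N p) : PIso (rev M) (rev N) p :=
  ⟨h.1, fun u hu v hv => h.2.1 v hv u hu, h.2.2⟩

theorem rev_iso {M N : St a} {X Y : Set ℕ} {p : Set (ℕ × ℕ)} (h : IsoOn M N X Y p) :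
    IsoOn (rev M) (rev N) X Y p := by
  obtain ⟨q, h1, h2, h3, h4, h5⟩ := h
  exact ⟨q, h1, h2, rev_piso h3, h4, h5⟩

theorem rev_bf {M N : St a} {X Y : Set ℕ} {o : Ordinal.{0}} {p : Set (ℕ × ℕ)}
    (h : BF M N X Y o p) : BF (rev M) (rev N) X Y o p := by
  induction o using WellFoundedLT.induction generalizing p with
  | ind o ih =>
    rw [BF_iff] at h ⊢
    refine ⟨rev_piso h.1, fun o' ho' => ⟨fun x hx => ?_, fun y hy => ?_⟩⟩
    · obtain ⟨y, hy, hb⟩ := (h.2 o' ho').1 x hx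
      exact ⟨y, hy, ih o' ho' hb⟩
    · obtain ⟨x, hx, hb⟩ := (h.2 o' ho').2 y hy
      exact ⟨x, hx, ih o' ho' hb⟩

theorem rev_Ic (M : St a) (x y : ℕ) : Ic (rev M) x y = Ic M y x := by
  ext z
  exact and_comm

theorem rev_os {M : St a} (h : OS M) : OS (rev M) where
  irr := fun x => h.irr x
  tr := fun x y z h1 h2 => h.tr z y x h2 h1
  ntr := fun x y z h1 => (h.ntr z y x h1).symm
  loc := fun i t ht j k => h.loc i t ht k j

theorem rev_fam {S : Set (St a × Set ℕ)} (hS : Fam S) : Fam (revS S) where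
  iso := fun M X N Y h1 h2 => hS.iso (rev M) X (rev N) Y h1 (rev_iso h2)
  cnt := by
    obtain ⟨f, hf⟩ := hS.cnt
    refine ⟨fun n => (rev (f n).1, (f n).2), fun M X h => ?_⟩
    obtain ⟨n, hn⟩ := hf (rev M) X h
    exact ⟨n, rev_iso hn⟩
  sub := by
    intro M hM x y x' y' h h1 h2 h3
    have h' : (rev M, Ic M x y) ∈ S := h
    show (rev M, Ic M x' y') ∈ S
    rw [← rev_Ic] at h' ⊢
    exact hS.sub (rev M) (rev_os hM) y x y' x' h' h3 h2 h1
  glue := by
    intro M hM x y z h1 h2 h3 h4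
    have h3' : (rev M, Ic M x y) ∈ S := h3
    have h4' : (rev M, Ic M y z) ∈ S := h4
    show (rev M, Ic M x z) ∈ S
    rw [← rev_Ic] at h3' h4' ⊢
    exact hS.glue (rev M) (rev_os hM) z y x h2 h1 h4' h3'

theorem rev_cont : Continuous (rev : St a → St a) := by
  refine Continuous.prodMk ?_ continuous_snd
  exact continuous_pi fun x => continuous_pi fun y =>
    (continuous_apply x).comp ((continuous_apply y).comp continuous_fst)

theorem rev_G {α : Ordinal.{0}} {K : Set (St a)} (h : G α K) : G α {M | rev M ∈ K} where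
  meas := h.meas.preimage rev_cont.measurable
  lt := h.lt
  om := h.om
  closed := fun M hM N hb => h.closed (rev M) hM (rev N) (rev_bf hb)
  os := fun M hM => rev_os (h.os (rev M) hM)
  few := by
    rintro ⟨g, h1, h2, h3⟩
    refine h.few ⟨fun c => rev (g c), rev_cont.comp h1, h2, fun c d hcd => h3 c d ?_⟩
    exact rev_iso hcd

theorem rev_Lw (S : Set (St a × Set ℕ)) (M : St a) (u : ℕ) : Lw (revS S) (rev M) u = Uw S M u := by
  ext x
  show (¬ Adj (rev M) x u ∧ (rev M, Ic (rev M) u x) ∈ revS S) ↔ (¬ Adj M u x ∧ (M, Ic M x u) ∈ S)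
  rw [rev_Ic]
  exact Iff.rfl

theorem t_REV : S_REV := by
  intro a
  exact ⟨fun M N X Y p => ⟨rev_iso, rev_iso⟩, fun M N X Y o p => ⟨rev_bf, rev_bf⟩,
    rev_rev, rev_Ic, fun M => rev_os, fun S => rev_fam, fun α K => rev_G, rev_Lw⟩

end Pool.Agent.H533R2.VO
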