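import Pool.Agent.H533R2.VO.Spec

set_option autoImplicit false

namespace Pool.Agent.H533R2.VO

open Set
open Pool.Agent.H899R2.VP

private theorem rkch_iff {a : ℕ → ℕ} {S : Set (St a × Set ℕ)} {M : St a} {u : ℕ}
    {m o : Ordinal.{0}} {x e : ℕ} : Rk S M u m o x e ↔ ∀ o' : Ordinal.{0}, o' < o →
    ∃ x1 ∈ Lx S M u x, Adj M x1 e ∧ Cl S M u m x x1 ∧ Rk S M u m o' x1 e := by
  rw [Rk]

private theorem rkch_anti {a : ℕ → ℕ} {S : Set (St a × Set ℕ)} {M : St a} {u : ℕ}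
    {m o o' : Ordinal.{0}} {x e : ℕ} (h : Rk S M u m o x e) (ho : o' ≤ o) :
    Rk S M u m o' x e := by
  rw [rkch_iff] at h ⊢
  exact fun o'' h' => h o'' (lt_of_lt_of_le h' ho)

private theorem rkch_step {a : ℕ → ℕ} {S : Set (St a × Set ℕ)} {M : St a} {u : ℕ}
    {m : Ordinal.{0}} {x e : ℕ} (h : ∀ o : Ordinal.{0}, Rk S M u m o x e) :
    ∃ x1 ∈ Lx S M u x, Adj M x1 e ∧ Cl S M u m x x1 ∧ ∀ o : Ordinal.{0}, Rk S M u m o x1 e := by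
  by_contra hc
  have h1 : ∀ x1 : ℕ, ∃ o : Ordinal.{0},
      ¬ (x1 ∈ Lx S M u x ∧ Adj M x1 e ∧ Cl S M u m x x1 ∧ Rk S M u m o x1 e) := by
    intro x1
    by_contra hx1
    push Not at hx1
    exact hc ⟨x1, (hx1 0).1, (hx1 0).2.1, (hx1 0).2.2.1, fun o => (hx1 o).2.2.2⟩
  choose f hf using h1
  have h2 := rkch_iff.1 (h (Order.succ (iSup f))) (iSup f) (Order.lt_succ _)
  obtain ⟨x1, hx1, h3, h4, h5⟩ := h2
  exact hf x1 ⟨hx1, h3, h4, rkch_anti h5 (Ordinal.le_iSup f x1)⟩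

theorem t_RKCH (h : S_CLMON) : S_RKCH := by
  intro a S m M u x e hS hM hm hx he hr
  -- the sequence
  have step : ∀ z : {z // z ∈ Lw S M u ∧ ∀ o : Ordinal.{0}, Rk S M u m o z e},
      ∃ z1 : {z // z ∈ Lw S M u ∧ ∀ o : Ordinal.{0}, Rk S M u m o z e},
        ¬ Adj M z1.1 z.1 ∧ Adj M z1.1 e ∧ Cl S M u m z.1 z1.1 := by
    rintro ⟨z, hz, hzr⟩
    obtain ⟨x1, hx1, h3, h4, h5⟩ := rkch_step hzr
    exact ⟨⟨x1, hx1.1, h5⟩, hx1.2, h3, h4⟩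
  choose nx hnx1 hnx2 hnx3 using step
  obtain ⟨s, hs0, hss⟩ : ∃ s : ℕ → {z // z ∈ Lw S M u ∧ ∀ o : Ordinal.{0}, Rk S M u m o z e},
      s 0 = ⟨x, hx, hr⟩ ∧ ∀ n, s (n + 1) = nx (s n) :=
    ⟨fun n => Nat.rec ⟨x, hx, hr⟩ (fun _ q => nx q) n, rfl, fun _ => rfl⟩
  have hle : ∀ i, ¬ Adj M (s (i + 1)).1 (s i).1 := by
    intro i; rw [hss]; exact hnx1 _
  have hlt' : ∀ i, Adj M (s (i + 1)).1 e := by
    intro i; rw [hss]; exact hnx2 _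
  have hcl : ∀ i, Cl S M u m (s i).1 (s (i + 1)).1 := by
    intro i; rw [hss]; exact hnx3 _
  have hlt : ∀ i, Adj M (s i).1 e := fun i => hM.le_lt (hle i) (hlt' i)
  refine ⟨{z | z ∈ Lw S M u ∧ ∃ i, ¬ Adj M (s i).1 z}, ?_, hx, 0, ?_⟩
  · refine ⟨fun z hz => hz.1, ⟨x, hx, 0, by rw [hs0]; exact hM.irr x⟩, ?_, ?_, ?_⟩
    · rintro z ⟨hz, i, hi⟩ y hy hzy
      exact ⟨hy, i, hM.le_trans hzy hi⟩
    · exact ⟨e, he, fun hc => by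
        obtain ⟨-, i, hi⟩ := hc
        exact hi (hlt i)⟩
    · rintro z ⟨hz, i, hi⟩ k hk b hb
      have h1 : Cl S M u m z (s (i + 1)).1 :=
        h a S m M u z (s i).1 (s (i + 1)).1 hS hM hm hz (s i).2.1 (s (i + 1)).2.1 hi (hcl i)
      obtain ⟨b', hb', h2, h3⟩ := h1 k hk b hb
      exact ⟨b', ⟨hb'.1, i + 1, hM.asymm h2⟩, hb'.2, h3⟩
  · rw [hs0]; exact hM.irr x

end Pool.Agent.H533R2.VO
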