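import Pool.Agent.H533R2.VO.Spec

set_option autoImplicit false

/-! Recursion for the fillings. -/

namespace Pool.Agent.H533R2.VO

open Set
open Pool.Agent.H899R2.VP

variable {a : ℕ → ℕ}

/-- Auxiliary recursion. -/
noncomputable def seqRec {X : Type*} (x0 : X) (f : ℕ → (ℕ → X) → X) (k : ℕ) : X :=
  f k (fun i => if _h : i < k then seqRec x0 f i else x0)
termination_by k

theorem seq_rec {X : Type*} (x0 : X) (P : ℕ → (ℕ → X) → X → Prop)
    (hP : ∀ k τ, ∃ σ, P k τ σ)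
    (hcongr : ∀ k τ τ' σ, (∀ i < k, τ i = τ' i) → P k τ σ → P k τ' σ) :
    ∃ τ : ℕ → X, ∀ k, P k τ (τ k) := by
  choose f hf using hP
  refine ⟨seqRec x0 f, fun k => ?_⟩
  have h := hf k (fun i => if _h : i < k then seqRec x0 f i else x0)
  rw [show f k (fun i => if _h : i < k then seqRec x0 f i else x0) = seqRec x0 f k by
    rw [seqRec]] at h
  refine hcongr k _ _ _ ?_ h
  intro i hi
  simp only [hi, dite_true]

theorem seq_trunc {M : St a} {t t' : ℕ → ℕ → St a} {s r : ℕ} (h : ∀ i < s, t i = t' i)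
    (hr : r ≤ s) : trunc M t r = trunc M t' r := by
  funext i k
  unfold trunc
  by_cases hi : i < r
  · simp only [hi, if_true]
    rw [h i (by omega)]
  · simp only [hi, if_false]

theorem seq_FF_congr {M : St a} {lo hi : ℕ → ℕ → ℕ} {t t' : ℕ → ℕ → St a} {s : ℕ}
    (h : ∀ i < s, t i = t' i) : FF M lo hi t s = FF M lo hi t' s := by
  ext P
  unfold FF
  simp only [Set.mem_ofPred_eq]
  refine exists_congr fun r => and_congr_right fun hr => ?_
  rw [seq_trunc h hr]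

theorem seq_FF_countable (M : St a) (lo hi : ℕ → ℕ → ℕ) (t : ℕ → ℕ → St a) (s : ℕ) :
    (FF M lo hi t s).Countable := by
  have h : FF M lo hi t s ⊆ Set.range (fun q : ℕ × ℕ × ℕ × ℕ =>
      ((DS M lo hi (trunc M t q.1) (fun j => q.2.1.testBit j),
        Ic (DS M lo hi (trunc M t q.1) (fun j => q.2.1.testBit j)) q.2.2.1 q.2.2.2) :
        St a × Set ℕ)) := by
    rintro P ⟨r, _, c, x, y, rfl⟩
    exact ⟨(r, c, x, y), rfl⟩
  exact (Set.countable_range _).mono h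

theorem t_SEQ (h : S_FILL) : S_SEQ := by
  intro a α M lo hi hα hb
  have key : ∃ t : ℕ → ℕ → St a, ∀ s, ∀ k, OS (t s k) ∧
    BF M (t s k) (Ic M (lo (s / 2) k) (hi (s / 2) k)) (Ic M (lo (s / 2) k) (hi (s / 2) k)) α ∅ ∧
    ∃ x ∈ Ic M (lo (s / 2) k) (hi (s / 2) k), ∃ y ∈ Ic M (lo (s / 2) k) (hi (s / 2) k),
      ¬ Adj (t s k) y x ∧ ∀ P ∈ FF M lo hi t s,
        ¬ IsoOn P.1 (t s k) P.2 (Ic M (lo (s / 2) k) (hi (s / 2) k) ∩ Ic (t s k) x y) ∅ := by
    refine seq_rec (X := ℕ → St a) (fun _ => M) (fun s t σ => ∀ k, OS (σ k) ∧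
      BF M (σ k) (Ic M (lo (s / 2) k) (hi (s / 2) k)) (Ic M (lo (s / 2) k) (hi (s / 2) k)) α ∅ ∧
      ∃ x ∈ Ic M (lo (s / 2) k) (hi (s / 2) k), ∃ y ∈ Ic M (lo (s / 2) k) (hi (s / 2) k),
        ¬ Adj (σ k) y x ∧ ∀ P ∈ FF M lo hi t s,
          ¬ IsoOn P.1 (σ k) P.2 (Ic M (lo (s / 2) k) (hi (s / 2) k) ∩ Ic (σ k) x y) ∅) ?_ ?_
    · intro s t
      have h1 := fun k => h a α M (Ic M (lo (s / 2) k) (hi (s / 2) k)) hα (hb (s / 2) k)
        (FF M lo hi t s) (seq_FF_countable M lo hi t s)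
      choose T hT using h1
      exact ⟨T, fun k => hT k⟩
    · intro s t t' σ htt hσ k
      rw [← seq_FF_congr htt]
      exact hσ k
  obtain ⟨t, ht⟩ := key
  exact ⟨t, fun s k => ht s k⟩

end Pool.Agent.H533R2.VO
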