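import Pool.Agent.H533R2.VO.Spec
set_option autoImplicit false
namespace Pool.Agent.H533R2.VO
open Set
open Pool.Agent.H899R2.VP

theorem tow_lt (l : Ordinal.{0}) (i j : ℕ) (h : i < j) :
    l + (i : Ordinal.{0}) < l + (j : Ordinal.{0}) := by
  gcongr

theorem t_TOW (h1 : S_INL) (h2 : S_CASEA1) (h3 : S_CASEA2) (h4 : S_CASEB1) (h5 : S_CASEB2)
    (h6 : S_B2EX) : S_TOW := by
  intro a S l hS hl hom hl1
  have hw1 : ∀ i : ℕ, (i : Ordinal.{0}) < Ordinal.omega 1 := fun i =>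
    (Ordinal.natCast_lt_omega0 i).trans Ordinal.omega0_lt_omega_one
  have hadd : ∀ x y : Ordinal.{0}, x < Ordinal.omega 1 → y < Ordinal.omega 1 →
      x + y < Ordinal.omega 1 := fun x y hx hy => (Ordinal.isPrincipal_add_omega 1) hx hy
  have e0 : l < l + ((1 : ℕ) : Ordinal.{0}) := by
    have := tow_lt l 0 1 (by norm_num)
    rwa [Nat.cast_zero, add_zero] at this
  have e1 : l + ((1 : ℕ) : Ordinal.{0}) < l + ((2 : ℕ) : Ordinal.{0}) := tow_lt l 1 2 (by norm_num)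
  have e2 : l + ((2 : ℕ) : Ordinal.{0}) < l + ((3 : ℕ) : Ordinal.{0}) := tow_lt l 2 3 (by norm_num)
  have e3 : l + ((3 : ℕ) : Ordinal.{0}) < l + ((4 : ℕ) : Ordinal.{0}) := tow_lt l 3 4 (by norm_num)
  refine ⟨l + (l + ((4 : ℕ) : Ordinal.{0})), hadd _ _ hl1 (hadd _ _ hl1 (hw1 4)), ?_⟩
  intro M M' u u' hM hM' hu hb
  have hL := h1 a S l (l + ((4 : ℕ) : Ordinal.{0})) M M' u u' {(u, u')} hS hl hM hM' hb rfl
  by_cases hlast : NoLast M (Lw S M u)
  · by_cases hcof : ∀ z ∈ Lw S M u, ∃ C, Cls S M u (l + ((1 : ℕ) : Ordinal.{0})) C ∧ z ∈ C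
    · have hLk := hL.mono e3.le
      by_cases hty : ∃ (M0 : St a) (X0 : Set ℕ), ∀ z ∈ Lw S M u,
          ∃ C, Cls S M u (l + ((1 : ℕ) : Ordinal.{0})) C ∧ z ∈ C ∧
            BF M0 M X0 (Lw S M u \ C) (l + ((1 : ℕ) : Ordinal.{0})) ∅
      · obtain ⟨M0, X0, hty⟩ := hty
        exact h2 a S l _ _ _ M M' u u' M0 X0 hS hl hom e0 e1 e2 hM hM' hlast hu hty hLk
      · push Not at hty
        refine h3 a S l _ _ _ M M' u u' hS hl hom e0 e1 e2 hM hM' hlast hu hcof ?_ hLk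
        intro M0 X0
        obtain ⟨z, hz, hz'⟩ := hty M0 X0
        exact ⟨z, hz, fun C hC hzC => hz' C hC hzC⟩
    · push Not at hcof
      obtain ⟨z0, hz0, hz0'⟩ := hcof
      by_cases hx : ∃ x ∈ Lw S M u, ∀ e ∈ Lx S M u x,
          ¬ Cl S M u (l + ((1 : ℕ) : Ordinal.{0})) x e
      · obtain ⟨x, hxL, hx⟩ := hx
        obtain ⟨x', hx', hb'⟩ := hL.forth e3 hxL
        have hb'' : BF M M' (Lw S M u) (Lw S M' u') (l + ((3 : ℕ) : Ordinal.{0}))
            {(u, u'), (x, x')} := by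
          have : ({(u, u'), (x, x')} : Set (ℕ × ℕ)) = insert (x, x') {(u, u')} := pair_comm _ _
          rw [this]; exact hb'
        exact h4 a S l _ _ M M' u u' x x' hS hl hom e0 (e1.trans e2) hM hM' hlast hxL hx hb''
      · push Not at hx
        have hm0 : (0 : Ordinal.{0}) < l + ((1 : ℕ) : Ordinal.{0}) := lt_of_le_of_lt (zero_le) e0
        obtain ⟨x, hxL, hx1⟩ := h6 a S (l + ((1 : ℕ) : Ordinal.{0})) M u z0 hS hM hm0 hlast hz0
          (by rintro ⟨C, hC, hzC⟩; exact hz0' C hC hzC) hx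
        have hxL' : x ∈ Lw S M u := hxL.1
        obtain ⟨x', hx', hb'⟩ := hL.forth e3 hxL'
        have hb'' : BF M M' (Lw S M u) (Lw S M' u') (l + ((3 : ℕ) : Ordinal.{0}))
            {(u, u'), (x, x')} := by
          have : ({(u, u'), (x, x')} : Set (ℕ × ℕ)) = insert (x, x') {(u, u')} := pair_comm _ _
          rw [this]; exact hb'
        exact h5 a S l _ _ _ M M' u u' x x' hS hl hom e0 e1 e2 hM hM' hlast hxL' hx1 hb''
  · unfold NoLast at hlast
    push Not at hlast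
    obtain ⟨x, hxL, hx⟩ := hlast
    have hI : Lw S M u = Ic M u x := by
      ext z
      constructor
      · intro hz; exact ⟨hz.1, hx z hz⟩
      · intro hz; exact Lw_Ic hS hM hxL hz
    have hmem : (M, Lw S M u) ∈ S := by rw [hI]; exact hxL.2
    refine hl M _ M' _ ∅ hmem Set.finite_empty (empty_subset _) ?_
    exact (hL.mono (le_self_add)).subset (empty_subset _)

end Pool.Agent.H533R2.VO
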