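import Pool.Agent.H533R2.VO.Spec

set_option autoImplicit false

/-! TOWC: countably many types of `Lw`. -/

namespace Pool.Agent.H533R2.VO

open Set
open Pool.Agent.H899R2.VP

theorem t_TOWC (h1 : S_LEV) (h2 : S_TOW) (h3 : S_LAB) : S_TOWC := by
  classical
  intro a α K S hG hS hblk
  obtain ⟨l, hl1, hl2, hl⟩ := h1 a S hS
  obtain ⟨β, hβ, hT⟩ := h2 a S l hS hl hl2 hl1
  obtain ⟨c, hc⟩ := h3 a α K hG β hβ
  let f : ℕ → St a × Set ℕ := fun n =>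
    if h : ∃ P : St a × ℕ, P.1 ∈ K ∧ c P.1 [P.2] = n then (h.choose.1, Lw S h.choose.1 h.choose.2)
    else ((fun _ _ => false, fun _ _ => false), ∅)
  refine ⟨f, fun N hN v => ⟨c N [v], ?_⟩⟩
  have h : ∃ P : St a × ℕ, P.1 ∈ K ∧ c P.1 [P.2] = c N [v] := ⟨(N, v), hN, rfl⟩
  have hf : f (c N [v]) = (h.choose.1, Lw S h.choose.1 h.choose.2) := dif_pos h
  rw [hf]
  obtain ⟨hP, hcP⟩ := h.choose_spec
  have hb := hc h.choose.1 hP N hN [h.choose.2] [v] rfl hcP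
  rw [zipSet_cons, zipSet_nil_left, insert_empty_eq] at hb
  exact hT h.choose.1 N h.choose.2 v (hG.os _ hP) (hG.os _ hN)
    ⟨(hG.os _ hP).irr _, hblk _ hP _⟩ hb

end Pool.Agent.H533R2.VO
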