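import Pool.Agent.H533R2.VO.Spec

set_option autoImplicit false

/-! Task TOWR: countably many types of `Uw`. -/

namespace Pool.Agent.H533R2.VO

open Set
open Pool.Agent.H899R2.VP

theorem t_TOWR (h1 : S_TOWC) (h2 : S_REV) : S_TOWR := by
  intro a α K S hG hS hK
  obtain ⟨hiso, -, hrr, hic, -, hfam, hGr, hLw⟩ := h2 a
  have hK' : ∀ M ∈ {M : St a | rev M ∈ K}, ∀ x, (M, Ic M x x) ∈ revS S := by
    intro M hM x
    show (rev M, Ic M x x) ∈ S
    have h := hK (rev M) hM x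
    rw [hic] at h
    exact h
  obtain ⟨f, hf⟩ := h1 a α {M | rev M ∈ K} (revS S) (hGr α K hG) (hfam S hS) hK'
  refine ⟨fun n => (rev (f n).1, (f n).2), fun M hM u => ?_⟩
  have hM' : rev M ∈ {M : St a | rev M ∈ K} := by
    show rev (rev M) ∈ K
    rw [hrr]
    exact hM
  obtain ⟨n, hn⟩ := hf (rev M) hM' u
  refine ⟨n, ?_⟩
  rw [hLw] at hn
  have h := (hiso _ _ _ _ _).1 hn
  rw [hrr] at h
  exact h

end Pool.Agent.H533R2.VO
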