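import Pool.Agent.H533R2.VO.Spec

set_option autoImplicit false

namespace Pool.Agent.H533R2.VO

open Set
open Pool.Agent.H899R2.VP

theorem t_TRC (hcore : S_CORE) : S_TRC := by
  intro a S m n M M' u u' y y' φ C hS hM hM' hmn H hC hy
  -- points of `C` lie below `y`
  have hCy : ∀ z ∈ C, Adj M z y := by
    intro z hz
    by_contra hcon
    exact hy (hC.init z hz y H.memL hcon)
  have hCI : ∀ z ∈ C, z ∈ Ic M u y := fun z hz =>
    ⟨(hC.sub hz).1, hM.asymm (hCy z hz)⟩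
  have hsubL : ∀ w ∈ φ, w.1 ∈ Lw S M u := fun w hw => Lw_Ic hS hM H.memL (H.subset hw).1
  have hsubR : ∀ w ∈ φ, w.2 ∈ Lw S M' u' := fun w hw => Lw_Ic hS hM' H.memR (H.subset hw).2
  have hiff : ∀ w ∈ φ, (w.1 ∈ C ↔ w.2 ∈ {z' | ∃ z ∈ C, (z, z') ∈ φ}) := by
    intro w hw
    constructor
    · intro h
      exact ⟨w.1, h, hw⟩
    · rintro ⟨z, hz, hzw⟩
      have : z = w.1 := H.piso.fst_eq hzw (y := w.1) (y' := w.2) hw rfl
      rwa [← this]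
  refine ⟨{z' | ∃ z ∈ C, (z, z') ∈ φ}, ⟨?_, ?_, ?_, ?_, ?_⟩, hiff, ?_⟩
  · rintro z' ⟨z, hz, hzz⟩
    exact hsubR _ hzz
  · obtain ⟨z, hz⟩ := hC.ne
    obtain ⟨z', hz'⟩ := H.total z (hCI z hz)
    exact ⟨z', z, hz, hz'⟩
  · rintro x' ⟨x, hx, hxx⟩ w' hw' hle
    have hx'I := (H.subset hxx).2
    have hw'I : w' ∈ Ic M' u' y' := ⟨hw'.1, hM'.le_trans hle hx'I.2⟩
    obtain ⟨w, hw⟩ := H.surj w' hw'I
    refine ⟨w, ?_, hw⟩
    apply hC.init x hx w (hsubL _ hw)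
    rw [H.piso.adj hxx hw]
    exact hle
  · exact ⟨y', H.memR, fun h => hy ((hiff (y, y') H.top).2 h)⟩
  · rintro x' ⟨x, hx, hxx⟩ k hk b' hb'
    have hcr := hcore a S n M M' u u' x x' y y' φ hS hM hM' H hxx (hCy x hx)
    have hkn : k < n := lt_of_lt_of_le hk hmn
    have hxp : (x, x') ∈ {w | w ∈ φ ∧ ¬ Adj M w.1 x ∧ Adj M w.1 y} :=
      ⟨hxx, hM.irr x, hCy x hx⟩
    obtain ⟨b, hb, hbb⟩ := hcr.back hkn hb'
    obtain ⟨b1, hb1, hb1x, hbb1⟩ := hC.cl x hx k hk b hb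
    obtain ⟨b1', hb1'⟩ := H.total b1 (hCI b1 hb1)
    have hb1p : (b1, b1') ∈ {w | w ∈ φ ∧ ¬ Adj M w.1 x ∧ Adj M w.1 y} :=
      ⟨hb1', hb1x, hCy b1 hb1⟩
    refine ⟨b1', ⟨b1, hb1, hb1'⟩, ?_, ?_⟩
    · rw [← H.piso.adj hb1' hxx]
      exact hb1x
    · have e1 : BF M M' (Lx S M u x) (Lx S M' u' x') k {(x, x'), (b, b')} := by
        apply hbb.subset
        rintro w (rfl | rfl)
        · exact Or.inr (Or.inr hxp)
        · exact Or.inl rfl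
      have e2 : BF M M' (Lx S M u x) (Lx S M' u' x') k {(x, x'), (b1, b1')} := by
        apply (hcr.mono hkn.le).subset
        rintro w (rfl | rfl)
        · exact Or.inr hxp
        · exact Or.inr hb1p
      exact bf_comp2 (bf_comp2 (bf_symm2 e1) hbb1) e2
  · have hA : ∀ x ∈ Lw S M u \ C, x ∈ Lt M y → ∀ z ∈ Lw S M u \ C, z ∉ Lt M y → Adj M x z :=
      fun x _ hx z _ hz => hM.lt_le hx hz
    have hB : ∀ x ∈ Lw S M' u' \ {z' | ∃ z ∈ C, (z, z') ∈ φ}, x ∈ Lt M' y' →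
        ∀ z ∈ Lw S M' u' \ {z' | ∃ z ∈ C, (z, z') ∈ φ}, z ∉ Lt M' y' → Adj M' x z :=
      fun x _ hx z _ hz => hM'.lt_le hx hz
    refine sum2BF hM hM' (Lt M y) (Lt M' y') (empty_subset _) hA hB (fun u hu => absurd hu (by simp))
      ?_ ?_
    · have hq : BF M M' ((Lw S M u \ C) ∩ Lt M y)
          ((Lw S M' u' \ {z' | ∃ z ∈ C, (z, z') ∈ φ}) ∩ Lt M' y') m
          {w | w ∈ φ ∧ w.1 ∉ C ∧ Adj M w.1 y} := by
        refine BF_of_total ?_ (H.piso.mono fun w hw => hw.1) ?_ ?_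
        · rintro w ⟨hw, hwC, hwy⟩
          refine ⟨⟨⟨hsubL w hw, hwC⟩, hwy⟩, ⟨⟨hsubR w hw, fun h => hwC ((hiff w hw).2 h)⟩, ?_⟩⟩
          exact (H.piso.adj (x := w.1) (x' := w.2) hw H.top).1 hwy
        · rintro x ⟨⟨hx1, hx2⟩, hx3⟩
          obtain ⟨x', hx'⟩ := H.total x ⟨hx1.1, hM.asymm hx3⟩
          exact ⟨x', hx', hx2, hx3⟩
        · rintro x' ⟨⟨hx1, hx2⟩, hx3⟩
          obtain ⟨x, hx⟩ := H.surj x' ⟨hx1.1, hM'.asymm hx3⟩
          exact ⟨x, hx, fun h => hx2 ((hiff _ hx).1 h), (H.piso.adj hx H.top).2 hx3⟩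
      apply hq.subset
      rintro w ⟨hw, _⟩
      exact absurd hw (by simp)
    · have e1 : (Lw S M u \ C) \ Lt M y = Lx S M u y := by
        ext z
        constructor
        · rintro ⟨⟨h1, _⟩, h3⟩
          exact ⟨h1, h3⟩
        · rintro ⟨h1, h2⟩
          exact ⟨⟨h1, fun h => h2 (hCy z h)⟩, h2⟩
      have e2 : (Lw S M' u' \ {z' | ∃ z ∈ C, (z, z') ∈ φ}) \ Lt M' y' = Lx S M' u' y' := by
        ext z'
        constructor
        · rintro ⟨⟨h1, _⟩, h3⟩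
          exact ⟨h1, h3⟩
        · rintro ⟨h1, h2⟩
          refine ⟨⟨h1, ?_⟩, h2⟩
          rintro ⟨z, hz, hzz⟩
          exact h2 ((H.piso.adj hzz H.top).1 (hCy z hz))
      rw [e1, e2]
      apply (H.tail.mono hmn).subset
      rintro w ⟨hw, _⟩
      exact absurd hw (by simp)

end Pool.Agent.H533R2.VO
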