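import Pool.Agent.H533R2.VO.Spec
import Pool.Agent.H899R2.VP.Choice

set_option autoImplicit false

namespace Pool.Agent.H533R2.VO

open Set
open Pool.Agent.H899R2.VP

open Classical in
/-- The transported structure. -/
private noncomputable def trpT {a : ℕ → ℕ} (N : St a) (X : Set ℕ) (g : ℕ → ℕ) : St a :=
  (fun x y => decide ((x ∈ X ∧ y ∈ X ∧ N.1 (g x) (g y) = true) ∨ (x ∉ X ∧ y ∈ X)),
   fun i t => decide ((∀ k, t k ∈ X) ∧ N.2 i (fun k => g (t k)) = true))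

private theorem trp_adj {a : ℕ → ℕ} (N : St a) (X : Set ℕ) (g : ℕ → ℕ) (x y : ℕ) :
    Adj (trpT N X g) x y ↔ (x ∈ X ∧ y ∈ X ∧ Adj N (g x) (g y)) ∨ (x ∉ X ∧ y ∈ X) := by
  unfold Adj trpT
  simp

private theorem trp_rel {a : ℕ → ℕ} (N : St a) (X : Set ℕ) (g : ℕ → ℕ) (i : ℕ)
    (t : Fin (a i) → ℕ) :
    (trpT N X g).2 i t = true ↔ (∀ k, t k ∈ X) ∧ N.2 i (fun k => g (t k)) = true := by
  unfold trpT
  simp

private theorem trp_os {a : ℕ → ℕ} {N : St a} (hN : OS N) (X : Set ℕ) (g : ℕ → ℕ) :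
    OS (trpT N X g) := by
  constructor
  · intro x h
    rw [trp_adj] at h
    rcases h with ⟨-, -, h⟩ | ⟨h1, h2⟩
    · exact hN.irr _ h
    · exact h1 h2
  · intro x y z h1 h2
    rw [trp_adj] at h1 h2 ⊢
    have hy : y ∈ X := by
      rcases h1 with h | h
      · exact h.2.1
      · exact h.2
    rcases h2 with h2 | h2
    · rcases h1 with h1 | h1
      · exact Or.inl ⟨h1.1, h2.2.1, hN.tr _ _ _ h1.2.2 h2.2.2⟩
      · exact Or.inr ⟨h1.1, h2.2.1⟩
    · exact absurd hy h2.1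
  · intro x y z h
    rw [trp_adj] at h
    rw [trp_adj, trp_adj]
    by_cases hy : y ∈ X
    · by_cases hx : x ∈ X
      · rcases h with h | h
        · rcases hN.ntr _ (g y) _ h.2.2 with h3 | h3
          · exact Or.inl (Or.inl ⟨hx, hy, h3⟩)
          · exact Or.inr (Or.inl ⟨hy, h.2.1, h3⟩)
        · exact absurd hx h.1
      · exact Or.inl (Or.inr ⟨hx, hy⟩)
    · refine Or.inr (Or.inr ⟨hy, ?_⟩)
      rcases h with h | h
      · exact h.2.1
      · exact h.2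
  · intro i t h j k hjk
    rw [trp_rel] at h
    rw [trp_adj] at hjk
    rcases hjk with hjk | hjk
    · exact hN.loc i _ h.2 j k hjk.2.2
    · exact hjk.1 (h.1 j)

theorem t_TRP : S_TRP := by
  intro a M N X Y α hα hN hb
  have h1 := encard_eq_of_bf (hb.mono hα)
  have e1 : pdom (∅ : Set (ℕ × ℕ)) = ∅ := by
    ext x; simp [pdom]
  have e2 : pran (∅ : Set (ℕ × ℕ)) = ∅ := by
    ext x; simp [pran]
  rw [e1, e2, sdiff_empty, sdiff_empty] at h1
  obtain ⟨g, hg1, hg2, hg3⟩ := exists_bijOn_of_encard h1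
  refine ⟨trpT N X g, trp_os hN X g, {u | u.2 ∈ X ∧ u.1 = g u.2}, empty_subset _, ?_, ?_, ?_, ?_⟩
  · rintro ⟨u, v⟩ ⟨h2, h3⟩
    simp only at h2 h3
    exact ⟨by rw [h3]; exact hg1 h2, h2⟩
  · refine ⟨?_, ?_, ?_⟩
    · rintro ⟨u, u'⟩ ⟨hu, eu⟩ ⟨v, v'⟩ ⟨hv, ev⟩
      simp only at hu hv eu ev ⊢
      rw [eu, ev]
      exact ⟨fun h => hg2 hu hv h, fun h => by rw [h]⟩
    · rintro ⟨u, u'⟩ ⟨hu, eu⟩ ⟨v, v'⟩ ⟨hv, ev⟩
      simp only at hu hv eu ev ⊢
      rw [eu, ev, Bool.eq_iff_iff]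
      have := trp_adj N X g u' v'
      unfold Adj at this
      rw [this]
      constructor
      · exact fun h => Or.inl ⟨hu, hv, h⟩
      · rintro (h | h)
        · exact h.2.2
        · exact absurd hu h.1
    · intro i t ht
      have e3 : (fun k => (t k).1) = fun k => g (t k).2 := funext fun k => (ht k).2
      rw [Bool.eq_iff_iff, trp_rel, e3]
      exact ⟨fun h => ⟨fun k => (ht k).1, h⟩, fun h => h.2⟩
  · intro y hy
    obtain ⟨x, hx, rfl⟩ := hg3 hy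
    exact ⟨x, hx, rfl⟩
  · intro x hx
    exact ⟨g x, hx, rfl⟩

end Pool.Agent.H533R2.VO
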