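import Pool.Agent.H533R2.VO.Spec

set_option autoImplicit false

/-! Task A1: cofinal closed sets with equivalent tails give an isomorphism. -/

namespace Pool.Agent.H533R2.VO

open Set
open Pool.Agent.H899R2.VP

section

variable {a : ℕ → ℕ}

/-- The pieces. -/
private def a1P (C : ℕ → Set ℕ) : ℕ → Set ℕ
  | 0 => C 0
  | i + 1 => C (i + 1) \ C i

private theorem a1P_sub (C : ℕ → Set ℕ) (i : ℕ) : a1P C i ⊆ C i := by
  cases i with
  | zero => exact subset_rfl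
  | succ i => exact sdiff_subset

variable {S : Set (St a × Set ℕ)} {M : St a} {u : ℕ} {m : Ordinal.{0}}

private theorem a1_lt {C : Set ℕ} (hC : Cls S M u m C) {x y : ℕ} (hx : x ∈ C)
    (hy : y ∈ Lw S M u) (hy' : y ∉ C) : Adj M x y := by
  by_contra h
  exact hy' (hC.init x hx y hy h)

private theorem a1_nxt (C : ℕ → Set ℕ) {i : ℕ} {c : ℕ} (hc : c ∈ a1P C (i + 1)) : c ∉ C i := hc.2

private theorem a1_zero (hS : Fam S) (hM : OS M) {C : ℕ → Set ℕ}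
    (hC : ∀ i, Cls S M u m (C i)) {c : ℕ} (hc : c ∈ C 0) :
    a1P C 0 ∩ Le M c = Ic M u c := by
  ext z
  constructor
  · rintro ⟨h1, h2⟩
    exact ⟨((hC 0).sub h1).1, h2⟩
  · rintro h
    have hcL : c ∈ Lw S M u := (hC 0).sub hc
    exact ⟨(hC 0).init c hc z (Lw_Ic hS hM hcL h) h.2, h.2⟩

private theorem a1_low (hM : OS M) {C : ℕ → Set ℕ}
    (hC : ∀ i, Cls S M u m (C i)) {c : ℕ → ℕ} (hc : ∀ i, c i ∈ a1P C i) (i : ℕ) :
    a1P C i ∩ Ge M (c i) = Ic M (c i) (c (i + 1)) ∩ C i := by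
  have hcL : ∀ i, c i ∈ Lw S M u := fun i => (hC i).sub (a1P_sub C i (hc i))
  ext z
  constructor
  · rintro ⟨h1, h2⟩
    have hz : z ∈ C i := a1P_sub C i h1
    refine ⟨⟨h2, ?_⟩, hz⟩
    exact hM.asymm (a1_lt (hC i) hz (hcL (i + 1)) (a1_nxt C (hc (i + 1))))
  · rintro ⟨⟨h1, _⟩, h3⟩
    refine ⟨?_, h1⟩
    cases i with
    | zero => exact h3
    | succ i =>
      refine ⟨h3, fun h4 => ?_⟩
      exact h1 (a1_lt (hC i) h4 (hcL (i + 1)) (a1_nxt C (hc (i + 1))))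

private theorem a1_up (hS : Fam S) (hM : OS M) {C : ℕ → Set ℕ}
    (hC : ∀ i, Cls S M u m (C i)) {c : ℕ → ℕ} (hc : ∀ i, c i ∈ a1P C i) (i : ℕ) :
    a1P C (i + 1) ∩ Le M (c (i + 1)) = Ic M (c i) (c (i + 1)) \ C i := by
  have hcL : ∀ i, c i ∈ Lw S M u := fun i => (hC i).sub (a1P_sub C i (hc i))
  ext z
  constructor
  · rintro ⟨h1, h2⟩
    have hz : z ∈ Lw S M u := (hC (i + 1)).sub h1.1
    refine ⟨⟨?_, h2⟩, h1.2⟩
    exact hM.asymm (a1_lt (hC i) (a1P_sub C i (hc i)) hz h1.2)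
  · rintro ⟨⟨h1, h2⟩, h3⟩
    have hz : z ∈ Lw S M u := Lw_init hS hM (hcL (i + 1)) (hM.le_trans (hcL i).1 h1) h2
    exact ⟨⟨(hC (i + 1)).init _ (a1P_sub C _ (hc (i + 1))) z hz h2, h3⟩, h2⟩

private theorem a1_step (hM : OS M) {C : ℕ → Set ℕ} (hC : ∀ i, Cls S M u m (C i)) {c : ℕ → ℕ}
    (hc : ∀ i, c i ∈ a1P C i) (i : ℕ) : Adj M (c i) (c (i + 1)) :=
  a1_lt (hC i) (a1P_sub C i (hc i)) ((hC (i + 1)).sub (a1P_sub C _ (hc (i + 1))))
    (a1_nxt C (hc (i + 1)))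

private theorem a1_cof (hM : OS M) {C : ℕ → Set ℕ} (hC : ∀ i, Cls S M u m (C i)) {c : ℕ → ℕ}
    (hc : ∀ i, c i ∈ a1P C i) (hcov : ∀ z ∈ Lw S M u, ∃ i, z ∈ C i) :
    ∀ z ∈ Lw S M u, ∃ i, Adj M z (c i) := by
  intro z hz
  obtain ⟨i, hi⟩ := hcov z hz
  exact ⟨i + 1, a1_lt (hC i) hi ((hC (i + 1)).sub (a1P_sub C _ (hc (i + 1))))
    (a1_nxt C (hc (i + 1)))⟩

private theorem a1_ne {C : ℕ → Set ℕ} (hC : ∀ i, Cls S M u m (C i))
    (hst : ∀ i, ∃ z ∈ C (i + 1), z ∉ C i) (i : ℕ) : (a1P C i).Nonempty := by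
  cases i with
  | zero => exact (hC 0).ne
  | succ i =>
    obtain ⟨z, h1, h2⟩ := hst i
    exact ⟨z, h1, h2⟩

end

theorem t_A1 (h1 : S_A1P) (h2 : S_GLW) : S_A1 := by
  intro a S l m M M' u u' C C' hS hl hlm hM hM' hC hC' hmo hmo' hst hst' hcov hcov' hb0 hb
  have hbP : ∀ i, BF M M' (a1P C i) (a1P C' i) m ∅ := by
    intro i
    cases i with
    | zero =>
      have := h1 a S m M M' u u' (C 0) (C' 0) ∅ ∅ hS hM hM' (hC 0) (hC' 0) (empty_subset _)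
        (empty_subset _) (fun x hx => absurd hx (notMem_empty x))
        (fun x hx => absurd hx (notMem_empty x))
        (by obtain ⟨z, hz⟩ := (hC 0).ne; exact ⟨z, hz, notMem_empty z⟩)
        (by obtain ⟨z, hz⟩ := (hC' 0).ne; exact ⟨z, hz, notMem_empty z⟩)
        (by rw [sdiff_empty, sdiff_empty]; exact hb0)
      rwa [sdiff_empty, sdiff_empty] at this
    | succ i =>
      exact h1 a S m M M' u u' (C (i + 1)) (C' (i + 1)) (C i) (C' i) hS hM hM' (hC (i + 1))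
        (hC' (i + 1)) (hmo i) (hmo' i) (hC i).init (hC' i).init (hst i) (hst' i) (hb i)
  have hch : ∀ i, ∃ c c', c ∈ a1P C i ∧ c' ∈ a1P C' i ∧
      BF M M' (a1P C i) (a1P C' i) l {(c, c')} := by
    intro i
    obtain ⟨c, hc⟩ := a1_ne hC hst i
    obtain ⟨c', hc', hcb⟩ := (hbP i).forth hlm hc
    exact ⟨c, c', hc, hc', by rwa [insert_empty_eq] at hcb⟩
  choose c c' hc hc' hcb using hch
  have hcL : ∀ i, c i ∈ Lw S M u := fun i => (hC i).sub (a1P_sub C i (hc i))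
  have hcL' : ∀ i, c' i ∈ Lw S M' u' := fun i => (hC' i).sub (a1P_sub C' i (hc' i))
  have hlt : ∀ i, Adj M (c i) (c (i + 1)) := a1_step hM hC hc
  have hlt' : ∀ i, Adj M' (c' i) (c' (i + 1)) := a1_step hM' hC' hc'
  refine h2 a S M M' u u' c c' hS hM hM' hcL hcL' hlt hlt' (a1_cof hM hC hc hcov)
    (a1_cof hM' hC' hc' hcov') ?_ ?_
  · have hb := resLe (c := c 0) (c' := c' 0) (p := {(c 0, c' 0)}) rfl (hcb 0)
    rw [a1_zero hS hM hC (hc 0), a1_zero hS hM' hC' (hc' 0)] at hb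
    refine hl _ _ _ _ _ (hcL 0).2 (finite_singleton _) ?_ hb
    rw [singleton_subset_iff]
    exact ⟨right_mem_Ic hM (hcL 0).1, right_mem_Ic hM' (hcL' 0).1⟩
  · intro i
    have hp : ({(c i, c' i), (c (i + 1), c' (i + 1))} : Set (ℕ × ℕ)) ⊆
        Ic M (c i) (c (i + 1)) ×ˢ Ic M' (c' i) (c' (i + 1)) := by
      rintro w (rfl | rfl)
      · exact ⟨left_mem_Ic hM (hM.asymm (hlt i)), left_mem_Ic hM' (hM'.asymm (hlt' i))⟩
      · exact ⟨right_mem_Ic hM (hM.asymm (hlt i)), right_mem_Ic hM' (hM'.asymm (hlt' i))⟩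
    refine hl _ _ _ _ _ (Lw_piece hS hM (hcL i) (hcL (i + 1)) (hM.asymm (hlt i)))
      (by simp) hp ?_
    refine sum2BF hM hM' (C i) (C' i) hp ?_ ?_ ?_ ?_ ?_
    · intro x _ hx y hy hy'
      refine a1_lt (hC i) hx ?_ hy'
      exact Lw_init hS hM (hcL (i + 1)) (hM.le_trans (hcL i).1 hy.1) hy.2
    · intro x _ hx y hy hy'
      refine a1_lt (hC' i) hx ?_ hy'
      exact Lw_init hS hM' (hcL' (i + 1)) (hM'.le_trans (hcL' i).1 hy.1) hy.2
    · rintro w (rfl | rfl)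
      · exact ⟨fun _ => a1P_sub C' i (hc' i), fun _ => a1P_sub C i (hc i)⟩
      · exact ⟨fun h => absurd h (a1_nxt C (hc (i + 1))),
          fun h => absurd h (a1_nxt C' (hc' (i + 1)))⟩
    · rw [← a1_low hM hC hc i, ← a1_low hM' hC' hc' i]
      refine (resGe (c := c i) (c' := c' i) (p := {(c i, c' i)}) rfl (hcb i)).subset ?_
      rintro w ⟨rfl | rfl, h4⟩
      · rfl
      · exact absurd h4 (a1_nxt C (hc (i + 1)))
    · rw [← a1_up hS hM hC hc i, ← a1_up hS hM' hC' hc' i]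
      refine (resLe (c := c (i + 1)) (c' := c' (i + 1)) (p := {(c (i + 1), c' (i + 1))}) rfl
        (hcb (i + 1))).subset ?_
      rintro w ⟨rfl | rfl, h4⟩
      · exact absurd (a1P_sub C i (hc i)) h4
      · rfl

end Pool.Agent.H533R2.VO
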