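import Pool.Agent.H533R2.VO.Spec
import Pool.Agent.H899R2.VP.Few

set_option autoImplicit false

/-! Task BLKV: types of infinite blocks. -/

namespace Pool.Agent.H533R2.VO

open Set
open Pool.Agent.H899R2.VP

variable {a : ℕ → ℕ}

private theorem blkv_iso_of_riso {R R' : RS a} (h : RIso R R') :
    IsoOn (lift R) (lift R') univ univ ∅ := by
  obtain ⟨σ, hσ⟩ := h
  refine ⟨{w | w.2 = σ w.1}, empty_subset _, fun _ _ => ⟨trivial, trivial⟩, ⟨?_, ?_, ?_⟩, ?_, ?_⟩
  · rintro ⟨u, u'⟩ hu ⟨v, v'⟩ hv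
    simp only [Set.mem_ofPred_eq] at hu hv
    simp only
    rw [hu, hv]
    exact σ.injective.eq_iff.symm
  · intro u _ v _
    rfl
  · intro i t ht
    have h1 : (fun k => (t k).2) = ⇑σ ∘ fun k => (t k).1 := funext fun k => ht k
    show R i (fun k => (t k).1) = R' i (fun k => (t k).2)
    rw [h1, hσ]
  · intro x _
    exact ⟨σ x, rfl⟩
  · intro y _
    exact ⟨σ.symm y, by simp⟩

private theorem blkv_riso_of_iso {R R' : RS a} (h : IsoOn (lift R) (lift R') univ univ ∅) :
    RIso R R' := by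
  obtain ⟨q, -, -, h3, h4, h5⟩ := h
  choose f hf using fun x => h4 x trivial
  have hinj : Function.Injective f := fun x y hxy => h3.fst_eq (hf x) (hf y) hxy
  have hsurj : Function.Surjective f := by
    intro y
    obtain ⟨x, hx⟩ := h5 y trivial
    exact ⟨x, h3.snd_eq (hf x) hx rfl⟩
  refine ⟨Equiv.ofBijective f ⟨hinj, hsurj⟩, ?_⟩
  intro i v
  have := h3.2.2 i (fun k => (v k, f (v k))) (fun k => hf (v k))
  exact this.symm

private theorem blkv_enum {C : Set ℕ} (hC : C.Infinite) :
    ∃ e : ℕ → ℕ, Function.Injective e ∧ ∀ z, z ∈ C ↔ ∃ n, e n = z := by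
  classical
  haveI : Infinite C := hC.to_subtype
  refine ⟨fun n => (Nat.Subtype.orderIsoOfNat C n : ℕ), ?_, ?_⟩
  · intro m n h
    exact (Nat.Subtype.orderIsoOfNat C).injective (Subtype.ext h)
  · intro z
    constructor
    · intro hz
      refine ⟨(Nat.Subtype.orderIsoOfNat C).symm ⟨z, hz⟩, ?_⟩
      simp
    · rintro ⟨n, rfl⟩
      exact (Nat.Subtype.orderIsoOfNat C n).2

private theorem blkv_infinite {M N : St a} {C Y : Set ℕ} (hC : C.Infinite) {α : Ordinal.{0}}
    (hα : Ordinal.omega0 ≤ α) (h : BF M N C Y α ∅) : Y.Infinite := by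
  classical
  intro hY
  obtain ⟨s, hsC, hs⟩ := hC.exists_subset_card_eq (hY.toFinset.card + 1)
  have hlt : (0 : Ordinal.{0}) + ((hY.toFinset.card + 1 : ℕ) : Ordinal.{0}) ≤ α := by
    rw [zero_add]
    exact (Ordinal.natCast_lt_omega0 _).le.trans hα
  obtain ⟨t, ht1, ht2, ht3⟩ := (h.mono hlt).forth_list s.toList (by simp [hs])
    (fun x hx => hsC (by simpa using hx))
  have hp := ht3.piso
  have hnd : t.Nodup := by
    rw [List.nodup_iff_injective_get]
    intro i j hij
    have hi : i.1 < s.toList.length := by rw [← ht1]; exact i.2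
    have hj : j.1 < s.toList.length := by rw [← ht1]; exact j.2
    have hmi : (s.toList[i.1], t[i.1]) ∈ zipSet s.toList t := by
      show _ ∈ s.toList.zip t
      rw [List.mem_iff_getElem]
      exact ⟨i.1, by simp [hi, i.2] at *; omega, by simp⟩
    have hmj : (s.toList[j.1], t[j.1]) ∈ zipSet s.toList t := by
      show _ ∈ s.toList.zip t
      rw [List.mem_iff_getElem]
      exact ⟨j.1, by simp [hj, j.2] at *; omega, by simp⟩
    have h1 : s.toList[i.1] = s.toList[j.1] := hp.fst_eq (Or.inr hmi) (Or.inr hmj) hij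
    exact Fin.ext ((s.nodup_toList.getElem_inj_iff).1 h1)
  have h2 : t.toFinset ⊆ hY.toFinset := by
    intro y hy
    simp only [List.mem_toFinset] at hy
    simpa using ht2 y hy
  have h3 := Finset.card_le_card h2
  rw [List.toFinset_card_of_nodup hnd, ht1, Finset.length_toList, hs] at h3
  omega

theorem t_BLKV (h1 : S_MEAS1) (h2 : S_BREP) (h3 : S_PUT) (h4 : S_GLC) : S_BLKV := by
  classical
  intro a α K V hG hV hKV M hM x hinf
  set C := Ic M x x with hC
  obtain ⟨e, he, hemem⟩ := blkv_enum hinf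
  set B : Set (RS a) := {R : RS a | BF M (lift R) C univ α ∅} with hB
  have hBmeas : MeasurableSet B := by
    have hm := h1 a M C (fun _ => univ) (fun z => by simp) α hG.lt ∅
    have hlift : Measurable (lift : RS a → St a) := measurable_const.prodMk measurable_id
    exact hlift hm
  have hBinv1 : ∀ R R' : RS a, RIso R R' → R ∈ B → R' ∈ B := by
    intro R R' hRR hR
    exact bf_comp0 hR ((blkv_iso_of_riso hRR).bf α)
  have hBinv : ∀ R R' : RS a, RIso R R' → (R ∈ B ↔ R' ∈ B) := by
    intro R R' hRR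
    refine ⟨hBinv1 R R' hRR, fun hR => ?_⟩
    exact bf_comp0 hR ((iso_symm0 (blkv_iso_of_riso hRR)).bf α)
  have hBV : ∀ R ∈ B, V R := by
    intro R hR
    obtain ⟨k1, k2, k3, -⟩ := h2 a α K hG M hM x e he hemem R hR
    have := hKV _ k1 x e he (by rw [k2]; exact hemem)
    have heq : (fun (i : ℕ) (v : Fin (a i) → ℕ) =>
        (Glu M (fun _ : Unit => Ic M x x) (fun _ => put e R)).2 i (e ∘ v)) = R := by
      funext i v
      exact k3 i v
    rw [heq] at this
    exact this
  rcases hV B hBmeas hBinv hBV with ⟨f, hf⟩ | ⟨g, hgc, hg, hgd⟩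
  · refine ⟨fun n => (lift (f n), univ), ?_⟩
    intro N Y hN hY hbf
    have hYinf := blkv_infinite hinf hG.om hbf
    obtain ⟨e', he', hemem'⟩ := blkv_enum hYinf
    set R : RS a := fun i v => N.2 i (e' ∘ v) with hR
    have hiso : IsoOn (lift R) N univ Y ∅ := by
      refine ⟨{w | w.2 = e' w.1}, empty_subset _, ?_, ⟨?_, ?_, ?_⟩, ?_, ?_⟩
      · rintro ⟨u, v⟩ huv
        exact ⟨trivial, (hemem' v).2 ⟨u, huv.symm⟩⟩
      · rintro ⟨u, u'⟩ hu ⟨v, v'⟩ hv
        simp only [Set.mem_ofPred_eq] at hu hv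
        simp only
        rw [hu, hv]
        exact he'.eq_iff.symm
      · rintro ⟨u, u'⟩ hu ⟨v, v'⟩ hv
        simp only [Set.mem_ofPred_eq] at hu hv
        have := hY u' ((hemem' u').2 ⟨u, hu.symm⟩) v' ((hemem' v').2 ⟨v, hv.symm⟩)
        unfold Adj at this
        simp only [Bool.not_eq_true] at this
        rw [this]
        rfl
      · intro i t ht
        have h1 : (fun k => (t k).2) = e' ∘ fun k => (t k).1 := funext fun k => ht k
        show R i (fun k => (t k).1) = N.2 i (fun k => (t k).2)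
        rw [h1]
      · intro u _
        exact ⟨e' u, rfl⟩
      · intro v hv
        obtain ⟨u, hu⟩ := (hemem' v).1 hv
        exact ⟨u, hu.symm⟩
    have hRB : R ∈ B := bf_comp0 hbf ((iso_symm0 hiso).bf α)
    obtain ⟨n, hn⟩ := hf R hRB
    exact ⟨n, iso_trans0 (blkv_iso_of_riso hn) hiso⟩
  · exfalso
    obtain ⟨-, -, -, p4⟩ := h3 a e he
    have hcont : Continuous fun c : ℕ → Bool =>
        Glu M (fun _ : Unit => Ic M x x) (fun _ => put e (g c)) := by
      refine h4 a Unit M (fun _ => Ic M x x) (fun _ c => put e (g c)) ?_ ?_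
      · intro i j hij
        exact absurd (Subsingleton.elim i j) hij
      · intro _
        exact p4.comp hgc
    refine few_base hG.meas hG.few (F := {x}) (finite_singleton x)
      (fun c => Glu M (fun _ : Unit => Ic M x x) (fun _ => put e (g c))) hcont ?_ ?_
    · intro c
      exact (h2 a α K hG M hM x e he hemem (g c) (hg c)).1
    · intro c d hcd
      obtain ⟨-, c2, -, c4⟩ := h2 a α K hG M hM x e he hemem (g c) (hg c)
      obtain ⟨-, d2, -, d4⟩ := h2 a α K hG M hM x e he hemem (g d) (hg d)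
      have hxx : (x, x) ∈ idOn ({x} : Set ℕ) := ⟨rfl, rfl⟩
      have hr := (resIsoIc hxx hxx hcd).mono (empty_subset _)
      rw [c2, d2, univ_inter] at hr
      exact hgd c d (blkv_riso_of_iso (iso_trans0 (iso_trans0 (c4.mono (empty_subset _)) hr)
        (iso_symm0 (d4.mono (empty_subset _)))))

end Pool.Agent.H533R2.VO
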