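import Pool.Agent.H533R2.VO.Spec

set_option autoImplicit false

/-! Replacing an infinite block by an equivalent one. -/

namespace Pool.Agent.H533R2.VO

open Set
open Pool.Agent.H899R2.VP

theorem t_BREP (h1 : S_PUT) (_h2 : S_GLO) (h3 : S_GLF) (h4 : S_GLB) : S_BREP := by
  intro a α K hG M hM x e he hz R hb
  obtain ⟨p1, p2, p3, -⟩ := h1 a e he
  have hr : range e = Ic M x x := by
    ext z
    rw [hz z]
    exact Iff.rfl
  have hos := hG.os M hM
  have hx : x ∈ Ic M x x := left_mem_Ic hos (hos.irr x)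
  have hiso := p2 R
  rw [hr] at hiso
  have ga : GA α M (fun _ : Unit => x) (fun _ => x) (fun _ => put e R) :=
    { os := hos
      le := fun _ => hos.irr x
      dj := fun i j h => absurd (Subsingleton.elim i j) h
      osT := fun _ => p1 R
      bf := fun _ => bf_comp0 hb ((hiso.bf α).subset (empty_subset _)) }
  obtain ⟨-, f2, f3⟩ := h3 a Unit α M _ _ _ ga
  refine ⟨hG.closed M hM _ (h4 a Unit α M _ _ _ ga), ?_, ?_, ?_⟩
  · have h5 : Ic (put e R) x x = univ := by
      ext z
      refine ⟨fun _ => mem_univ z, fun _ => ⟨?_, ?_⟩⟩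
      · intro h
        exact Bool.false_ne_true h
      · intro h
        exact Bool.false_ne_true h
    have h6 := f2 () x hx x hx
    rw [h5, inter_univ] at h6
    exact h6
  · intro i v
    by_cases hi : Nonempty (Fin (a i))
    · rw [Glu_rel (fun i j h => absurd (Subsingleton.elim i j) h) (j := ()) hi]
      · exact p3 R i v
      · intro k
        rw [hz]
        exact ⟨v k, rfl⟩
    · rw [Glu_rel' (fun h => hi h.1)]
      exact hb.piso.2.2 i (fun k => (e (v k), v k)) (fun k => absurd ⟨k⟩ hi)
  · have h5 := hiso.trans (f3 ())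
    have h6 : comp {w : ℕ × ℕ | w.2 = e w.1} (idOn (Ic M x x)) = {w : ℕ × ℕ | w.2 = e w.1} := by
      apply comp_idOn_right
      intro u hu
      rw [hz]
      exact ⟨u.1, hu.symm⟩
    have h7 : comp {w : ℕ × ℕ | w.2 = e w.1}
        (idOn (Ic M ((fun _ : Unit => x) ()) ((fun _ : Unit => x) ()))) =
        {w : ℕ × ℕ | w.2 = e w.1} := h6
    rw [h7] at h5
    exact h5

end Pool.Agent.H533R2.VO
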