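import Pool.Agent.H533R2.VO.Spec

set_option autoImplicit false

/-!
# Big intervals contradict the absence of a perfect set of types
-/

namespace Pool.Agent.H533R2.VO

open Set
open Pool.Agent.H899R2.VP

theorem code_symm {a : ℕ → ℕ} {M N : St a} (h : IsoOn M N univ univ ∅) :
    IsoOn N M univ univ ∅ := by
  have h1 := h.symm
  have h2 : inv (∅ : Set (ℕ × ℕ)) = ∅ := rfl
  rw [h2] at h1
  exact h1

theorem code_div (n : ℕ) (b : Bool) : (2 * n + b.toNat) / 2 = n := by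
  cases b <;> simp [Bool.toNat] <;> omega

theorem code_GA {a : ℕ → ℕ} {α : Ordinal.{0}} {M : St a} {lo hi : ℕ → ℕ → ℕ}
    (hLH : LH M lo hi) (h5 : S_LHF) {t : ℕ → ℕ → St a} (ht : GoodT α M lo hi t) (σ : ℕ → Bool) :
    GA α M (fun j : ℕ × ℕ => lo j.1 j.2) (fun j : ℕ × ℕ => hi j.1 j.2)
      (fun j : ℕ × ℕ => t (2 * j.1 + (σ j.1).toNat) j.2) where
  os := hLH.os
  le := fun j => hLH.os.asymm (hLH.lt j.1 j.2)
  dj := (h5 a M lo hi hLH).1
  osT := fun j => (ht (2 * j.1 + (σ j.1).toNat) j.2).1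
  bf := fun j => by
    have h := (ht (2 * j.1 + (σ j.1).toNat) j.2).2.1
    rw [code_div] at h
    exact h

theorem code_iff {a : ℕ → ℕ} {α : Ordinal.{0}} {M : St a} {lo hi : ℕ → ℕ → ℕ}
    (hLH : LH M lo hi) (h5 : S_LHF) (h6 : S_DEC1) (h7 : S_DEC2) {t : ℕ → ℕ → St a}
    (ht : GoodT α M lo hi t) (σ : ℕ → Bool) (n : ℕ) :
    σ n = true ↔ CS (FF M lo hi t (2 * n)) (DS M lo hi t σ) =
      CS (FF M lo hi t (2 * n + 1)) (DS M lo hi t σ) := by
  obtain ⟨ha1, ha2, ha3⟩ := h6 a α M lo hi t σ hLH ht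
  obtain ⟨hb1, hb2⟩ := h7 a α M lo hi t σ hLH ht
  have h0 : CS (FF M lo hi t (2 * n)) (DS M lo hi t σ) = En M lo n :=
    Subset.antisymm (hb1 n) (ha1 n)
  rw [h0]
  constructor
  · intro h
    exact Subset.antisymm (ha2 n) (hb2 n h)
  · intro h
    cases hσ : σ n with
    | true => rfl
    | false =>
      exfalso
      obtain ⟨z, hz1, hz2⟩ := (h5 a M lo hi hLH).2.2.2.2.1 n (n + 1) (by omega)
      exact hz2 (h ▸ ha3 n hσ hz1)

theorem t_CODE (h1 : S_SEQ) (h3 : S_GLB) (h4 : S_GLC) (h5 : S_LHF)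
    (h6 : S_DEC1) (h7 : S_DEC2) (h8 : S_CSI) : S_CODE := by
  intro a α K hG M hM lo hi hLH hns
  obtain ⟨t, ht⟩ := h1 a α M lo hi hG.om hns
  have hdisj := (h5 a M lo hi hLH).1
  refine hG.few ⟨fun σ => DS M lo hi t σ, ?_, fun σ => ?_, fun c d hcd => ?_⟩
  · refine h4 a (ℕ × ℕ) M (fun j : ℕ × ℕ => Ic M (lo j.1 j.2) (hi j.1 j.2))
      (fun (j : ℕ × ℕ) (σ : ℕ → Bool) => t (2 * j.1 + (σ j.1).toNat) j.2) hdisj fun j => ?_
    exact (continuous_of_discreteTopology (f := fun b : Bool => t (2 * j.1 + b.toNat) j.2)).comp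
      (continuous_apply j.1)
  · exact hG.closed M hM _ (h3 a (ℕ × ℕ) α M _ _ _ (code_GA hLH h5 ht σ))
  · funext n
    have hc := code_iff hLH h5 h6 h7 ht c n
    have hd := code_iff hLH h5 h6 h7 ht d n
    have hiff : c n = true ↔ d n = true := by
      rw [hc, hd]
      exact ⟨h8 a _ _ _ _ hcd, h8 a _ _ _ _ (code_symm hcd)⟩
    exact Bool.eq_iff_iff.2 hiff

end Pool.Agent.H533R2.VO
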