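import Pool.Agent.H533R2.VO.Spec
import Pool.Agent.H899R2.VP.Borel

set_option autoImplicit false

/-! Task FINAL. -/

namespace Pool.Agent.H533R2.VO

open Set
open Pool.Agent.H899R2.VP

/-- A permutation preserving everything gives an isomorphism. -/
theorem final_iso_of_perm {a : ℕ → ℕ} {M N : St a} (σ : Equiv.Perm ℕ)
    (h1 : ∀ x y, N.1 (σ x) (σ y) = M.1 x y)
    (h2 : ∀ (i : ℕ) (v : Fin (a i) → ℕ), N.2 i (⇑σ ∘ v) = M.2 i v) :
    IsoOn M N univ univ ∅ := by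
  refine ⟨{u | u.2 = σ u.1}, empty_subset _, ?_, ⟨?_, ?_, ?_⟩, ?_, ?_⟩
  · intro u _; exact ⟨mem_univ _, mem_univ _⟩
  · rintro ⟨u, u'⟩ hu ⟨v, v'⟩ hv
    simp only [Set.mem_ofPred_eq] at hu hv
    subst hu hv
    simp
  · rintro ⟨u, u'⟩ hu ⟨v, v'⟩ hv
    simp only [Set.mem_ofPred_eq] at hu hv
    subst hu hv
    exact (h1 u v).symm
  · intro i t ht
    have h3 : (fun k => (t k).2) = ⇑σ ∘ fun k => (t k).1 := by
      funext k
      exact ht k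
    rw [h3]
    exact (h2 i _).symm
  · intro x _
    exact ⟨σ x, rfl⟩
  · intro y _
    exact ⟨σ.symm y, by simp⟩

/-- An isomorphism gives a permutation preserving everything. -/
theorem final_perm_of_iso {a : ℕ → ℕ} {M N : St a} (h : IsoOn M N univ univ ∅) :
    ∃ σ : Equiv.Perm ℕ, (∀ x y, N.1 (σ x) (σ y) = M.1 x y) ∧
      ∀ (i : ℕ) (v : Fin (a i) → ℕ), N.2 i (⇑σ ∘ v) = M.2 i v := by
  obtain ⟨e, -, he⟩ := h.exists_equiv
  refine ⟨e, fun x y => ?_, fun i v => ?_⟩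
  · exact (he.2.1 (x, e x) rfl (y, e y) rfl).symm
  · exact (he.2.2 i (fun k => (v k, e (v k))) (fun k => rfl)).symm

theorem t_FINAL (h1 : S_BLK) (h2 : S_MAIN) : S_FINAL := by
  intro a V hVC B hBm hBi hB
  by_cases hg : ∃ g : (ℕ → Bool) → St a, Continuous g ∧ (∀ c, g c ∈ B) ∧
    ∀ c d : ℕ → Bool, (∃ σ : Equiv.Perm ℕ, (∀ x y, (g d).1 (σ x) (σ y) = (g c).1 x y) ∧
      ∀ (i : ℕ) (v : Fin (a i) → ℕ), (g d).2 i (⇑σ ∘ v) = (g c).2 i v) → c = d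
  · exact Or.inr hg
  left
  have hKinv : ∀ M ∈ B, ∀ N : St a, IsoOn M N univ univ ∅ → N ∈ B := by
    intro M hM N hMN
    obtain ⟨σ, hσ1, hσ2⟩ := final_perm_of_iso hMN
    exact (hBi M N σ hσ1 hσ2).1 hM
  obtain ⟨α₀, hα₀, hcl⟩ := closed_rank hBm hKinv
  have hω : Ordinal.omega0 < Ordinal.omega.{0} 1 := by
    rw [← Ordinal.omega_zero]; exact Ordinal.omega_lt_omega.2 one_pos
  have hG : G (max α₀ Ordinal.omega0) B := by
    refine ⟨hBm, max_lt hα₀ hω, le_max_right _ _, ?_, fun M hM => (hB M hM).1, ?_⟩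
    · exact fun M hM N hb => hcl M hM N (hb.mono (le_max_left _ _))
    · rintro ⟨g, hgc, hg1, hg2⟩
      refine hg ⟨g, hgc, hg1, ?_⟩
      rintro c d ⟨σ, hσ1, hσ2⟩
      exact hg2 c d (final_iso_of_perm σ hσ1 hσ2)
  have hBlk : BlkC B := h1 a _ B V hG hVC fun M hM => (hB M hM).2
  obtain ⟨f, hf⟩ := h2 a _ B hG hBlk
  refine ⟨f, fun M hM => ?_⟩
  obtain ⟨n, hn⟩ := hf M hM
  obtain ⟨σ, hσ1, hσ2⟩ := final_perm_of_iso hn
  exact ⟨n, σ, hσ1, hσ2⟩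

end Pool.Agent.H533R2.VO
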