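import Pool.Agent.H533R2.VO.Spec
set_option autoImplicit false
namespace Pool.Agent.H533R2.VO
open Set
open Pool.Agent.H899R2.VP

section glw

variable {a : ℕ → ℕ} {S : Set (St a × Set ℕ)} {M : St a} {u : ℕ} {c : ℕ → ℕ}

open Classical in
/-- the number of the part -/
noncomputable def glwPi (M : St a) (c : ℕ → ℕ) (z : ℕ) : ℕ :=
  if h : ∃ i, Adj M z (c i) then Nat.find h else 0

theorem glw_mono (hM : OS M) (hc : ∀ i, Adj M (c i) (c (i + 1))) {i j : ℕ} (h : i ≤ j) :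
    ¬ Adj M (c j) (c i) := by
  induction j, h using Nat.le_induction with
  | base => exact hM.irr _
  | succ j _ ih => exact hM.le_trans ih (hM.asymm (hc j))

theorem glw_iff (hM : OS M) (hc : ∀ i, Adj M (c i) (c (i + 1))) {z : ℕ}
    (hz : ∃ i, Adj M z (c i)) (i : ℕ) : Adj M z (c i) ↔ glwPi M c z ≤ i := by
  classical
  unfold glwPi
  rw [dif_pos hz]
  constructor
  · intro h
    exact Nat.find_min' hz h
  · intro h
    exact hM.lt_le (Nat.find_spec hz) (glw_mono hM hc h)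

theorem glw_adj (hM : OS M) (hc : ∀ i, Adj M (c i) (c (i + 1))) {x y : ℕ}
    (hx : ∃ i, Adj M x (c i)) (hy : ∃ i, Adj M y (c i)) (hne : glwPi M c x ≠ glwPi M c y) :
    Adj M x y ↔ glwPi M c x < glwPi M c y := by
  have key : ∀ x y : ℕ, (∃ i, Adj M x (c i)) → (∃ i, Adj M y (c i)) →
      glwPi M c x < glwPi M c y → Adj M x y := by
    intro x y hx hy h
    have h1 : Adj M x (c (glwPi M c x)) := (glw_iff hM hc hx _).2 le_rfl
    have h2 : ¬ Adj M y (c (glwPi M c x)) := fun h3 =>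
      absurd ((glw_iff hM hc hy _).1 h3) (not_le.2 h)
    exact hM.lt_le h1 h2
  constructor
  · intro h
    rcases lt_or_gt_of_ne hne with h1 | h1
    · exact h1
    · exact absurd h (hM.asymm (key y x hy hx h1))
  · exact key x y hx hy

theorem glw_part0 (hS : Fam S) (hM : OS M) (hc : ∀ i, Adj M (c i) (c (i + 1)))
    (hcL : ∀ i, c i ∈ Lw S M u) (hL : ∀ z ∈ Lw S M u, ∃ i, Adj M z (c i)) :
    {x | x ∈ Lw S M u ∧ glwPi M c x = 0} = Ic M u (c 0) ∩ Lt M (c 0) := by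
  ext x
  constructor
  · rintro ⟨h1, h2⟩
    have h3 : Adj M x (c 0) := (glw_iff hM hc (hL x h1) 0).2 h2.le
    exact ⟨⟨h1.1, hM.asymm h3⟩, h3⟩
  · rintro ⟨h1, h2⟩
    have h3 : x ∈ Lw S M u := Lw_Ic hS hM (hcL 0) h1
    exact ⟨h3, Nat.le_zero.1 ((glw_iff hM hc (hL x h3) 0).1 h2)⟩

theorem glw_part (hS : Fam S) (hM : OS M) (hc : ∀ i, Adj M (c i) (c (i + 1)))
    (hcL : ∀ i, c i ∈ Lw S M u) (hL : ∀ z ∈ Lw S M u, ∃ i, Adj M z (c i)) (i : ℕ) :
    {x | x ∈ Lw S M u ∧ glwPi M c x = i + 1} = Ic M (c i) (c (i + 1)) ∩ Lt M (c (i + 1)) := by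
  ext x
  constructor
  · rintro ⟨h1, h2⟩
    have h3 : Adj M x (c (i + 1)) := (glw_iff hM hc (hL x h1) _).2 h2.le
    have h4 : ¬ Adj M x (c i) := fun h5 => by
      have := (glw_iff hM hc (hL x h1) i).1 h5
      omega
    exact ⟨⟨h4, hM.asymm h3⟩, h3⟩
  · rintro ⟨h1, h2⟩
    have h3 : x ∈ Lw S M u :=
      Lw_init hS hM (hcL (i + 1)) (hM.le_trans (hcL i).1 h1.1) h1.2
    refine ⟨h3, le_antisymm ((glw_iff hM hc (hL x h3) _).1 h2) ?_⟩
    by_contra h4
    exact h1.1 ((glw_iff hM hc (hL x h3) i).2 (by omega))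

theorem glw_rel (hM : OS M) (hc : ∀ i, Adj M (c i) (c (i + 1)))
    (hL : ∀ z ∈ Lw S M u, ∃ i, Adj M z (c i)) (i : ℕ) (t : Fin (a i) → ℕ) (ht : M.2 i t = true)
    (hk : ∀ k, t k ∈ Lw S M u) (j k : Fin (a i)) : glwPi M c (t j) = glwPi M c (t k) := by
  by_contra hne
  rcases lt_or_gt_of_ne hne with h | h
  · exact hM.loc i t ht j k ((glw_adj hM hc (hL _ (hk j)) (hL _ (hk k)) hne).2 h)
  · exact hM.loc i t ht k j ((glw_adj hM hc (hL _ (hk k)) (hL _ (hk j)) (Ne.symm hne)).2 h)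

end glw

theorem t_GLW : S_GLW := by
  intro a S M M' u u' c c' hS hM hM' hcL hcL' hc hc' hL hL' h0 hi
  refine sumIso (glwPi M c) (glwPi M' c') (fun i j => i < j) (empty_subset _) ?_ ?_ ?_ ?_ ?_ ?_
  · intro x hx y hy hne
    exact glw_adj hM hc (hL x hx) (hL y hy) hne
  · intro x hx y hy hne
    exact glw_adj hM' hc' (hL' x hx) (hL' y hy) hne
  · intro i t ht hk j k
    exact glw_rel hM hc hL i t ht hk j k
  · intro i t ht hk j k
    exact glw_rel hM' hc' hL' i t ht hk j k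
  · intro w hw
    exact absurd hw (notMem_empty w)
  · intro i
    rcases i with _ | i
    · rw [glw_part0 hS hM hc hcL hL, glw_part0 hS hM' hc' hcL' hL']
      exact (resIsoLt (mem_singleton _) h0).mono fun w hw => absurd hw.1 (notMem_empty w)
    · rw [glw_part hS hM hc hcL hL i, glw_part hS hM' hc' hcL' hL' i]
      exact (resIsoLt (mem_insert_of_mem _ (mem_singleton _)) (hi i)).mono
        fun w hw => absurd hw.1 (notMem_empty w)

end Pool.Agent.H533R2.VO
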