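import Pool.Agent.H533R2.VO.Spec

set_option autoImplicit false

namespace Pool.Agent.H533R2.VO

open Set
open Pool.Agent.H899R2.VP

variable {a : ℕ → ℕ}

/-- Simple intervals: not in `S`, but every point in between has one half in `S`. -/
private structure SimP (K : Set (St a)) (S : Set (St a × Set ℕ)) (M : St a) (x y : ℕ) : Prop where
  mem : M ∈ K
  lt : Adj M x y
  nin : (M, Ic M x y) ∉ S
  no : ∀ z, Adj M x z → Adj M z y → (M, Ic M x z) ∈ S ∨ (M, Ic M z y) ∈ S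

private theorem simL {K : Set (St a)} {S : Set (St a × Set ℕ)} {M : St a} {x y : ℕ}
    (hS : Fam S) (hM : OS M) (h : SimP K S M x y) : Lw S M x ⊆ Ic M x y := by
  intro z hz
  refine ⟨hz.1, fun hyz => h.nin ?_⟩
  exact hS.sub M hM x z x y hz.2 (hM.irr x) (hM.asymm h.lt) (hM.asymm hyz)

private theorem simU {K : Set (St a)} {S : Set (St a × Set ℕ)} {M : St a} {x y : ℕ}
    (hS : Fam S) (hM : OS M) (h : SimP K S M x y) : Uw S M y ⊆ Ic M x y := by
  intro z hz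
  refine ⟨fun hzx => h.nin ?_, hz.1⟩
  exact hS.sub M hM z y x y hz.2 (hM.asymm hzx) (hM.asymm h.lt) (hM.irr y)

private theorem simD {K : Set (St a)} {S : Set (St a × Set ℕ)} {M : St a} {x y : ℕ}
    (hS : Fam S) (hM : OS M) (h : SimP K S M x y) {z : ℕ} (h1 : z ∈ Lw S M x)
    (h2 : z ∈ Uw S M y) : False :=
  h.nin (hS.glue M hM x z y h1.1 h2.1 h1.2 h2.2)

private theorem simC {K : Set (St a)} {S : Set (St a × Set ℕ)} {M : St a} {x y : ℕ}
    (hS : Fam S) (hM : OS M) (hb : ∀ x, (M, Ic M x x) ∈ S) (h : SimP K S M x y) {z : ℕ}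
    (hz : z ∈ Ic M x y) : z ∈ Lw S M x ∨ z ∈ Uw S M y := by
  by_cases h1 : Adj M x z
  · by_cases h2 : Adj M z y
    · rcases h.no z h1 h2 with h3 | h3
      · exact Or.inl ⟨hz.1, h3⟩
      · exact Or.inr ⟨hz.2, h3⟩
    · exact Or.inr ⟨hz.2, hS.sub M hM y y z y (hb y) h2 hz.2 (hM.irr y)⟩
  · exact Or.inl ⟨hz.1, hS.sub M hM x x x z (hb x) (hM.irr x) hz.1 h1⟩

private theorem simLt {K : Set (St a)} {S : Set (St a × Set ℕ)} {M : St a} {x y : ℕ}
    (hS : Fam S) (hM : OS M) (h : SimP K S M x y) {z w : ℕ} (h1 : z ∈ Lw S M x)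
    (h2 : w ∈ Uw S M y) : Adj M z w := by
  by_contra h3
  exact simD hS hM h (Lw_init hS hM h1 (simU hS hM h h2).1 h3) h2

private theorem sim_inter {K : Set (St a)} {S : Set (St a × Set ℕ)} {M : St a} {x y : ℕ}
    (hS : Fam S) (hM : OS M) (h : SimP K S M x y) : Ic M x y ∩ Lw S M x = Lw S M x :=
  inter_eq_right.2 (simL hS hM h)

private theorem sim_diff {K : Set (St a)} {S : Set (St a × Set ℕ)} {M : St a} {x y : ℕ}
    (hS : Fam S) (hM : OS M) (hb : ∀ x, (M, Ic M x x) ∈ S) (h : SimP K S M x y) :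
    Ic M x y \ Lw S M x = Uw S M y := by
  ext z
  constructor
  · rintro ⟨h1, h2⟩
    exact (simC hS hM hb h h1).resolve_left h2
  · exact fun h1 => ⟨simU hS hM h h1, fun h2 => simD hS hM h h2 h1⟩

private theorem sim_iso {K : Set (St a)} {S : Set (St a × Set ℕ)} {M N : St a} {x y x' y' : ℕ}
    (hS : Fam S) (hM : OS M) (hN : OS N) (hb : ∀ x, (M, Ic M x x) ∈ S)
    (hb' : ∀ x, (N, Ic N x x) ∈ S) (h : SimP K S M x y) (h' : SimP K S N x' y')
    (hl : IsoOn M N (Lw S M x) (Lw S N x') ∅) (hu : IsoOn M N (Uw S M y) (Uw S N y') ∅) :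
    IsoOn M N (Ic M x y) (Ic N x' y') ∅ := by
  refine sum2Iso hM hN (Lw S M x) (Lw S N x') (empty_subset _) ?_ ?_ ?_ ?_ ?_
  · intro z _ hz w hw hw'
    exact simLt hS hM h hz ((simC hS hM hb h hw).resolve_left hw')
  · intro z _ hz w hw hw'
    exact simLt hS hN h' hz ((simC hS hN hb' h' hw).resolve_left hw')
  · intro u hu
    exact absurd hu (notMem_empty u)
  · rw [sim_inter hS hM h, sim_inter hS hN h']
    have he : {u : ℕ × ℕ | u ∈ (∅ : Set (ℕ × ℕ)) ∧ u.1 ∈ Lw S M x} = ∅ := by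
      ext u; simp
    rw [he]; exact hl
  · rw [sim_diff hS hM hb h, sim_diff hS hN hb' h']
    have he : {u : ℕ × ℕ | u ∈ (∅ : Set (ℕ × ℕ)) ∧ u.1 ∉ Lw S M x} = ∅ := by
      ext u; simp
    rw [he]; exact hu

theorem t_SIM (h1 : S_TOWC) (h2 : S_TOWR) (h3 : S_GENF) : S_SIM := by
  classical
  intro a α K S hG hS hb
  obtain ⟨f, hf⟩ := h1 a α K S hG hS hb
  obtain ⟨g, hg⟩ := h2 a α K S hG hS hb
  obtain ⟨e, he⟩ := hS.cnt
  let Q : ℕ → St a × Set ℕ → Prop := fun n P => ∃ M x y, SimP K S M x y ∧ P = (M, Ic M x y) ∧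
    IsoOn (f n.unpair.1).1 M (f n.unpair.1).2 (Lw S M x) ∅ ∧
    IsoOn (g n.unpair.2).1 M (g n.unpair.2).2 (Uw S M y) ∅
  let rep : ℕ → St a × Set ℕ := fun n => if h : ∃ P, Q n P then h.choose else e 0
  let F : ℕ → St a × Set ℕ := fun n => if n % 2 = 0 then e (n / 2) else rep (n / 2)
  obtain ⟨S', hS', hF⟩ := h3 a F
  have hS1 : ∀ n, e n ∈ S' := by
    intro n
    have := hF (2 * n)
    simpa [F] using this
  have hS2 : ∀ n, rep n ∈ S' := by
    intro n
    have h := hF (2 * n + 1)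
    have h4 : (2 * n + 1) % 2 = 1 := by omega
    have h5 : (2 * n + 1) / 2 = n := by omega
    simpa [F, h4, h5] using h
  have hsub : S ⊆ S' := by
    rintro ⟨M, X⟩ h
    obtain ⟨n, hn⟩ := he M X h
    exact hS'.iso _ _ _ _ (hS1 n) hn
  refine ⟨S', hS', hsub, ?_⟩
  intro M hM x y hxy hn
  by_contra hcon
  apply hn
  have hs : SimP K S M x y := by
    refine ⟨hM, hxy, fun h => hn (hsub h), ?_⟩
    intro z hxz hzy
    by_contra h4
    rw [not_or] at h4
    exact hcon ⟨z, hxz, hzy, h4.1, h4.2⟩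
  obtain ⟨i, hi⟩ := hf M hM x
  obtain ⟨j, hj⟩ := hg M hM y
  have hex : ∃ P, Q (Nat.pair i j) P := by
    refine ⟨(M, Ic M x y), M, x, y, hs, rfl, ?_, ?_⟩
    · simpa using hi
    · simpa using hj
  have hr : Q (Nat.pair i j) (rep (Nat.pair i j)) := by
    simp only [rep, dif_pos hex]
    exact hex.choose_spec
  obtain ⟨N, x', y', hs', hP, hi', hj'⟩ := hr
  simp only [Nat.unpair_pair] at hi' hj'
  have h5 : IsoOn N M (Ic N x' y') (Ic M x y) ∅ :=
    sim_iso hS (hG.os N hs'.mem) (hG.os M hM) (hb N hs'.mem) (hb M hM) hs' hs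
      (iso_trans0 (iso_symm0 hi') hi) (iso_trans0 (iso_symm0 hj') hj)
  have h6 := hS2 (Nat.pair i j)
  rw [hP] at h6
  exact hS'.iso _ _ _ _ h6 h5

end Pool.Agent.H533R2.VO
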