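import Pool.Agent.H899R2.VP.Scott

set_option autoImplicit false

/-!
# Vaught's conjecture and ordered sums: definitions

Structures live on `ℕ`; they consist of a binary relation `Adj M x y` (read `x < y`), which is a
strict weak order, and relations of arities `a i` living inside the incomparability classes
(called blocks) of the order.
-/

namespace Pool.Agent.H533R2.VO

open Set
open Pool.Agent.H899R2.VP (St Adj PIso BF IsoOn idOn inv comp zipSet)

variable {a : ℕ → ℕ}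

/-- Relational structures on `ℕ`. -/
abbrev RS (a : ℕ → ℕ) : Type := (i : ℕ) → (Fin (a i) → ℕ) → Bool

/-- Ordered structures: `Adj M` is a strict weak order and all tuples of the relations lie in one
incomparability class. -/
structure OS (M : St a) : Prop where
  irr : ∀ x, ¬ Adj M x x
  tr : ∀ x y z, Adj M x y → Adj M y z → Adj M x z
  ntr : ∀ x y z, Adj M x z → Adj M x y ∨ Adj M y z
  loc : ∀ i t, M.2 i t = true → ∀ j k, ¬ Adj M (t j) (t k)

/-- Closed interval `[x, y]`; `Ic M x x` is the block of `x`. -/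
def Ic (M : St a) (x y : ℕ) : Set ℕ := {z | ¬ Adj M z x ∧ ¬ Adj M y z}

/-- `[x, ∞)`. -/
def Ge (M : St a) (x : ℕ) : Set ℕ := {z | ¬ Adj M z x}

/-- `(-∞, x]`. -/
def Le (M : St a) (x : ℕ) : Set ℕ := {z | ¬ Adj M x z}

/-- `(x, ∞)`. -/
def Gt (M : St a) (x : ℕ) : Set ℕ := {z | Adj M x z}

/-- `(-∞, x)`. -/
def Lt (M : St a) (x : ℕ) : Set ℕ := {z | Adj M z x}

/-- A family of (isomorphism types of) pieces. -/
structure Fam (S : Set (St a × Set ℕ)) : Prop where
  iso : ∀ M X N Y, (M, X) ∈ S → IsoOn M N X Y ∅ → (N, Y) ∈ S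
  cnt : ∃ f : ℕ → St a × Set ℕ, ∀ M X, (M, X) ∈ S → ∃ n, IsoOn (f n).1 M (f n).2 X ∅
  sub : ∀ M, OS M → ∀ x y x' y', (M, Ic M x y) ∈ S → ¬ Adj M x' x → ¬ Adj M y' x' →
    ¬ Adj M y y' → (M, Ic M x' y') ∈ S
  glue : ∀ M, OS M → ∀ x y z, ¬ Adj M y x → ¬ Adj M z y → (M, Ic M x y) ∈ S →
    (M, Ic M y z) ∈ S → (M, Ic M x z) ∈ S

/-- `l` is a Scott level for the pieces of `S` (against arbitrary pieces). -/
def Lev (S : Set (St a × Set ℕ)) (l : Ordinal.{0}) : Prop :=
  ∀ (M : St a) (X : Set ℕ) (N : St a) (Y : Set ℕ) (p : Set (ℕ × ℕ)), (M, X) ∈ S → p.Finite →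
    p ⊆ X ×ˢ Y → BF M N X Y l p → IsoOn M N X Y p

/-- The points `x ≥ u` with `[u, x]` in the family. -/
def Lw (S : Set (St a × Set ℕ)) (M : St a) (u : ℕ) : Set ℕ :=
  {x | ¬ Adj M x u ∧ (M, Ic M u x) ∈ S}

/-- The points `x ≤ u` with `[x, u]` in the family. -/
def Uw (S : Set (St a × Set ℕ)) (M : St a) (u : ℕ) : Set ℕ :=
  {x | ¬ Adj M u x ∧ (M, Ic M x u) ∈ S}

/-- The tail of `Lw S M u` from `x` on. -/
def Lx (S : Set (St a × Set ℕ)) (M : St a) (u x : ℕ) : Set ℕ := Lw S M u ∩ Ge M x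

/-- `L` has no last block. -/
def NoLast (M : St a) (L : Set ℕ) : Prop := ∀ x ∈ L, ∃ y ∈ L, Adj M x y

/-- `φ` is an isomorphism `[u, y] → [u', y']`, and the tails from `y`, `y'` on are equivalent of
rank `n`. -/
structure Mt (S : Set (St a × Set ℕ)) (M M' : St a) (u u' : ℕ) (n : Ordinal.{0}) (y y' : ℕ)
    (φ : Set (ℕ × ℕ)) : Prop where
  memL : y ∈ Lw S M u
  memR : y' ∈ Lw S M' u'
  subset : φ ⊆ Ic M u y ×ˢ Ic M' u' y'
  piso : PIso M M' φ
  total : ∀ x ∈ Ic M u y, ∃ x', (x, x') ∈ φ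
  surj : ∀ x' ∈ Ic M' u' y', ∃ x, (x, x') ∈ φ
  base : (u, u') ∈ φ
  top : (y, y') ∈ φ
  tail : BF M M' (Lx S M u y) (Lx S M' u' y') n {(y, y')}

/-- Closed proper initial segments of `Lw S M u`. -/
structure Cls (S : Set (St a × Set ℕ)) (M : St a) (u : ℕ) (m : Ordinal.{0}) (C : Set ℕ) :
    Prop where
  sub : C ⊆ Lw S M u
  ne : C.Nonempty
  init : ∀ x ∈ C, ∀ y ∈ Lw S M u, ¬ Adj M x y → y ∈ C
  bdd : ∃ e ∈ Lw S M u, e ∉ C
  cl : ∀ x ∈ C, ∀ k < m, ∀ b ∈ Lx S M u x, ∃ b' ∈ C, ¬ Adj M b' x ∧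
    BF M M (Lx S M u x) (Lx S M u x) k {(x, x), (b, b')}

/-- All types over `x` of points of the tail are realised below `e`. -/
def Cl (S : Set (St a × Set ℕ)) (M : St a) (u : ℕ) (m : Ordinal.{0}) (x e : ℕ) : Prop :=
  ∀ k < m, ∀ b ∈ Lx S M u x, ∃ b' ∈ Lx S M u x, Adj M b' e ∧
    BF M M (Lx S M u x) (Lx S M u x) k {(x, x), (b, b')}

/-- The rank of chains of `Cl` starting at `x` below `e` is at least `o`. -/
def Rk (S : Set (St a × Set ℕ)) (M : St a) (u : ℕ) (m : Ordinal.{0}) (o : Ordinal.{0})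
    (x e : ℕ) : Prop :=
  ∀ o' : Ordinal.{0}, ∀ _h : o' < o, ∃ x1 ∈ Lx S M u x, Adj M x1 e ∧ Cl S M u m x x1 ∧
    Rk S M u m o' x1 e
termination_by o
decreasing_by all_goals exact _h

/-- The splitting rank of the pair `x, y` is at least `o`. -/
def Rr (R : ℕ → ℕ → Prop) (o : Ordinal.{0}) (x y : ℕ) : Prop :=
  R x y ∧ ∀ o' : Ordinal.{0}, ∀ _h : o' < o, ∃ z, Rr R o' x z ∧ Rr R o' z y
termination_by o
decreasing_by all_goals exact _h

/-- `x < y` and `[x, y]` is not in the family. -/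
def Bg (S : Set (St a × Set ℕ)) (M : St a) (x y : ℕ) : Prop := Adj M x y ∧ (M, Ic M x y) ∉ S

/-- `X` is small: the closed intervals of all variations of rank `α` of `(M, X)` have only
countably many isomorphism types. -/
def Small (α : Ordinal.{0}) (M : St a) (X : Set ℕ) : Prop :=
  ∃ f : ℕ → St a × Set ℕ, ∀ (N : St a) (Y : Set ℕ), OS N → BF M N X Y α ∅ →
    ∀ x ∈ Y, ∀ y ∈ Y, ¬ Adj N y x → ∃ n, IsoOn (f n).1 N (f n).2 (Y ∩ Ic N x y) ∅

/-- The standing hypotheses on the class `K`. -/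
structure G (α : Ordinal.{0}) (K : Set (St a)) : Prop where
  meas : MeasurableSet K
  lt : α < Ordinal.omega 1
  om : Ordinal.omega0 ≤ α
  closed : ∀ M ∈ K, ∀ N : St a, BF M N univ univ α ∅ → N ∈ K
  os : ∀ M ∈ K, OS M
  few : ¬ ∃ g : (ℕ → Bool) → St a, Continuous g ∧ (∀ c, g c ∈ K) ∧
    ∀ c d, IsoOn (g c) (g d) univ univ ∅ → c = d

/-- The blocks of the members of `K` have countably many isomorphism types. -/
def BlkC (K : Set (St a)) : Prop :=
  ∃ f : ℕ → St a × Set ℕ, ∀ M ∈ K, ∀ x, ∃ n, IsoOn (f n).1 M (f n).2 (Ic M x x) ∅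

/-- The reversed structure. -/
def rev (M : St a) : St a := (fun x y => M.1 y x, M.2)

/-- The reversed family. -/
def revS (S : Set (St a × Set ℕ)) : Set (St a × Set ℕ) := {P | (rev P.1, P.2) ∈ S}

open Classical in
/-- Replace, for every `j`, the structure on `J j` by that of `T j`. -/
noncomputable def Glu {ι : Type} (M : St a) (J : ι → Set ℕ) (T : ι → St a) : St a :=
  (fun x y => if h : ∃ j, x ∈ J j ∧ y ∈ J j then (T h.choose).1 x y else M.1 x y,
   fun i t => if h : Nonempty (Fin (a i)) ∧ ∃ j, ∀ k, t k ∈ J j then (T h.2.choose).2 i t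
     else M.2 i t)

/-- The structure obtained from `M` by filling the intervals `[lo n k, hi n k]` according to the
bits of `σ`. -/
noncomputable def DS (M : St a) (lo hi : ℕ → ℕ → ℕ) (t : ℕ → ℕ → St a) (σ : ℕ → Bool) : St a :=
  Glu M (fun j : ℕ × ℕ => Ic M (lo j.1 j.2) (hi j.1 j.2))
    (fun j => t (2 * j.1 + (σ j.1).toNat) j.2)

/-- Truncation. -/
noncomputable def trunc (M : St a) (t : ℕ → ℕ → St a) (s : ℕ) : ℕ → ℕ → St a :=
  fun r k => if r < s then t r k else M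

/-- The countable set of pieces to be avoided at stage `s`. -/
def FF (M : St a) (lo hi : ℕ → ℕ → ℕ) (t : ℕ → ℕ → St a) (s : ℕ) : Set (St a × Set ℕ) :=
  {P | ∃ r ≤ s, ∃ c x y : ℕ, P = (DS M lo hi (trunc M t r) (fun j => c.testBit j),
    Ic (DS M lo hi (trunc M t r) (fun j => c.testBit j)) x y)}

/-- The cut coded by a set of pieces. -/
def CS (F : Set (St a × Set ℕ)) (D : St a) : Set ℕ :=
  {z | ∀ x y, ¬ Adj D y x → ¬ Adj D z y → ∃ P ∈ F, IsoOn P.1 D P.2 (Ic D x y) ∅}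

/-- The points below all intervals of the `n`-th group. -/
def En (M : St a) (lo : ℕ → ℕ → ℕ) (n : ℕ) : Set ℕ := {z | ∀ k, Adj M z (lo n k)}

/-- A relational structure as a structure with one block. -/
def lift (R : RS a) : St a := (fun _ _ => false, R)

open Classical in
/-- Transport a relational structure to the range of `e`, as a structure with one block. -/
noncomputable def put (e : ℕ → ℕ) (R : RS a) : St a :=
  (fun _ _ => false, fun i t => if h : ∀ k, ∃ n, e n = t k then R i (fun k => (h k).choose)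
    else false)

end Pool.Agent.H533R2.VO
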