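import Pool.Agent.H533R2.VO.Defs

set_option autoImplicit false

/-! Basic lemmas. -/

namespace Pool.Agent.H533R2.VO

open Set
open Pool.Agent.H899R2.VP

variable {a : ℕ → ℕ}

section order

variable {M : St a} {x y z : ℕ}

theorem OS.asymm (h : OS M) (h1 : Adj M x y) : ¬ Adj M y x := fun h2 => h.irr x (h.tr x y x h1 h2)

/-- `x ≤ y ≤ z → x ≤ z`. -/
theorem OS.le_trans (h : OS M) (h1 : ¬ Adj M y x) (h2 : ¬ Adj M z y) : ¬ Adj M z x := by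
  intro h3
  rcases h.ntr z y x h3 with h4 | h4
  · exact h2 h4
  · exact h1 h4

/-- `x < y ≤ z → x < z`. -/
theorem OS.lt_le (h : OS M) (h1 : Adj M x y) (h2 : ¬ Adj M z y) : Adj M x z := by
  rcases h.ntr x z y h1 with h4 | h4
  · exact h4
  · exact absurd h4 h2

/-- `x ≤ y < z → x < z`. -/
theorem OS.le_lt (h : OS M) (h1 : ¬ Adj M y x) (h2 : Adj M y z) : Adj M x z := by
  rcases h.ntr y x z h2 with h4 | h4
  · exact absurd h4 h1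
  · exact h4

theorem OS.lt_trans (h : OS M) (h1 : Adj M x y) (h2 : Adj M y z) : Adj M x z := h.tr x y z h1 h2

theorem left_mem_Ic (h : OS M) (h1 : ¬ Adj M y x) : x ∈ Ic M x y := ⟨h.irr x, h1⟩

theorem right_mem_Ic (h : OS M) (h1 : ¬ Adj M y x) : y ∈ Ic M x y := ⟨h1, h.irr y⟩

theorem mem_Ic : z ∈ Ic M x y ↔ ¬ Adj M z x ∧ ¬ Adj M y z := Iff.rfl

theorem mem_Ge : z ∈ Ge M x ↔ ¬ Adj M z x := Iff.rfl

theorem mem_Le : z ∈ Le M x ↔ ¬ Adj M x z := Iff.rfl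

theorem mem_Gt : z ∈ Gt M x ↔ Adj M x z := Iff.rfl

theorem mem_Lt : z ∈ Lt M x ↔ Adj M z x := Iff.rfl

end order

section low

variable {S : Set (St a × Set ℕ)} {M : St a} {u x y z : ℕ}

theorem Lw_ge (h : x ∈ Lw S M u) : ¬ Adj M x u := h.1

theorem Lw_init (hS : Fam S) (hM : OS M) (hx : x ∈ Lw S M u) (h1 : ¬ Adj M y u)
    (h2 : ¬ Adj M x y) : y ∈ Lw S M u :=
  ⟨h1, hS.sub M hM u x u y hx.2 (hM.irr u) h1 h2⟩

theorem Lw_Ic (hS : Fam S) (hM : OS M) (hx : x ∈ Lw S M u) (h : z ∈ Ic M u x) : z ∈ Lw S M u :=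
  Lw_init hS hM hx h.1 h.2

theorem Lw_base (hS : Fam S) (hM : OS M) (hx : x ∈ Lw S M u) : u ∈ Lw S M u :=
  Lw_init hS hM hx (hM.irr u) hx.1

theorem Lw_piece (hS : Fam S) (hM : OS M) (hx : x ∈ Lw S M u) (hy : y ∈ Lw S M u)
    (h : ¬ Adj M y x) : (M, Ic M x y) ∈ S :=
  hS.sub M hM u y x y hy.2 hx.1 h (hM.irr y)

theorem Lw_glue (hS : Fam S) (hM : OS M) (hx : x ∈ Lw S M u) (h : ¬ Adj M y x)
    (h1 : (M, Ic M x y) ∈ S) : y ∈ Lw S M u :=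
  ⟨hM.le_trans hx.1 h, hS.glue M hM u x y hx.1 h hx.2 h1⟩

theorem Lw_inter_Ic (hS : Fam S) (hM : OS M) (hx : x ∈ Lw S M u) (hy : y ∈ Lw S M u) :
    Lw S M u ∩ Ic M x y = Ic M x y := by
  ext z
  constructor
  · exact fun h => h.2
  · exact fun h => ⟨Lw_init hS hM hy (hM.le_trans hx.1 h.1) h.2, h⟩

theorem mem_Lx : y ∈ Lx S M u x ↔ y ∈ Lw S M u ∧ ¬ Adj M y x := Iff.rfl

theorem Lx_self (hM : OS M) (hx : x ∈ Lw S M u) : x ∈ Lx S M u x := ⟨hx, hM.irr x⟩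

theorem Lx_subset : Lx S M u x ⊆ Lw S M u := inter_subset_left

theorem Lx_anti (hM : OS M) (h : ¬ Adj M y x) : Lx S M u y ⊆ Lx S M u x :=
  fun _ hz => ⟨hz.1, hM.le_trans h hz.2⟩

theorem Lx_inter_Ge (hM : OS M) (h : ¬ Adj M y x) : Lx S M u x ∩ Ge M y = Lx S M u y := by
  ext z
  constructor
  · exact fun hz => ⟨hz.1.1, hz.2⟩
  · exact fun hz => ⟨⟨hz.1, hM.le_trans h hz.2⟩, hz.2⟩

theorem Lx_inter_Ic (hS : Fam S) (hM : OS M) (hx : x ∈ Lw S M u) (hy : y ∈ Lw S M u) :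
    Lx S M u x ∩ Ic M x y = Ic M x y := by
  ext z
  constructor
  · exact fun h => h.2
  · exact fun h => ⟨⟨Lw_init hS hM hy (hM.le_trans hx.1 h.1) h.2, h.1⟩, h⟩

end low

section bf

variable {M N K : St a} {X Y Z X' Y' : Set ℕ} {p : Set (ℕ × ℕ)} {o : Ordinal.{0}}

/-- A set of pairs respecting the parts is an isomorphism if all its parts are. -/
theorem laPIso {ι : Type} (π π' : ℕ → ι) (r : ι → ι → Prop) (hp : p ⊆ X ×ˢ Y)
    (h1 : ∀ x ∈ X, ∀ y ∈ X, π x ≠ π y → (Adj M x y ↔ r (π x) (π y)))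
    (h1' : ∀ x ∈ Y, ∀ y ∈ Y, π' x ≠ π' y → (Adj N x y ↔ r (π' x) (π' y)))
    (h2 : ∀ i t, M.2 i t = true → (∀ k, t k ∈ X) → ∀ j k, π (t j) = π (t k))
    (h2' : ∀ i t, N.2 i t = true → (∀ k, t k ∈ Y) → ∀ j k, π' (t j) = π' (t k))
    (h3 : ∀ u ∈ p, π u.1 = π' u.2)
    (h : ∀ c, PIso M N {u | u ∈ p ∧ π u.1 = c}) : PIso M N p := by
  refine ⟨?_, ?_, ?_⟩
  · intro u hu v hv
    by_cases hc : π u.1 = π v.1
    · exact (h (π v.1)).1 u ⟨hu, hc⟩ v ⟨hv, rfl⟩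
    · constructor
      · intro e
        exact absurd (by rw [e]) hc
      · intro e
        exact absurd (by rw [h3 u hu, h3 v hv, e]) hc
  · intro u hu v hv
    by_cases hc : π u.1 = π v.1
    · exact (h (π v.1)).2.1 u ⟨hu, hc⟩ v ⟨hv, rfl⟩
    · have e1 := h1 u.1 (hp hu).1 v.1 (hp hv).1 hc
      have hc' : π' u.2 ≠ π' v.2 := by
        rw [← h3 u hu, ← h3 v hv]
        exact hc
      have e2 := h1' u.2 (hp hu).2 v.2 (hp hv).2 hc'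
      rw [← h3 u hu, ← h3 v hv] at e2
      rw [Bool.eq_iff_iff]
      exact e1.trans e2.symm
  · intro i t ht
    by_cases hc : ∃ c, ∀ k, π (t k).1 = c
    · obtain ⟨c, hc⟩ := hc
      exact (h c).2.2 i t fun k => ⟨ht k, hc k⟩
    · have e1 : M.2 i (fun k => (t k).1) = false := by
        rw [← Bool.not_eq_true]
        intro e
        apply hc
        by_cases hn : Nonempty (Fin (a i))
        · obtain ⟨j⟩ := hn
          exact ⟨π (t j).1, fun k => h2 i _ e (fun k => (hp (ht k)).1) k j⟩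
        · exact ⟨π 0, fun k => absurd ⟨k⟩ hn⟩
      have e2 : N.2 i (fun k => (t k).2) = false := by
        rw [← Bool.not_eq_true]
        intro e
        apply hc
        by_cases hn : Nonempty (Fin (a i))
        · obtain ⟨j⟩ := hn
          refine ⟨π (t j).1, fun k => ?_⟩
          rw [h3 _ (ht k), h3 _ (ht j)]
          exact h2' i _ e (fun k => (hp (ht k)).2) k j
        · exact ⟨π 0, fun k => absurd ⟨k⟩ hn⟩
      rw [e1, e2]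

/-- Sum lemma for `BF` (many parts). -/
theorem sumBF {ι : Type} (π π' : ℕ → ι) (r : ι → ι → Prop) (hp : p ⊆ X ×ˢ Y)
    (h1 : ∀ x ∈ X, ∀ y ∈ X, π x ≠ π y → (Adj M x y ↔ r (π x) (π y)))
    (h1' : ∀ x ∈ Y, ∀ y ∈ Y, π' x ≠ π' y → (Adj N x y ↔ r (π' x) (π' y)))
    (h2 : ∀ i t, M.2 i t = true → (∀ k, t k ∈ X) → ∀ j k, π (t j) = π (t k))
    (h2' : ∀ i t, N.2 i t = true → (∀ k, t k ∈ Y) → ∀ j k, π' (t j) = π' (t k))
    (h3 : ∀ u ∈ p, π u.1 = π' u.2)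
    (h : ∀ c, BF M N {x | x ∈ X ∧ π x = c} {y | y ∈ Y ∧ π' y = c} o {u | u ∈ p ∧ π u.1 = c}) :
    BF M N X Y o p := by
  induction o using WellFoundedLT.induction generalizing p with
  | ind o ih =>
    rw [BF_iff]
    have hins : ∀ x y : ℕ, ∀ c, π x = c →
        {u | u ∈ insert (x, y) p ∧ π u.1 = c} = insert (x, y) {u | u ∈ p ∧ π u.1 = c} := by
      intro x y c hc
      ext u
      constructor
      · rintro ⟨hu | hu, hu'⟩
        · exact Or.inl hu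
        · exact Or.inr ⟨hu, hu'⟩
      · rintro (hu | hu)
        · refine ⟨Or.inl hu, ?_⟩
          rw [hu]
          exact hc
        · exact ⟨Or.inr hu.1, hu.2⟩
    have hout : ∀ x y : ℕ, ∀ c, π x ≠ c →
        {u | u ∈ insert (x, y) p ∧ π u.1 = c} = {u | u ∈ p ∧ π u.1 = c} := by
      intro x y c hc
      ext u
      constructor
      · rintro ⟨hu | hu, hu'⟩
        · exfalso
          rw [hu] at hu'
          exact hc hu'
        · exact ⟨hu, hu'⟩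
      · exact fun hu => ⟨Or.inr hu.1, hu.2⟩
    refine ⟨laPIso π π' r hp h1 h1' h2 h2' h3 fun c => (h c).piso, fun o' ho' =>
      ⟨fun x hx => ?_, fun y hy => ?_⟩⟩
    · obtain ⟨y, hy, hb⟩ := (h (π x)).forth ho' (x := x) ⟨hx, rfl⟩
      refine ⟨y, hy.1, ih o' ho' (insert_subset ⟨hx, hy.1⟩ hp) ?_ ?_⟩
      · rintro u (hu | hu)
        · rw [hu]
          exact hy.2.symm
        · exact h3 u hu
      · intro c
        by_cases hc : π x = c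
        · rw [hins x y c hc, ← hc]
          exact hb
        · rw [hout x y c hc]
          exact (h c).mono ho'.le
    · obtain ⟨x, hx, hb⟩ := (h (π' y)).back ho' (y := y) ⟨hy, rfl⟩
      refine ⟨x, hx.1, ih o' ho' (insert_subset ⟨hx.1, hy⟩ hp) ?_ ?_⟩
      · rintro u (hu | hu)
        · rw [hu]
          exact hx.2
        · exact h3 u hu
      · intro c
        by_cases hc : π x = c
        · rw [hins x y c hc, ← hc, hx.2]
          exact hb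
        · rw [hout x y c hc]
          exact (h c).mono ho'.le

/-- Sum lemma for `IsoOn` (many parts). -/
theorem sumIso {ι : Type} (π π' : ℕ → ι) (r : ι → ι → Prop) (hp : p ⊆ X ×ˢ Y)
    (h1 : ∀ x ∈ X, ∀ y ∈ X, π x ≠ π y → (Adj M x y ↔ r (π x) (π y)))
    (h1' : ∀ x ∈ Y, ∀ y ∈ Y, π' x ≠ π' y → (Adj N x y ↔ r (π' x) (π' y)))
    (h2 : ∀ i t, M.2 i t = true → (∀ k, t k ∈ X) → ∀ j k, π (t j) = π (t k))
    (h2' : ∀ i t, N.2 i t = true → (∀ k, t k ∈ Y) → ∀ j k, π' (t j) = π' (t k))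
    (h3 : ∀ u ∈ p, π u.1 = π' u.2)
    (h : ∀ c, IsoOn M N {x | x ∈ X ∧ π x = c} {y | y ∈ Y ∧ π' y = c} {u | u ∈ p ∧ π u.1 = c}) :
    IsoOn M N X Y p := by
  choose q hq1 hq2 hq3 hq4 hq5 using h
  have hQ : {u : ℕ × ℕ | ∃ c, u ∈ q c} ⊆ X ×ˢ Y := by
    rintro u ⟨c, hu⟩
    exact ⟨(hq2 c hu).1.1, (hq2 c hu).2.1⟩
  refine ⟨{u | ∃ c, u ∈ q c}, fun u hu => ⟨π u.1, hq1 _ ⟨hu, rfl⟩⟩, hQ, ?_, ?_, ?_⟩
  · refine laPIso π π' r hQ h1 h1' h2 h2' ?_ ?_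
    · rintro u ⟨c, hu⟩
      rw [(hq2 c hu).1.2, (hq2 c hu).2.2]
    · intro c
      refine (hq3 c).mono ?_
      rintro u ⟨⟨d, hu⟩, hu'⟩
      have e : d = c := by rw [← hu', (hq2 d hu).1.2]
      rw [← e]
      exact hu
  · intro x hx
    obtain ⟨y, hy⟩ := hq4 (π x) x ⟨hx, rfl⟩
    exact ⟨y, π x, hy⟩
  · intro y hy
    obtain ⟨x, hx⟩ := hq5 (π' y) y ⟨hy, rfl⟩
    exact ⟨x, π' y, hx⟩

theorem sum2_h1 (hM : OS M) (A : Set ℕ)
    (hA : ∀ x ∈ X, x ∈ A → ∀ y ∈ X, y ∉ A → Adj M x y) :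
    ∀ x ∈ X, ∀ y ∈ X, (x ∈ A) ≠ (y ∈ A) → (Adj M x y ↔ (x ∈ A ∧ ¬ y ∈ A)) := by
  intro x hx y hy hne
  by_cases h1 : x ∈ A
  · have h2 : y ∉ A := fun h2 => hne (by rw [eq_iff_iff]; exact ⟨fun _ => h2, fun _ => h1⟩)
    exact ⟨fun _ => ⟨h1, h2⟩, fun _ => hA x hx h1 y hy h2⟩
  · have h2 : y ∈ A := by
      by_contra h2
      exact hne (by rw [eq_iff_iff]; exact ⟨fun h => absurd h h1, fun h => absurd h h2⟩)
    exact ⟨fun h => absurd h (hM.asymm (hA y hy h2 x hx h1)), fun h => absurd h.1 h1⟩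

theorem sum2_h2 (hM : OS M) (A : Set ℕ)
    (hA : ∀ x ∈ X, x ∈ A → ∀ y ∈ X, y ∉ A → Adj M x y) :
    ∀ i t, M.2 i t = true → (∀ k, t k ∈ X) → ∀ j k, (t j ∈ A) = (t k ∈ A) := by
  intro i t ht hX j k
  rw [eq_iff_iff]
  constructor
  · intro h
    by_contra h2
    exact hM.loc i t ht j k (hA _ (hX j) h _ (hX k) h2)
  · intro h
    by_contra h2
    exact hM.loc i t ht k j (hA _ (hX k) h _ (hX j) h2)

theorem sum2_e1 {A : Set ℕ} {c : Prop} (hc : c) : {x | x ∈ X ∧ (x ∈ A) = c} = X ∩ A := by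
  ext x
  simp only [Set.mem_ofPred_eq, eq_iff_iff, hc, iff_true, mem_inter_iff]

theorem sum2_e2 {A : Set ℕ} {c : Prop} (hc : ¬ c) : {x | x ∈ X ∧ (x ∈ A) = c} = X \ A := by
  ext x
  simp only [Set.mem_ofPred_eq, eq_iff_iff, hc, iff_false, mem_sdiff]

/-- Sum lemma for `BF`: two parts, `A` initial in `X`, `B` initial in `Y`. -/
theorem sum2BF (hM : OS M) (hN : OS N) (A B : Set ℕ) (hp : p ⊆ X ×ˢ Y)
    (hA : ∀ x ∈ X, x ∈ A → ∀ y ∈ X, y ∉ A → Adj M x y)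
    (hB : ∀ x ∈ Y, x ∈ B → ∀ y ∈ Y, y ∉ B → Adj N x y)
    (h3 : ∀ u ∈ p, (u.1 ∈ A ↔ u.2 ∈ B))
    (h : BF M N (X ∩ A) (Y ∩ B) o {u | u ∈ p ∧ u.1 ∈ A})
    (h' : BF M N (X \ A) (Y \ B) o {u | u ∈ p ∧ u.1 ∉ A}) : BF M N X Y o p := by
  refine sumBF (fun x => x ∈ A) (fun y => y ∈ B) (fun P Q => P ∧ ¬ Q) hp
    (sum2_h1 hM A hA) (sum2_h1 hN B hB) (sum2_h2 hM A hA) (sum2_h2 hN B hB)
    (fun u hu => propext (h3 u hu)) ?_
  intro c
  by_cases hc : c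
  · have e1 : {x | x ∈ X ∧ (x ∈ A) = c} = X ∩ A := sum2_e1 hc
    have e2 : {x | x ∈ Y ∧ (x ∈ B) = c} = Y ∩ B := sum2_e1 hc
    have e3 : {u : ℕ × ℕ | u ∈ p ∧ (u.1 ∈ A) = c} = {u | u ∈ p ∧ u.1 ∈ A} := by
      ext u
      simp only [Set.mem_ofPred_eq, eq_iff_iff, hc, iff_true]
    rw [e1, e2, e3]
    exact h
  · have e1 : {x | x ∈ X ∧ (x ∈ A) = c} = X \ A := sum2_e2 hc
    have e2 : {x | x ∈ Y ∧ (x ∈ B) = c} = Y \ B := sum2_e2 hc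
    have e3 : {u : ℕ × ℕ | u ∈ p ∧ (u.1 ∈ A) = c} = {u | u ∈ p ∧ u.1 ∉ A} := by
      ext u
      simp only [Set.mem_ofPred_eq, eq_iff_iff, hc, iff_false]
    rw [e1, e2, e3]
    exact h'

/-- Sum lemma for `IsoOn`: two parts. -/
theorem sum2Iso (hM : OS M) (hN : OS N) (A B : Set ℕ) (hp : p ⊆ X ×ˢ Y)
    (hA : ∀ x ∈ X, x ∈ A → ∀ y ∈ X, y ∉ A → Adj M x y)
    (hB : ∀ x ∈ Y, x ∈ B → ∀ y ∈ Y, y ∉ B → Adj N x y)
    (h3 : ∀ u ∈ p, (u.1 ∈ A ↔ u.2 ∈ B))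
    (h : IsoOn M N (X ∩ A) (Y ∩ B) {u | u ∈ p ∧ u.1 ∈ A})
    (h' : IsoOn M N (X \ A) (Y \ B) {u | u ∈ p ∧ u.1 ∉ A}) : IsoOn M N X Y p := by
  refine sumIso (fun x => x ∈ A) (fun y => y ∈ B) (fun P Q => P ∧ ¬ Q) hp
    (sum2_h1 hM A hA) (sum2_h1 hN B hB) (sum2_h2 hM A hA) (sum2_h2 hN B hB)
    (fun u hu => propext (h3 u hu)) ?_
  intro c
  by_cases hc : c
  · have e1 : {x | x ∈ X ∧ (x ∈ A) = c} = X ∩ A := sum2_e1 hc
    have e2 : {x | x ∈ Y ∧ (x ∈ B) = c} = Y ∩ B := sum2_e1 hc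
    have e3 : {u : ℕ × ℕ | u ∈ p ∧ (u.1 ∈ A) = c} = {u | u ∈ p ∧ u.1 ∈ A} := by
      ext u
      simp only [Set.mem_ofPred_eq, eq_iff_iff, hc, iff_true]
    rw [e1, e2, e3]
    exact h
  · have e1 : {x | x ∈ X ∧ (x ∈ A) = c} = X \ A := sum2_e2 hc
    have e2 : {x | x ∈ Y ∧ (x ∈ B) = c} = Y \ B := sum2_e2 hc
    have e3 : {u : ℕ × ℕ | u ∈ p ∧ (u.1 ∈ A) = c} = {u | u ∈ p ∧ u.1 ∉ A} := by
      ext u
      simp only [Set.mem_ofPred_eq, eq_iff_iff, hc, iff_false]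
    rw [e1, e2, e3]
    exact h'

/-- Restriction lemma for `BF`. -/
theorem resBF (hX : X' ⊆ X) (hY : Y' ⊆ Y)
    (h : ∀ x ∈ X, ∀ y ∈ Y, PIso M N (insert (x, y) p) → (x ∈ X' ↔ y ∈ Y'))
    (hb : BF M N X Y o p) : BF M N X' Y' o p := by
  induction o using WellFoundedLT.induction generalizing p with
  | ind o ih =>
    have hstep : ∀ x y, ∀ x2 ∈ X, ∀ y2 ∈ Y, PIso M N (insert (x2, y2) (insert (x, y) p)) →
        (x2 ∈ X' ↔ y2 ∈ Y') := fun x y x2 hx2 y2 hy2 hp2 =>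
      h x2 hx2 y2 hy2 (hp2.mono (insert_subset_insert (subset_insert _ _)))
    rw [BF_iff]
    refine ⟨hb.piso, fun o' ho' => ⟨fun x hx => ?_, fun y hy => ?_⟩⟩
    · obtain ⟨y, hy, hb'⟩ := hb.forth ho' (hX hx)
      exact ⟨y, (h x (hX hx) y hy hb'.piso).1 hx, ih o' ho' (hstep x y) hb'⟩
    · obtain ⟨x, hx, hb'⟩ := hb.back ho' (hY hy)
      exact ⟨x, (h x hx y (hY hy) hb'.piso).2 hy, ih o' ho' (hstep x y) hb'⟩

/-- Restriction lemma for `IsoOn`. -/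
theorem resIso (hX : X' ⊆ X) (hY : Y' ⊆ Y)
    (h : ∀ x ∈ X, ∀ y ∈ Y, PIso M N (insert (x, y) p) → (x ∈ X' ↔ y ∈ Y'))
    (hb : IsoOn M N X Y p) : IsoOn M N X' Y' {u | u ∈ p ∧ u.1 ∈ X'} := by
  obtain ⟨q, h1, h2, h3, h4, h5⟩ := hb
  have key : ∀ x y, (x, y) ∈ q → (x ∈ X' ↔ y ∈ Y') := fun x y hq =>
    h x (h2 hq).1 y (h2 hq).2 (h3.mono (insert_subset hq h1))
  refine ⟨{u | u ∈ q ∧ u.1 ∈ X'}, fun u hu => ⟨h1 hu.1, hu.2⟩, ?_, h3.mono fun u hu => hu.1,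
    ?_, ?_⟩
  · rintro ⟨x, y⟩ ⟨hq, hx⟩
    exact ⟨hx, (key x y hq).1 hx⟩
  · intro x hx
    obtain ⟨y, hq⟩ := h4 x (hX hx)
    exact ⟨y, hq, hx⟩
  · intro y hy
    obtain ⟨x, hq⟩ := h5 y (hY hy)
    exact ⟨x, hq, (key x y hq).2 hy⟩

theorem resGe {c c' : ℕ} (hc : (c, c') ∈ p) (hb : BF M N X Y o p) :
    BF M N (X ∩ Ge M c) (Y ∩ Ge N c') o p := by
  refine resBF inter_subset_left inter_subset_left (fun x hx y hy hp => ?_) hb
  have h1 := hp.adj (mem_insert _ _) (mem_insert_of_mem _ hc)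
  exact ⟨fun h => ⟨hy, fun h2 => h.2 (h1.2 h2)⟩, fun h => ⟨hx, fun h2 => h.2 (h1.1 h2)⟩⟩

theorem resLe {c c' : ℕ} (hc : (c, c') ∈ p) (hb : BF M N X Y o p) :
    BF M N (X ∩ Le M c) (Y ∩ Le N c') o p := by
  refine resBF inter_subset_left inter_subset_left (fun x hx y hy hp => ?_) hb
  have h1 := hp.adj (mem_insert_of_mem _ hc) (mem_insert _ _)
  exact ⟨fun h => ⟨hy, fun h2 => h.2 (h1.2 h2)⟩, fun h => ⟨hx, fun h2 => h.2 (h1.1 h2)⟩⟩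

theorem resGt {c c' : ℕ} (hc : (c, c') ∈ p) (hb : BF M N X Y o p) :
    BF M N (X ∩ Gt M c) (Y ∩ Gt N c') o p := by
  refine resBF inter_subset_left inter_subset_left (fun x hx y hy hp => ?_) hb
  have h1 := hp.adj (mem_insert_of_mem _ hc) (mem_insert _ _)
  exact ⟨fun h => ⟨hy, h1.1 h.2⟩, fun h => ⟨hx, h1.2 h.2⟩⟩

theorem resLt {c c' : ℕ} (hc : (c, c') ∈ p) (hb : BF M N X Y o p) :
    BF M N (X ∩ Lt M c) (Y ∩ Lt N c') o p := by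
  refine resBF inter_subset_left inter_subset_left (fun x hx y hy hp => ?_) hb
  have h1 := hp.adj (mem_insert _ _) (mem_insert_of_mem _ hc)
  exact ⟨fun h => ⟨hy, h1.1 h.2⟩, fun h => ⟨hx, h1.2 h.2⟩⟩

theorem resIc {c c' d d' : ℕ} (hc : (c, c') ∈ p) (hd : (d, d') ∈ p) (hb : BF M N X Y o p) :
    BF M N (X ∩ Ic M c d) (Y ∩ Ic N c' d') o p := by
  refine resBF inter_subset_left inter_subset_left (fun x hx y hy hp => ?_) hb
  have h1 := hp.adj (mem_insert _ _) (mem_insert_of_mem _ hc)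
  have h2 := hp.adj (mem_insert_of_mem _ hd) (mem_insert _ _)
  exact ⟨fun h => ⟨hy, fun h3 => h.2.1 (h1.2 h3), fun h3 => h.2.2 (h2.2 h3)⟩,
    fun h => ⟨hx, fun h3 => h.2.1 (h1.1 h3), fun h3 => h.2.2 (h2.1 h3)⟩⟩

/-- Isomorphisms restrict to `(-∞, c)`. -/
theorem resIsoLt {c c' : ℕ} (hc : (c, c') ∈ p) (hb : IsoOn M N X Y p) :
    IsoOn M N (X ∩ Lt M c) (Y ∩ Lt N c') {u | u ∈ p ∧ Adj M u.1 c} := by
  refine (resIso (X' := X ∩ Lt M c) (Y' := Y ∩ Lt N c') inter_subset_left inter_subset_left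
    (fun x hx y hy hp => ?_) hb).mono ?_
  · have h1 := hp.adj (mem_insert _ _) (mem_insert_of_mem _ hc)
    exact ⟨fun h => ⟨hy, h1.1 h.2⟩, fun h => ⟨hx, h1.2 h.2⟩⟩
  · obtain ⟨q, h1, h2, _⟩ := hb
    exact fun u hu => ⟨hu.1, (h2 (h1 hu.1)).1, hu.2⟩

/-- Isomorphisms restrict to `[c, d]`. -/
theorem resIsoIc {c c' d d' : ℕ} (hc : (c, c') ∈ p) (hd : (d, d') ∈ p) (hb : IsoOn M N X Y p) :
    IsoOn M N (X ∩ Ic M c d) (Y ∩ Ic N c' d') {u | u ∈ p ∧ u.1 ∈ Ic M c d} := by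
  refine (resIso (X' := X ∩ Ic M c d) (Y' := Y ∩ Ic N c' d') inter_subset_left
    inter_subset_left (fun x hx y hy hp => ?_) hb).mono ?_
  · have h1 := hp.adj (mem_insert _ _) (mem_insert_of_mem _ hc)
    have h2 := hp.adj (mem_insert_of_mem _ hd) (mem_insert _ _)
    exact ⟨fun h => ⟨hy, fun h3 => h.2.1 (h1.2 h3), fun h3 => h.2.2 (h2.2 h3)⟩,
      fun h => ⟨hx, fun h3 => h.2.1 (h1.1 h3), fun h3 => h.2.2 (h2.1 h3)⟩⟩
  · obtain ⟨q, h1, h2, _⟩ := hb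
    exact fun u hu => ⟨hu.1, (h2 (h1 hu.1)).1, hu.2⟩

/-- Isomorphisms restrict to `[c, ∞)`. -/
theorem resIsoGe {c c' : ℕ} (hc : (c, c') ∈ p) (hb : IsoOn M N X Y p) :
    IsoOn M N (X ∩ Ge M c) (Y ∩ Ge N c') {u | u ∈ p ∧ ¬ Adj M u.1 c} := by
  refine (resIso (X' := X ∩ Ge M c) (Y' := Y ∩ Ge N c') inter_subset_left
    inter_subset_left (fun x hx y hy hp => ?_) hb).mono ?_
  · have h1 := hp.adj (mem_insert _ _) (mem_insert_of_mem _ hc)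
    exact ⟨fun h => ⟨hy, fun h2 => h.2 (h1.2 h2)⟩, fun h => ⟨hx, fun h2 => h.2 (h1.1 h2)⟩⟩
  · obtain ⟨q, h1, h2, _⟩ := hb
    exact fun u hu => ⟨hu.1, (h2 (h1 hu.1)).1, hu.2⟩

theorem bf_id (h : p ⊆ idOn X) : BF M M X X o p := (BF.refl M X o).subset h

-- section bf
theorem bf_comp1 {x x' x'' : ℕ} (h : BF M N X Y o {(x, x')}) (h' : BF N K Y Z o {(x', x'')}) :
    BF M K X Z o {(x, x'')} := by
  refine (h.comp h').subset ?_
  rintro u rfl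
  exact ⟨x', rfl, rfl⟩

theorem bf_comp2 {x x' x'' y y' y'' : ℕ} (h : BF M N X Y o {(x, x'), (y, y')})
    (h' : BF N K Y Z o {(x', x''), (y', y'')}) : BF M K X Z o {(x, x''), (y, y'')} := by
  refine (h.comp h').subset ?_
  rintro u (rfl | rfl)
  · exact ⟨x', Or.inl rfl, Or.inl rfl⟩
  · exact ⟨y', Or.inr rfl, Or.inr rfl⟩

theorem bf_comp0 (h : BF M N X Y o ∅) (h' : BF N K Y Z o ∅) : BF M K X Z o ∅ :=
  (h.comp h').subset (empty_subset _)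

theorem bf_symm1 {x x' : ℕ} (h : BF M N X Y o {(x, x')}) : BF N M Y X o {(x', x)} := by
  refine h.symm.subset ?_
  rintro u rfl
  exact mem_inv.2 rfl

theorem bf_symm2 {x x' y y' : ℕ} (h : BF M N X Y o {(x, x'), (y, y')}) :
    BF N M Y X o {(x', x), (y', y)} := by
  refine h.symm.subset ?_
  rintro u (rfl | rfl)
  · exact Or.inl rfl
  · exact Or.inr rfl

theorem bf_symm0 (h : BF M N X Y o ∅) : BF N M Y X o ∅ := h.symm.subset (empty_subset _)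

theorem iso_symm0 (h : IsoOn M N X Y ∅) : IsoOn N M Y X ∅ := h.symm.mono (empty_subset _)

theorem iso_trans0 (h : IsoOn M N X Y ∅) (h' : IsoOn N K Y Z ∅) : IsoOn M K X Z ∅ :=
  (h.trans h').mono (empty_subset _)

theorem iso_refl0 : IsoOn M M X X ∅ := (IsoOn.refl M X).mono (empty_subset _)

/-- A point of `X` is paired with a point of `Y`. -/
theorem bf_mem_right (ho : 0 < o) {x x' : ℕ} (hb : BF M N X Y o p) (h : (x, x') ∈ p)
    (hx : x ∈ X) : x' ∈ Y := by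
  obtain ⟨y, hy, hb'⟩ := hb.forth ho hx
  rw [hb'.piso.snd_eq (mem_insert_of_mem _ h) (mem_insert (x, y) p) rfl]
  exact hy

theorem bf_mem_left (ho : 0 < o) {x x' : ℕ} (hb : BF M N X Y o p) (h : (x, x') ∈ p)
    (hx : x' ∈ Y) : x ∈ X := by
  obtain ⟨y, hy, hb'⟩ := hb.back ho hx
  rw [hb'.piso.fst_eq (mem_insert_of_mem _ h) (mem_insert (y, x') p) rfl]
  exact hy

/-- Upgrade: if `w < b`, an equivalence above `w` extends by the identity on `L ∩ (-∞, w]`. -/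
theorem bf_upgrade (hM : OS M) {L : Set ℕ} {w b b' : ℕ} (hw : Adj M w b) (hb : b ∈ L)
    (hb' : b' ∈ L) (h : BF M M (L ∩ Ge M w) (L ∩ Ge M w) o {(w, w), (b, b')}) :
    BF M M L L o (insert (b, b') (idOn (L ∩ Le M w))) := by
  have hw' : Adj M w b' :=
    (h.piso.adj (x := w) (x' := w) (y := b) (y' := b') (Or.inl rfl) (Or.inr rfl)).1 hw
  have h1 := resGt (c := w) (c' := w) (Or.inl rfl) h
  have e1 : L ∩ Ge M w ∩ Gt M w = L \ Le M w := by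
    ext z
    constructor
    · rintro ⟨⟨h2, _⟩, h3⟩
      exact ⟨h2, fun h4 => h4 h3⟩
    · rintro ⟨h2, h3⟩
      have h4 : Adj M w z := by
        by_contra h5
        exact h3 h5
      exact ⟨⟨h2, hM.asymm h4⟩, h4⟩
  rw [e1] at h1
  refine sum2BF hM hM (Le M w) (Le M w) ?_ ?_ ?_ ?_ ?_ ?_
  · rintro ⟨u, v⟩ (h2 | ⟨h2, h3⟩)
    · obtain ⟨rfl, rfl⟩ := Prod.mk.injEq _ _ _ _ ▸ h2
      exact ⟨hb, hb'⟩
    · simp only at h2 h3
      subst h2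
      exact ⟨h3.1, h3.1⟩
  · intro x _ hx y _ hy
    refine hM.le_lt (y := w) hx ?_
    by_contra h5
    exact hy h5
  · intro x _ hx y _ hy
    refine hM.le_lt (y := w) hx ?_
    by_contra h5
    exact hy h5
  · rintro ⟨u, v⟩ (h2 | ⟨h2, _⟩)
    · obtain ⟨rfl, rfl⟩ := Prod.mk.injEq _ _ _ _ ▸ h2
      exact ⟨fun h5 => absurd hw h5, fun h5 => absurd hw' h5⟩
    · simp only at h2
      subst h2
      exact Iff.rfl
  · apply bf_id
    rintro ⟨u, v⟩ ⟨h2 | h2, h3⟩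
    · obtain ⟨rfl, rfl⟩ := Prod.mk.injEq _ _ _ _ ▸ h2
      exact absurd hw h3
    · exact h2
  · refine h1.subset ?_
    rintro ⟨u, v⟩ ⟨h2 | h2, h3⟩
    · exact Or.inr h2
    · exact absurd h2.2.2 h3

/-- Structures which agree on `Y` are isomorphic on `Y` by the identity. -/
theorem iso_congr (h1 : ∀ x ∈ Y, ∀ y ∈ Y, M.1 x y = N.1 x y)
    (h2 : ∀ i t, (∀ k, t k ∈ Y) → M.2 i t = N.2 i t) : IsoOn M N Y Y (idOn Y) := by
  refine ⟨idOn Y, Subset.rfl, ?_, ⟨?_, ?_, ?_⟩, fun x hx => ⟨x, rfl, hx⟩, fun x hx => ⟨x, rfl, hx⟩⟩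
  · rintro ⟨u, v⟩ ⟨h, h'⟩
    simp only at h h'
    subst h
    exact ⟨h', h'⟩
  · rintro ⟨u, u'⟩ ⟨h3, _⟩ ⟨v, v'⟩ ⟨h4, _⟩
    simp only at h3 h4
    subst h3 h4
    exact Iff.rfl
  · rintro ⟨u, u'⟩ ⟨h3, h5⟩ ⟨v, v'⟩ ⟨h4, h6⟩
    simp only at h3 h4 h5 h6
    subst h3 h4
    exact h1 _ h5 _ h6
  · intro i t ht
    have : (fun k => (t k).1) = fun k => (t k).2 := funext fun k => (ht k).1
    rw [← this]
    exact h2 i _ fun k => (ht k).2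

end bf

section mt

variable {S : Set (St a × Set ℕ)} {M M' : St a} {u u' y y' : ℕ} {n : Ordinal.{0}}
  {φ : Set (ℕ × ℕ)}

theorem Mt.symm (h : Mt S M M' u u' n y y' φ) : Mt S M' M u' u n y' y (inv φ) :=
  ⟨h.memR, h.memL, fun _ hv => ⟨(h.subset (mem_inv.1 hv)).2, (h.subset (mem_inv.1 hv)).1⟩,
    h.piso.symm, h.surj, h.total, h.base, h.top, bf_symm1 h.tail⟩

theorem Mt.mono (h : Mt S M M' u u' n y y' φ) {n' : Ordinal.{0}} (hn : n' ≤ n) :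
    Mt S M M' u u' n' y y' φ :=
  ⟨h.memL, h.memR, h.subset, h.piso, h.total, h.surj, h.base, h.top, h.tail.mono hn⟩

end mt

section glu

variable {ι : Type} {M : St a} {J : ι → Set ℕ} {T : ι → St a}

/-- `Glu` agrees with `T j` on `J j`. -/
theorem Glu_adj (hJ : ∀ i j, i ≠ j → Disjoint (J i) (J j)) {j : ι} {x y : ℕ} (hx : x ∈ J j)
    (hy : y ∈ J j) : Adj (Glu M J T) x y ↔ Adj (T j) x y := by
  have hex : ∃ j, x ∈ J j ∧ y ∈ J j := ⟨j, hx, hy⟩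
  have hj : hex.choose = j := by
    by_contra hne
    exact Set.disjoint_left.1 (hJ _ _ hne) hex.choose_spec.1 hx
  have e : (Glu M J T).1 x y = (T hex.choose).1 x y := dif_pos hex
  unfold Adj
  rw [e, hj]

theorem Glu_adj' {x y : ℕ} (h : ∀ j, x ∈ J j → y ∉ J j) :
    Adj (Glu M J T) x y ↔ Adj M x y := by
  have hex : ¬ ∃ j, x ∈ J j ∧ y ∈ J j := fun ⟨j, h1, h2⟩ => h j h1 h2
  have e : (Glu M J T).1 x y = M.1 x y := dif_neg hex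
  unfold Adj
  rw [e]

theorem Glu_rel (hJ : ∀ i j, i ≠ j → Disjoint (J i) (J j)) {j : ι} {i : ℕ}
    (hi : Nonempty (Fin (a i))) {t : Fin (a i) → ℕ} (ht : ∀ k, t k ∈ J j) :
    (Glu M J T).2 i t = (T j).2 i t := by
  have hex : Nonempty (Fin (a i)) ∧ ∃ j, ∀ k, t k ∈ J j := ⟨hi, j, ht⟩
  have hj : hex.2.choose = j := by
    by_contra hne
    obtain ⟨k⟩ := hi
    exact Set.disjoint_left.1 (hJ _ _ hne) (hex.2.choose_spec k) (ht k)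
  have e : (Glu M J T).2 i t = (T hex.2.choose).2 i t := dif_pos hex
  rw [e, hj]

theorem Glu_rel' {i : ℕ} {t : Fin (a i) → ℕ}
    (h : ¬ (Nonempty (Fin (a i)) ∧ ∃ j, ∀ k, t k ∈ J j)) :
    (Glu M J T).2 i t = M.2 i t := dif_neg h

end glu

end Pool.Agent.H533R2.VO
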