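import Pool.Agent.H533R2.VO.Lib

set_option autoImplicit false

/-! Statements of the steps of the proof. -/

namespace Pool.Agent.H533R2.VO

open Set
open Pool.Agent.H899R2.VP

/-! ### General facts -/

def S_LEV : Prop := ∀ (a : ℕ → ℕ) (S : Set (St a × Set ℕ)), Fam S →
  ∃ l : Ordinal.{0}, l < Ordinal.omega 1 ∧ Ordinal.omega0 ≤ l ∧ Lev S l

def S_GENF : Prop := ∀ (a : ℕ → ℕ) (f : ℕ → St a × Set ℕ), ∃ S : Set (St a × Set ℕ),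
  Fam S ∧ ∀ n, f n ∈ S

def S_GENU : Prop := ∀ (a : ℕ → ℕ) (ι : Type 1) [Countable ι] (F : ι → Set (St a × Set ℕ)),
  (∀ i, Fam (F i)) → ∃ S : Set (St a × Set ℕ), Fam S ∧ ∀ i, F i ⊆ S

def S_MEAS1 : Prop := ∀ (a : ℕ → ℕ) (N : St a) (Y : Set ℕ) (Z : St a → Set ℕ),
  (∀ z, MeasurableSet {M : St a | z ∈ Z M}) → ∀ β : Ordinal.{0}, β < Ordinal.omega 1 →
  ∀ p : Set (ℕ × ℕ), MeasurableSet {M : St a | BF N M Y (Z M) β p}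

def S_MEAS2 : Prop := ∀ (a : ℕ → ℕ) (S : Set (St a × Set ℕ)) (l : Ordinal.{0}), Fam S →
  Lev S l → l < Ordinal.omega 1 → ∀ x y : ℕ, MeasurableSet {M : St a | (M, Ic M x y) ∈ S}

def S_TRP : Prop := ∀ (a : ℕ → ℕ) (M N : St a) (X Y : Set ℕ) (α : Ordinal.{0}),
  Ordinal.omega0 ≤ α → OS N → BF M N X Y α ∅ → ∃ T : St a, OS T ∧ IsoOn N T Y X ∅

def S_LAB : Prop := ∀ (a : ℕ → ℕ) (α : Ordinal.{0}) (K : Set (St a)), G α K →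
  ∀ β : Ordinal.{0}, β < Ordinal.omega 1 → ∃ c : St a → List ℕ → ℕ, ∀ M ∈ K, ∀ N ∈ K,
  ∀ s t : List ℕ, s.length = t.length → c M s = c N t → BF M N univ univ β (zipSet s t)

def S_BASE : Prop := ∀ (a : ℕ → ℕ) (α : Ordinal.{0}) (K : Set (St a)), G α K → BlkC K →
  ∃ S : Set (St a × Set ℕ), Fam S ∧ (∀ M ∈ K, ∀ x, (M, Ic M x x) ∈ S) ∧
  ∀ M ∈ K, ∀ x y, Adj M x y → (M, Ic M x y) ∉ S → ¬ Small α M (Ic M x y)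

/-! ### Matchings -/

def S_INL : Prop := ∀ (a : ℕ → ℕ) (S : Set (St a × Set ℕ)) (l o : Ordinal.{0}) (M M' : St a)
  (u u' : ℕ) (p : Set (ℕ × ℕ)), Fam S → Lev S l → OS M → OS M' →
  BF M M' univ univ (l + o) p → (u, u') ∈ p → BF M M' (Lw S M u) (Lw S M' u') o p

def S_H5 : Prop := ∀ (a : ℕ → ℕ) (S : Set (St a × Set ℕ)) (l n k : Ordinal.{0}) (M M' : St a)
  (u u' x x' y : ℕ), Fam S → Lev S l → l ≤ n → n < k → OS M → OS M' → x ∈ Lw S M u →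
  y ∈ Lw S M u → ¬ Adj M y x → BF M M' (Lw S M u) (Lw S M' u') k {(u, u'), (x, x')} →
  ∃ y' φ, Mt S M M' u u' n y y' φ ∧ (x, x') ∈ φ

def S_EXT : Prop := ∀ (a : ℕ → ℕ) (S : Set (St a × Set ℕ)) (l n k : Ordinal.{0}) (M M' : St a)
  (u u' y y' y2 : ℕ) (φ : Set (ℕ × ℕ)), Fam S → Lev S l → l ≤ n → n < k → OS M → OS M' →
  Mt S M M' u u' k y y' φ → Adj M u y → y2 ∈ Lw S M u → ¬ Adj M y2 y →
  ∃ y2' φ2, Mt S M M' u u' n y2 y2' φ2 ∧ (y, y') ∈ φ2 ∧ ∀ w ∈ φ, Adj M w.1 y → w ∈ φ2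

def S_CLS : Prop := ∀ (a : ℕ → ℕ) (S : Set (St a × Set ℕ)) (m : Ordinal.{0}) (M : St a) (u : ℕ)
  (C : Set ℕ), Fam S → OS M → Cls S M u m C →
  ∀ x ∈ C, BF M M (Lx S M u x) (C ∩ Ge M x) m {(x, x)}

def S_CORE : Prop := ∀ (a : ℕ → ℕ) (S : Set (St a × Set ℕ)) (n : Ordinal.{0}) (M M' : St a)
  (u u' x x' y y' : ℕ) (φ : Set (ℕ × ℕ)), Fam S → OS M → OS M' →
  Mt S M M' u u' n y y' φ → (x, x') ∈ φ → Adj M x y →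
  BF M M' (Lx S M u x) (Lx S M' u' x') n
    (insert (y, y') {w | w ∈ φ ∧ ¬ Adj M w.1 x ∧ Adj M w.1 y})

def S_TRC : Prop := ∀ (a : ℕ → ℕ) (S : Set (St a × Set ℕ)) (m n : Ordinal.{0}) (M M' : St a)
  (u u' y y' : ℕ) (φ : Set (ℕ × ℕ)) (C : Set ℕ), Fam S → OS M → OS M' → m ≤ n →
  Mt S M M' u u' n y y' φ → Cls S M u m C → y ∉ C →
  ∃ C' : Set ℕ, Cls S M' u' m C' ∧ (∀ w ∈ φ, (w.1 ∈ C ↔ w.2 ∈ C')) ∧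
    BF M M' (Lw S M u \ C) (Lw S M' u' \ C') m ∅

def S_CLT : Prop := ∀ (a : ℕ → ℕ) (S : Set (St a × Set ℕ)) (m n : Ordinal.{0}) (M M' : St a)
  (u u' x x' x1 x1' y y' : ℕ) (φ : Set (ℕ × ℕ)), Fam S → OS M → OS M' → m ≤ n →
  Mt S M M' u u' n y y' φ → (x, x') ∈ φ → (x1, x1') ∈ φ → Adj M x y →
  Cl S M u m x x1 → Cl S M' u' m x' x1'

def S_CLMON : Prop := ∀ (a : ℕ → ℕ) (S : Set (St a × Set ℕ)) (m : Ordinal.{0}) (M : St a)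
  (u x w e : ℕ), Fam S → OS M → 0 < m → x ∈ Lw S M u → w ∈ Lw S M u → e ∈ Lw S M u →
  ¬ Adj M w x → Cl S M u m w e → Cl S M u m x e

def S_LOCRK : Prop := ∀ (a : ℕ → ℕ) (S : Set (St a × Set ℕ)) (m n o : Ordinal.{0})
  (M M' : St a) (u u' x x' e e' y y' : ℕ) (φ : Set (ℕ × ℕ)), Fam S → OS M → OS M' → m ≤ n →
  Mt S M M' u u' n y y' φ → (x, x') ∈ φ → (e, e') ∈ φ → Adj M x y →
  Rk S M u m o x e → Rk S M' u' m o x' e'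

/-! ### Isomorphism of the pieces `Lw` -/

def S_GLW : Prop := ∀ (a : ℕ → ℕ) (S : Set (St a × Set ℕ)) (M M' : St a) (u u' : ℕ)
  (c c' : ℕ → ℕ), Fam S → OS M → OS M' → (∀ i, c i ∈ Lw S M u) → (∀ i, c' i ∈ Lw S M' u') →
  (∀ i, Adj M (c i) (c (i + 1))) → (∀ i, Adj M' (c' i) (c' (i + 1))) →
  (∀ z ∈ Lw S M u, ∃ i, Adj M z (c i)) → (∀ z ∈ Lw S M' u', ∃ i, Adj M' z (c' i)) →
  IsoOn M M' (Ic M u (c 0)) (Ic M' u' (c' 0)) {(c 0, c' 0)} →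
  (∀ i, IsoOn M M' (Ic M (c i) (c (i + 1))) (Ic M' (c' i) (c' (i + 1)))
    {(c i, c' i), (c (i + 1), c' (i + 1))}) →
  IsoOn M M' (Lw S M u) (Lw S M' u') ∅

def S_A1P : Prop := ∀ (a : ℕ → ℕ) (S : Set (St a × Set ℕ)) (m : Ordinal.{0}) (M M' : St a)
  (u u' : ℕ) (C C' D D' : Set ℕ), Fam S → OS M → OS M' → Cls S M u m C → Cls S M' u' m C' →
  D ⊆ C → D' ⊆ C' → (∀ x ∈ D, ∀ y ∈ Lw S M u, ¬ Adj M x y → y ∈ D) →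
  (∀ x ∈ D', ∀ y ∈ Lw S M' u', ¬ Adj M' x y → y ∈ D') → (∃ z ∈ C, z ∉ D) →
  (∃ z ∈ C', z ∉ D') → BF M M' (Lw S M u \ D) (Lw S M' u' \ D') m ∅ →
  BF M M' (C \ D) (C' \ D') m ∅

def S_A1 : Prop := ∀ (a : ℕ → ℕ) (S : Set (St a × Set ℕ)) (l m : Ordinal.{0}) (M M' : St a)
  (u u' : ℕ) (C C' : ℕ → Set ℕ), Fam S → Lev S l → l < m → OS M → OS M' →
  (∀ i, Cls S M u m (C i)) → (∀ i, Cls S M' u' m (C' i)) →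
  (∀ i, C i ⊆ C (i + 1)) → (∀ i, C' i ⊆ C' (i + 1)) →
  (∀ i, ∃ z ∈ C (i + 1), z ∉ C i) → (∀ i, ∃ z ∈ C' (i + 1), z ∉ C' i) →
  (∀ z ∈ Lw S M u, ∃ i, z ∈ C i) → (∀ z ∈ Lw S M' u', ∃ i, z ∈ C' i) →
  BF M M' (Lw S M u) (Lw S M' u') m ∅ →
  (∀ i, BF M M' (Lw S M u \ C i) (Lw S M' u' \ C' i) m ∅) →
  IsoOn M M' (Lw S M u) (Lw S M' u') ∅

def S_MTX : Prop := ∀ (a : ℕ → ℕ) (S : Set (St a × Set ℕ)) (l n k : Ordinal.{0}) (M M' : St a)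
  (u u' x x' : ℕ), Fam S → Lev S l → Ordinal.omega0 ≤ l → l ≤ n → n < k → OS M → OS M' →
  NoLast M (Lw S M u) → x ∈ Lw S M u →
  BF M M' (Lw S M u) (Lw S M' u') k {(u, u'), (x, x')} →
  (∀ z ∈ Lw S M u, ∃ y y' φ, Mt S M M' u u' n y y' φ ∧ (x, x') ∈ φ ∧ Adj M x y ∧ Adj M z y) ∧
  (∀ z ∈ Lw S M' u', ∃ y y' φ, Mt S M M' u u' n y y' φ ∧ (x, x') ∈ φ ∧ Adj M x y ∧
    Adj M' z y')

def S_CAN : Prop := ∀ (a : ℕ → ℕ) (S : Set (St a × Set ℕ)) (l n k : Ordinal.{0}) (M M' : St a)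
  (u u' x x' : ℕ), Fam S → Lev S l → Ordinal.omega0 ≤ l → l ≤ n → n < k → OS M → OS M' →
  NoLast M (Lw S M u) → x ∈ Lw S M u →
  BF M M' (Lw S M u) (Lw S M' u') k {(u, u'), (x, x')} →
  ∀ (ι : Type 1) (A A' : ι → Set ℕ),
  (∀ i, ∀ z ∈ A i, z ∈ Lw S M u ∧ ∀ w ∈ Lw S M u, ¬ Adj M z w → w ∈ A i) →
  (∀ i, ∀ z ∈ A' i, z ∈ Lw S M' u' ∧ ∀ w ∈ Lw S M' u', ¬ Adj M' z w → w ∈ A' i) →
  (∀ i, ∃ e ∈ Lw S M u, e ∉ A i) →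
  (∀ z ∈ Lw S M u, ∃ i, z ∈ A i) →
  (∀ y y' φ, Mt S M M' u u' n y y' φ → (x, x') ∈ φ → Adj M x y →
    ∀ i, ∀ w ∈ φ, (w.1 ∈ A i ↔ w.2 ∈ A' i)) →
  IsoOn M M' (Lw S M u) (Lw S M' u') ∅

def S_CASEA1 : Prop := ∀ (a : ℕ → ℕ) (S : Set (St a × Set ℕ)) (l m n k : Ordinal.{0})
  (M M' : St a) (u u' : ℕ) (M0 : St a) (X0 : Set ℕ), Fam S → Lev S l → Ordinal.omega0 ≤ l →
  l < m → m < n → n < k → OS M → OS M' → NoLast M (Lw S M u) → u ∈ Lw S M u →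
  (∀ z ∈ Lw S M u, ∃ C, Cls S M u m C ∧ z ∈ C ∧ BF M0 M X0 (Lw S M u \ C) m ∅) →
  BF M M' (Lw S M u) (Lw S M' u') k {(u, u')} →
  IsoOn M M' (Lw S M u) (Lw S M' u') ∅

def S_CASEA2 : Prop := ∀ (a : ℕ → ℕ) (S : Set (St a × Set ℕ)) (l m n k : Ordinal.{0})
  (M M' : St a) (u u' : ℕ), Fam S → Lev S l → Ordinal.omega0 ≤ l →
  l < m → m < n → n < k → OS M → OS M' → NoLast M (Lw S M u) → u ∈ Lw S M u →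
  (∀ z ∈ Lw S M u, ∃ C, Cls S M u m C ∧ z ∈ C) →
  (∀ (M0 : St a) (X0 : Set ℕ), ∃ z ∈ Lw S M u, ∀ C, Cls S M u m C → z ∈ C →
    ¬ BF M0 M X0 (Lw S M u \ C) m ∅) →
  BF M M' (Lw S M u) (Lw S M' u') k {(u, u')} →
  IsoOn M M' (Lw S M u) (Lw S M' u') ∅

def S_CASEB1 : Prop := ∀ (a : ℕ → ℕ) (S : Set (St a × Set ℕ)) (l m k : Ordinal.{0})
  (M M' : St a) (u u' x x' : ℕ), Fam S → Lev S l → Ordinal.omega0 ≤ l →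
  l < m → m < k → OS M → OS M' → NoLast M (Lw S M u) → x ∈ Lw S M u →
  (∀ e ∈ Lx S M u x, ¬ Cl S M u m x e) →
  BF M M' (Lw S M u) (Lw S M' u') k {(u, u'), (x, x')} →
  IsoOn M M' (Lw S M u) (Lw S M' u') ∅

def S_CASEB2 : Prop := ∀ (a : ℕ → ℕ) (S : Set (St a × Set ℕ)) (l m n k : Ordinal.{0})
  (M M' : St a) (u u' x x' : ℕ), Fam S → Lev S l → Ordinal.omega0 ≤ l →
  l < m → m < n → n < k → OS M → OS M' → NoLast M (Lw S M u) → x ∈ Lw S M u →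
  (∀ e ∈ Lx S M u x, ∃ o : Ordinal.{0}, (∃ e1 ∈ Lx S M u x, Rk S M u m o x e1) ∧
    ¬ Rk S M u m o x e) →
  BF M M' (Lw S M u) (Lw S M' u') k {(u, u'), (x, x')} →
  IsoOn M M' (Lw S M u) (Lw S M' u') ∅

def S_RKCH : Prop := ∀ (a : ℕ → ℕ) (S : Set (St a × Set ℕ)) (m : Ordinal.{0}) (M : St a)
  (u x e : ℕ), Fam S → OS M → 0 < m → x ∈ Lw S M u → e ∈ Lw S M u →
  (∀ o : Ordinal.{0}, Rk S M u m o x e) → ∃ C, Cls S M u m C ∧ x ∈ C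

def S_B2EX : Prop := ∀ (a : ℕ → ℕ) (S : Set (St a × Set ℕ)) (m : Ordinal.{0}) (M : St a)
  (u z0 : ℕ), Fam S → OS M → 0 < m → NoLast M (Lw S M u) → z0 ∈ Lw S M u →
  (¬ ∃ C, Cls S M u m C ∧ z0 ∈ C) →
  (∀ x ∈ Lw S M u, ∃ e ∈ Lx S M u x, Cl S M u m x e) →
  ∃ x ∈ Lx S M u z0, ∀ e ∈ Lx S M u x, ∃ o : Ordinal.{0},
    (∃ e1 ∈ Lx S M u x, Rk S M u m o x e1) ∧ ¬ Rk S M u m o x e

def S_TOW : Prop := ∀ (a : ℕ → ℕ) (S : Set (St a × Set ℕ)) (l : Ordinal.{0}),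
  Fam S → Lev S l → Ordinal.omega0 ≤ l → l < Ordinal.omega 1 →
  ∃ β : Ordinal.{0}, β < Ordinal.omega 1 ∧ ∀ (M M' : St a) (u u' : ℕ), OS M → OS M' →
    u ∈ Lw S M u → BF M M' univ univ β {(u, u')} →
    IsoOn M M' (Lw S M u) (Lw S M' u') ∅

/-! ### Countability arguments -/

def S_TOWC : Prop := ∀ (a : ℕ → ℕ) (α : Ordinal.{0}) (K : Set (St a)) (S : Set (St a × Set ℕ)),
  G α K → Fam S → (∀ M ∈ K, ∀ x, (M, Ic M x x) ∈ S) →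
  ∃ f : ℕ → St a × Set ℕ, ∀ M ∈ K, ∀ u, ∃ n, IsoOn (f n).1 M (f n).2 (Lw S M u) ∅

/-- Facts on reversal. -/
def S_REV : Prop := ∀ (a : ℕ → ℕ),
  (∀ (M N : St a) (X Y : Set ℕ) (p : Set (ℕ × ℕ)),
    IsoOn M N X Y p ↔ IsoOn (rev M) (rev N) X Y p) ∧
  (∀ (M N : St a) (X Y : Set ℕ) (o : Ordinal.{0}) (p : Set (ℕ × ℕ)),
    BF M N X Y o p ↔ BF (rev M) (rev N) X Y o p) ∧
  (∀ M : St a, rev (rev M) = M) ∧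
  (∀ (M : St a) (x y : ℕ), Ic (rev M) x y = Ic M y x) ∧
  (∀ M : St a, OS M → OS (rev M)) ∧
  (∀ S : Set (St a × Set ℕ), Fam S → Fam (revS S)) ∧
  (∀ (α : Ordinal.{0}) (K : Set (St a)), G α K → G α {M | rev M ∈ K}) ∧
  (∀ (S : Set (St a × Set ℕ)) (M : St a) (u : ℕ), Lw (revS S) (rev M) u = Uw S M u)

def S_TOWR : Prop := ∀ (a : ℕ → ℕ) (α : Ordinal.{0}) (K : Set (St a)) (S : Set (St a × Set ℕ)),
  G α K → Fam S → (∀ M ∈ K, ∀ x, (M, Ic M x x) ∈ S) →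
  ∃ f : ℕ → St a × Set ℕ, ∀ M ∈ K, ∀ u, ∃ n, IsoOn (f n).1 M (f n).2 (Uw S M u) ∅

def S_SIM : Prop := ∀ (a : ℕ → ℕ) (α : Ordinal.{0}) (K : Set (St a)) (S : Set (St a × Set ℕ)),
  G α K → Fam S → (∀ M ∈ K, ∀ x, (M, Ic M x x) ∈ S) →
  ∃ S' : Set (St a × Set ℕ), Fam S' ∧ S ⊆ S' ∧ ∀ M ∈ K, ∀ x y, Adj M x y →
    (M, Ic M x y) ∉ S' → ∃ z, Adj M x z ∧ Adj M z y ∧ (M, Ic M x z) ∉ S ∧ (M, Ic M z y) ∉ S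

def S_CNT : Prop := ∀ (a : ℕ → ℕ) (α : Ordinal.{0}) (K : Set (St a)) (S : Set (St a × Set ℕ)),
  G α K → Fam S → (∀ M ∈ K, ∀ x, (M, Ic M x x) ∈ S) →
  ∀ ξ : Ordinal.{0}, ξ < Ordinal.omega 1 → ∃ S' : Set (St a × Set ℕ), Fam S' ∧ S ⊆ S' ∧
    ∀ M ∈ K, ∀ x y, Adj M x y → ¬ Rr (Bg S M) ξ x y → (M, Ic M x y) ∈ S'

def S_END : Prop := ∀ (a : ℕ → ℕ) (α : Ordinal.{0}) (K : Set (St a)) (S : Set (St a × Set ℕ)),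
  G α K → Fam S → (∀ M ∈ K, ∀ x, (M, Ic M x x) ∈ S) →
  (∀ M ∈ K, ∀ x y, Adj M x y → (M, Ic M x y) ∈ S) →
  ∃ f : ℕ → St a, ∀ M ∈ K, ∃ n, IsoOn (f n) M univ univ ∅

def S_BL : Prop := ∀ (a : ℕ → ℕ) (K : Set (St a)) (R : St a → ℕ → ℕ → Prop),
  MeasurableSet K → (∀ x y, MeasurableSet {M : St a | M ∈ K ∧ R M x y}) →
  (∀ ξ : Ordinal.{0}, ξ < Ordinal.omega 1 → ∃ M ∈ K, ∃ x y, Rr (R M) ξ x y) →
  ∃ M ∈ K, ∃ P : ℕ → ℕ → ℕ, (∀ m i, P (m + 1) (2 * i) = P m i) ∧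
    ∀ m i, i < 2 ^ m → R M (P m i) (P m (i + 1))

def S_DYA : Prop := ∀ (R : ℕ → ℕ → Prop) (P : ℕ → ℕ → ℕ),
  (∀ x y z, R x y → R y z → R x z) → (∀ m i, P (m + 1) (2 * i) = P m i) →
  (∀ m i, i < 2 ^ m → R (P m i) (P m (i + 1))) →
  ∃ lo hi : ℕ → ℕ → ℕ, (∀ n k, R (lo n k) (hi n k)) ∧ (∀ n k, R (hi n (k + 1)) (lo n k)) ∧
    ∀ n k j, R (hi n k) (lo (n + 1) j)

/-! ### Coding -/

/-- The standing assumptions on the intervals. -/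
structure LH {a : ℕ → ℕ} (M : St a) (lo hi : ℕ → ℕ → ℕ) : Prop where
  os : OS M
  lt : ∀ n k, Adj M (lo n k) (hi n k)
  dn : ∀ n k, Adj M (hi n (k + 1)) (lo n k)
  up : ∀ n k j, Adj M (hi n k) (lo (n + 1) j)

def S_LHF : Prop := ∀ (a : ℕ → ℕ) (M : St a) (lo hi : ℕ → ℕ → ℕ), LH M lo hi →
  (∀ i j : ℕ × ℕ, i ≠ j →
    Disjoint (Ic M (lo i.1 i.2) (hi i.1 i.2)) (Ic M (lo j.1 j.2) (hi j.1 j.2))) ∧
  (∀ m n k, m < n → Ic M (lo m k) (hi m k) ⊆ En M lo n) ∧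
  (∀ n k, ∀ z ∈ Ic M (lo n k) (hi n k), ∀ m, m ≤ n → z ∉ En M lo m) ∧
  (∀ m n, m ≤ n → En M lo m ⊆ En M lo n) ∧
  (∀ m n, m < n → ∃ z ∈ En M lo n, z ∉ En M lo m) ∧
  (∀ n z, z ∉ En M lo n → ∃ k, ∀ w ∈ Ic M (lo n k) (hi n k), Adj M w z)

/-- The assumptions on a family of fillings. -/
structure GA {a : ℕ → ℕ} {ι : Type} (α : Ordinal.{0}) (M : St a) (lo hi : ι → ℕ)
    (T : ι → St a) : Prop where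
  os : OS M
  le : ∀ j, ¬ Adj M (hi j) (lo j)
  dj : ∀ i j, i ≠ j → Disjoint (Ic M (lo i) (hi i)) (Ic M (lo j) (hi j))
  osT : ∀ j, OS (T j)
  bf : ∀ j, BF M (T j) (Ic M (lo j) (hi j)) (Ic M (lo j) (hi j)) α ∅

/-- The glued structure. -/
noncomputable abbrev GD {a : ℕ → ℕ} {ι : Type} (M : St a) (lo hi : ι → ℕ) (T : ι → St a) :
    St a := Glu M (fun j => Ic M (lo j) (hi j)) T

def S_GLO : Prop := ∀ (a : ℕ → ℕ) (ι : Type) (α : Ordinal.{0}) (M : St a) (lo hi : ι → ℕ)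
  (T : ι → St a), GA α M lo hi T → OS (GD M lo hi T)

def S_GLF : Prop := ∀ (a : ℕ → ℕ) (ι : Type) (α : Ordinal.{0}) (M : St a) (lo hi : ι → ℕ)
  (T : ι → St a), GA α M lo hi T →
  (∀ j, ∀ x ∈ Ic M (lo j) (hi j), ∀ y, y ∉ Ic M (lo j) (hi j) →
    (Adj (GD M lo hi T) x y ↔ Adj M x y) ∧ (Adj (GD M lo hi T) y x ↔ Adj M y x)) ∧
  (∀ j, ∀ x ∈ Ic M (lo j) (hi j), ∀ y ∈ Ic M (lo j) (hi j),
    Ic (GD M lo hi T) x y = Ic M (lo j) (hi j) ∩ Ic (T j) x y) ∧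
  (∀ j, IsoOn (T j) (GD M lo hi T) (Ic M (lo j) (hi j)) (Ic M (lo j) (hi j))
    (idOn (Ic M (lo j) (hi j))))

def S_GLB : Prop := ∀ (a : ℕ → ℕ) (ι : Type) (α : Ordinal.{0}) (M : St a) (lo hi : ι → ℕ)
  (T : ι → St a), GA α M lo hi T → BF M (GD M lo hi T) univ univ α ∅

def S_GLC : Prop := ∀ (a : ℕ → ℕ) (ι : Type) (M : St a) (J : ι → Set ℕ)
  (T : ι → (ℕ → Bool) → St a), (∀ i j, i ≠ j → Disjoint (J i) (J j)) →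
  (∀ j, Continuous (T j)) → Continuous fun σ : ℕ → Bool => Glu M J (fun j => T j σ)

def S_FILL : Prop := ∀ (a : ℕ → ℕ) (α : Ordinal.{0}) (M : St a) (X : Set ℕ),
  Ordinal.omega0 ≤ α → ¬ Small α M X → ∀ F : Set (St a × Set ℕ), F.Countable →
  ∃ T : St a, OS T ∧ BF M T X X α ∅ ∧ ∃ x ∈ X, ∃ y ∈ X, ¬ Adj T y x ∧
    ∀ P ∈ F, ¬ IsoOn P.1 T P.2 (X ∩ Ic T x y) ∅

def S_SEQ : Prop := ∀ (a : ℕ → ℕ) (α : Ordinal.{0}) (M : St a) (lo hi : ℕ → ℕ → ℕ),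
  Ordinal.omega0 ≤ α → (∀ n k, ¬ Small α M (Ic M (lo n k) (hi n k))) →
  ∃ t : ℕ → ℕ → St a, ∀ s k, OS (t s k) ∧
    BF M (t s k) (Ic M (lo (s / 2) k) (hi (s / 2) k)) (Ic M (lo (s / 2) k) (hi (s / 2) k)) α ∅ ∧
    ∃ x ∈ Ic M (lo (s / 2) k) (hi (s / 2) k), ∃ y ∈ Ic M (lo (s / 2) k) (hi (s / 2) k),
      ¬ Adj (t s k) y x ∧ ∀ P ∈ FF M lo hi t s,
        ¬ IsoOn P.1 (t s k) P.2 (Ic M (lo (s / 2) k) (hi (s / 2) k) ∩ Ic (t s k) x y) ∅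

/-- What `S_SEQ` provides. -/
def GoodT {a : ℕ → ℕ} (α : Ordinal.{0}) (M : St a) (lo hi : ℕ → ℕ → ℕ) (t : ℕ → ℕ → St a) :
    Prop := ∀ s k, OS (t s k) ∧
    BF M (t s k) (Ic M (lo (s / 2) k) (hi (s / 2) k)) (Ic M (lo (s / 2) k) (hi (s / 2) k)) α ∅ ∧
    ∃ x ∈ Ic M (lo (s / 2) k) (hi (s / 2) k), ∃ y ∈ Ic M (lo (s / 2) k) (hi (s / 2) k),
      ¬ Adj (t s k) y x ∧ ∀ P ∈ FF M lo hi t s,
        ¬ IsoOn P.1 (t s k) P.2 (Ic M (lo (s / 2) k) (hi (s / 2) k) ∩ Ic (t s k) x y) ∅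

/-- Lower part: `E_n` is contained in the coded cut. -/
def S_DEC1 : Prop := ∀ (a : ℕ → ℕ) (α : Ordinal.{0}) (M : St a) (lo hi : ℕ → ℕ → ℕ)
  (t : ℕ → ℕ → St a) (σ : ℕ → Bool), LH M lo hi → GoodT α M lo hi t →
  (∀ n, En M lo n ⊆ CS (FF M lo hi t (2 * n)) (DS M lo hi t σ)) ∧
  (∀ n, En M lo n ⊆ CS (FF M lo hi t (2 * n + 1)) (DS M lo hi t σ)) ∧
  (∀ n, σ n = false → En M lo (n + 1) ⊆ CS (FF M lo hi t (2 * n + 1)) (DS M lo hi t σ))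

/-- Upper part: the coded cut is contained in `E_n`. -/
def S_DEC2 : Prop := ∀ (a : ℕ → ℕ) (α : Ordinal.{0}) (M : St a) (lo hi : ℕ → ℕ → ℕ)
  (t : ℕ → ℕ → St a) (σ : ℕ → Bool), LH M lo hi → GoodT α M lo hi t →
  (∀ n, CS (FF M lo hi t (2 * n)) (DS M lo hi t σ) ⊆ En M lo n) ∧
  (∀ n, σ n = true → CS (FF M lo hi t (2 * n + 1)) (DS M lo hi t σ) ⊆ En M lo n)

/-- Invariance of coded cuts. -/
def S_CSI : Prop := ∀ (a : ℕ → ℕ) (F F' : Set (St a × Set ℕ)) (D D' : St a),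
  IsoOn D D' univ univ ∅ → CS F D = CS F' D → CS F D' = CS F' D'

def S_CODE : Prop := ∀ (a : ℕ → ℕ) (α : Ordinal.{0}) (K : Set (St a)), G α K → ∀ M ∈ K,
  ∀ lo hi : ℕ → ℕ → ℕ, LH M lo hi →
  (∀ n k, ¬ Small α M (Ic M (lo n k) (hi n k))) → False

def S_MAIN : Prop := ∀ (a : ℕ → ℕ) (α : Ordinal.{0}) (K : Set (St a)), G α K → BlkC K →
  ∃ f : ℕ → St a, ∀ M ∈ K, ∃ n, IsoOn (f n) M univ univ ∅

/-! ### The blocks and the final theorem -/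

def S_FIN : Prop := ∀ (a : ℕ → ℕ) (M N : St a) (X Y : Set ℕ), X.Finite →
  BF M N X Y Ordinal.omega0 ∅ → IsoOn M N X Y ∅

/-- Isomorphism of relational structures on `ℕ`. -/
def RIso {a : ℕ → ℕ} (x y : RS a) : Prop :=
  ∃ σ : Equiv.Perm ℕ, ∀ (i : ℕ) (v : Fin (a i) → ℕ), y i (⇑σ ∘ v) = x i v

/-- The perfect set dichotomy for a class of relational structures on `ℕ`. -/
def Dich {a : ℕ → ℕ} (B : Set (RS a)) : Prop :=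
  (∃ f : ℕ → RS a, ∀ x ∈ B, ∃ n : ℕ, RIso (f n) x) ∨
  (∃ g : (ℕ → Bool) → RS a, Continuous g ∧ (∀ c, g c ∈ B) ∧ ∀ c d : ℕ → Bool,
    RIso (g c) (g d) → c = d)

/-- Every Borel isomorphism-invariant subclass of `V` satisfies the dichotomy. -/
def VC {a : ℕ → ℕ} (V : RS a → Prop) : Prop := ∀ B : Set (RS a), MeasurableSet B →
  (∀ x y : RS a, RIso x y → (x ∈ B ↔ y ∈ B)) → (∀ x ∈ B, V x) → Dich B

/-- All infinite blocks are in `V`. -/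
def BlkV {a : ℕ → ℕ} (V : RS a → Prop) (M : St a) : Prop := ∀ (x : ℕ) (e : ℕ → ℕ),
  Function.Injective e → (∀ z, z ∈ Ic M x x ↔ ∃ n, e n = z) → V fun i v => M.2 i (e ∘ v)

def S_PUT : Prop := ∀ (a : ℕ → ℕ) (e : ℕ → ℕ), Function.Injective e →
  (∀ R : RS a, OS (put e R)) ∧
  (∀ R : RS a, IsoOn (lift R) (put e R) univ (range e) {w | w.2 = e w.1}) ∧
  (∀ (R : RS a) (i : ℕ) (v : Fin (a i) → ℕ), (put e R).2 i (e ∘ v) = R i v) ∧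
  Continuous (put e : RS a → St a)

/-- Replacing an infinite block by an equivalent one. -/
def S_BREP : Prop := ∀ (a : ℕ → ℕ) (α : Ordinal.{0}) (K : Set (St a)), G α K → ∀ M ∈ K,
  ∀ (x : ℕ) (e : ℕ → ℕ), Function.Injective e → (∀ z, z ∈ Ic M x x ↔ ∃ n, e n = z) →
  ∀ R : RS a, BF M (lift R) (Ic M x x) univ α ∅ →
  Glu M (fun _ : Unit => Ic M x x) (fun _ => put e R) ∈ K ∧
  Ic (Glu M (fun _ : Unit => Ic M x x) (fun _ => put e R)) x x = Ic M x x ∧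
  (∀ (i : ℕ) (v : Fin (a i) → ℕ),
    (Glu M (fun _ : Unit => Ic M x x) (fun _ => put e R)).2 i (e ∘ v) = R i v) ∧
  IsoOn (lift R) (Glu M (fun _ : Unit => Ic M x x) (fun _ => put e R)) univ (Ic M x x)
    {w | w.2 = e w.1}

def S_BLKV : Prop := ∀ (a : ℕ → ℕ) (α : Ordinal.{0}) (K : Set (St a)) (V : RS a → Prop),
  G α K → VC V → (∀ M ∈ K, BlkV V M) → ∀ M ∈ K, ∀ x, (Ic M x x).Infinite →
  ∃ f : ℕ → St a × Set ℕ, ∀ N : St a, ∀ Y : Set ℕ, OS N →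
    (∀ u ∈ Y, ∀ v ∈ Y, ¬ Adj N u v) → BF M N (Ic M x x) Y α ∅ →
    ∃ n, IsoOn (f n).1 N (f n).2 Y ∅

def S_BLK : Prop := ∀ (a : ℕ → ℕ) (α : Ordinal.{0}) (K : Set (St a)) (V : RS a → Prop),
  G α K → VC V → (∀ M ∈ K, BlkV V M) → BlkC K

def S_FINAL : Prop := ∀ (a : ℕ → ℕ) (V : RS a → Prop), VC V →
  ∀ B : Set (St a), MeasurableSet B →
  (∀ M N : St a, ∀ σ : Equiv.Perm ℕ, (∀ x y, N.1 (σ x) (σ y) = M.1 x y) →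
    (∀ (i : ℕ) (v : Fin (a i) → ℕ), N.2 i (⇑σ ∘ v) = M.2 i v) → (M ∈ B ↔ N ∈ B)) →
  (∀ M ∈ B, OS M ∧ BlkV V M) →
  (∃ f : ℕ → St a, ∀ M ∈ B, ∃ n, ∃ σ : Equiv.Perm ℕ,
    (∀ x y, M.1 (σ x) (σ y) = (f n).1 x y) ∧
    ∀ (i : ℕ) (v : Fin (a i) → ℕ), M.2 i (⇑σ ∘ v) = (f n).2 i v) ∨
  (∃ g : (ℕ → Bool) → St a, Continuous g ∧ (∀ c, g c ∈ B) ∧
    ∀ c d : ℕ → Bool, (∃ σ : Equiv.Perm ℕ, (∀ x y, (g d).1 (σ x) (σ y) = (g c).1 x y) ∧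
      ∀ (i : ℕ) (v : Fin (a i) → ℕ), (g d).2 i (⇑σ ∘ v) = (g c).2 i v) → c = d)

end Pool.Agent.H533R2.VO
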